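import Pool.Agent.SM2e.Mod

set_option autoImplicit false

namespace Pool.Agent.SM2e

open Finset

noncomputable section

/-! ### arithmetic -/

lemma pow_dvd_odd {e f : ℕ} {c : ℤ} (h : (2 : ℤ) ^ f ∣ 2 ^ e * (2 * c + 1)) : f ≤ e := by
  by_contra hlt
  have h1 : (2 : ℤ) ^ (e + 1) ∣ 2 ^ e * (2 * c + 1) := (pow_dvd_pow 2 (by omega)).trans h
  rw [pow_succ] at h1
  have h2 : (2 : ℤ) ∣ 2 * c + 1 := by
    exact (mul_dvd_mul_iff_left (by positivity)).1 h1
  omega

/-- `x^(2^r) - y^(2^r)` for odd `x, y`. -/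
lemma lte_two (x y : ℤ) (e : ℕ) (c : ℤ) (hx : ∃ u, x = 2 * u + 1) (hy : ∃ u, y = 2 * u + 1)
    (h : x ^ 2 - y ^ 2 = 2 ^ e * (2 * c + 1)) :
    ∀ r : ℕ, ∃ c' : ℤ, x ^ (2 ^ (r + 1)) - y ^ (2 ^ (r + 1)) = 2 ^ (e + r) * (2 * c' + 1) := by
  intro r
  induction r with
  | zero => exact ⟨c, by simpa using h⟩
  | succ r ih =>
    obtain ⟨c', hc'⟩ := ih
    have hsq : ∀ z : ℤ, (∃ u, z = 2 * u + 1) → ∃ u, z ^ (2 ^ (r + 1)) = 4 * u + 1 := by
      intro z hz
      have h1 : ∀ k : ℕ, ∃ u, z ^ (2 ^ (k + 1)) = 4 * u + 1 := by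
        intro k
        induction k with
        | zero =>
          obtain ⟨u, rfl⟩ := hz
          exact ⟨u ^ 2 + u, by ring⟩
        | succ k ih2 =>
          obtain ⟨u, hu⟩ := ih2
          refine ⟨4 * u ^ 2 + 2 * u, ?_⟩
          rw [pow_succ 2 (k + 1), pow_mul, hu]; ring
      exact h1 r
    obtain ⟨u, hu⟩ := hsq x hx
    obtain ⟨w, hw⟩ := hsq y hy
    refine ⟨2 * c' * (u + w) + c' + (u + w), ?_⟩
    have e1 : x ^ (2 ^ (r + 1 + 1)) - y ^ (2 ^ (r + 1 + 1)) =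
        (x ^ (2 ^ (r + 1)) - y ^ (2 ^ (r + 1))) * (x ^ (2 ^ (r + 1)) + y ^ (2 ^ (r + 1))) := by
      rw [pow_succ 2 (r + 1), pow_mul, pow_mul]; ring
    rw [e1, hc', hu, hw]
    ring

/-! ### iterated shifts -/

def shn (r : ℕ) (ω : ℕ → Fin 3) : ℕ → Fin 3 := fun n => ω (n + r)

lemma shn_zero (ω : ℕ → Fin 3) : shn 0 ω = ω := rfl
lemma shn_succ (r : ℕ) (ω : ℕ → Fin 3) : shn (r + 1) ω = shn r (sh ω) := by
  funext n; rfl

lemma ND_shn {ω : ℕ → Fin 3} (h : ND ω) : ∀ r, ND (shn r ω) := by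
  intro r
  induction r generalizing ω with
  | zero => exact h
  | succ r ih => rw [shn_succ]; exact ih h.sh

lemma BB_levels (K : ℕ) : ∀ (r : ℕ) (ω : ℕ → Fin 3), (∀ i < r, ω i = 0) →
    BB ω (2 ^ (K + r)) = BB (shn r ω) (2 ^ K) ^ (2 ^ r)
  | 0, ω, _ => by simp [shn_zero]
  | r + 1, ω, h => by
    have ih := BB_levels K r (sh ω) (fun i hi => h (i + 1) (by omega))
    rw [show 2 ^ (K + (r + 1)) = 2 * 2 ^ (K + r) by ring, BB_zero ω (h 0 (by omega)), ih, shn_succ,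
      ← pow_mul, pow_succ 2 r]

lemma PPn_level (K r : ℕ) (hK : 2 ≤ K) (ω : ℕ → Fin 3) (hω : ND ω) (h : ∀ i < r + 1, ω i = 0) :
    (2 : ℤ) ^ (K + r + 2) ∣ PPn ω (2 ^ (K + r + 1)) -
      (BB (shn (r + 1) ω) (2 ^ K) ^ (2 ^ (r + 1)) + 4 ^ (2 ^ (K + r) - 1)) := by
  have h1 := one_level ω hω (h 0 (by omega)) (K + r) (by omega)
  rw [BB_levels K r (sh ω) (fun i hi => h (i + 1) (by omega)), ← pow_mul, ← pow_succ,
    ← shn_succ] at h1
  exact h1

/-- card of the critical set -/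
def kk (η : List Bool) : Option Bool → ℤ
  | none => 0
  | some t => 2 ^ (la t η)

lemma card_CR (o : Option Bool) (η : List Bool) : ((CR o η).card : ℤ) = kk η o := by
  cases o with
  | none => rw [CR_none]; rfl
  | some t => rw [(CR_card t η).2.2]; simp [kk]

/-- The main congruence. -/
lemma main_cong (r : ℕ) (η : List Bool) (o o' : Option Bool) (ω ω' ρ : ℕ → Fin 3) (hω : ND ω)
    (hω' : ND ω') (hρ : ND ρ) (h0 : ∀ i < r + 1, ω i = 0) (h0' : ∀ i < r + 1, ω' i = 0)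
    (h1 : Pre η (so o) (shn (r + 1) ω)) (h1' : Pre η (so o') (shn (r + 1) ω'))
    (h2 : Pre η 0 ρ) (heq : ∀ n, PPn ω n = PPn ω' n) :
    (2 : ℤ) ^ (η.length + r + 4) ∣
      (BB ρ (2 ^ (η.length + 2)) + kk η o) ^ (2 ^ (r + 1)) -
      (BB ρ (2 ^ (η.length + 2)) + kk η o') ^ (2 ^ (r + 1)) := by
  have e1 := PPn_level (η.length + 2) r (by omega) ω hω h0
  have e2 := PPn_level (η.length + 2) r (by omega) ω' hω' h0'
  rw [BB_crit o η _ ρ h1 h2 (ND_shn hω _) hρ, card_CR] at e1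
  rw [BB_crit o' η _ ρ h1' h2 (ND_shn hω' _) hρ, card_CR, ← heq] at e2
  have e3 := dvd_sub e2 e1
  rw [show η.length + r + 4 = η.length + 2 + r + 2 by ring]
  have e4 : (BB ρ (2 ^ (η.length + 2)) + kk η o) ^ (2 ^ (r + 1)) -
      (BB ρ (2 ^ (η.length + 2)) + kk η o') ^ (2 ^ (r + 1)) =
      PPn ω (2 ^ (η.length + 2 + r + 1)) - ((BB ρ (2 ^ (η.length + 2)) + kk η o') ^ (2 ^ (r + 1)) +
        4 ^ (2 ^ (η.length + 2 + r) - 1)) - (PPn ω (2 ^ (η.length + 2 + r + 1)) -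
        ((BB ρ (2 ^ (η.length + 2)) + kk η o) ^ (2 ^ (r + 1)) +
        4 ^ (2 ^ (η.length + 2 + r) - 1))) := by ring
  rw [e4]
  exact e3

/-! ### the values of `la` -/

lemma la_le (t : Bool) : ∀ η : List Bool, la t η ≤ η.length
  | [] => le_rfl
  | s :: η => by
    have := la_le t η
    unfold la
    rw [List.length_cons]
    split_ifs <;> omega

lemma la_replicate_self (t : Bool) : ∀ m : ℕ, la t (List.replicate m t) = m
  | 0 => rfl
  | m + 1 => by
    rw [List.replicate_succ, la, la_replicate_self t m]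
    split_ifs with h h2
    · omega
    · exact absurd rfl h2
    · rfl

lemma la_replicate_not (t : Bool) : ∀ m : ℕ, la t (List.replicate m (!t)) = 0
  | 0 => rfl
  | m + 1 => by
    rw [List.replicate_succ, la, la_replicate_not t m]
    simp

lemma la_pos (t : Bool) : ∀ η : List Bool, t ∈ η → 1 ≤ la t η
  | [], h => by simp at h
  | s :: η, h => by
    unfold la
    split_ifs with h1 h2
    · exact le_rfl
    · rcases List.mem_cons.1 h with h3 | h3
      · exact absurd h3.symm h2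
      · have := la_pos t η h3; omega
    · omega

lemma la_cons_pos (t s : Bool) (η : List Bool) (h : 1 ≤ la t η) : la t (s :: η) = la t η + 1 := by
  rw [la, if_neg (by omega)]

lemma la_four (y : Bool) (η : List Bool) : 4 ≤ la y (y :: y :: y :: y :: η) := by
  by_cases h : la y η = 0
  · have h1 : la y (y :: η) = 1 := by simp [la, h]
    have h2 := la_cons_pos y y (y :: η) (by omega)
    have h3 := la_cons_pos y y (y :: y :: η) (by omega)
    have h4 := la_cons_pos y y (y :: y :: y :: η) (by omega)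
    omega
  · have h1 := la_cons_pos y y η (by omega)
    have h2 := la_cons_pos y y (y :: η) (by omega)
    have h3 := la_cons_pos y y (y :: y :: η) (by omega)
    have h4 := la_cons_pos y y (y :: y :: y :: η) (by omega)
    omega

lemma la_four' (y : Bool) (η : List Bool) (h : (!y) ∈ η) :
    4 ≤ la (!y) (y :: y :: y :: y :: η) := by
  have h0 := la_pos (!y) η h
  have h1 := la_cons_pos (!y) y η (by omega)
  have h2 := la_cons_pos (!y) y (y :: η) (by omega)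
  have h3 := la_cons_pos (!y) y (y :: y :: η) (by omega)
  have h4 := la_cons_pos (!y) y (y :: y :: y :: η) (by omega)
  omega

lemma la_ne : ∀ (η : List Bool), η ≠ [] → la true η ≠ la false η
  | [], h => absurd rfl h
  | [s], _ => by cases s <;> simp [la]
  | s :: t :: η, _ => by
    have ih := la_ne (t :: η) (by simp)
    rw [la.eq_def true (s :: t :: η), la.eq_def false (s :: t :: η)]
    simp only
    split_ifs <;> omega

/-! ### comparison of the two values -/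

lemma cmp_const (y : Bool) (m r : ℕ) (o o' : Option Bool) (ho : o ≠ o') (ρ : ℕ → Fin 3)
    (hρ : ND ρ) (h : Pre (List.replicate (m + 1) y) 0 ρ) :
    ¬ (2 : ℤ) ^ ((List.replicate (m + 1) y).length + r + 4) ∣
      (BB ρ (2 ^ ((List.replicate (m + 1) y).length + 2)) + kk (List.replicate (m + 1) y) o) ^
        (2 ^ (r + 1)) -
      (BB ρ (2 ^ ((List.replicate (m + 1) y).length + 2)) + kk (List.replicate (m + 1) y) o') ^
        (2 ^ (r + 1)) := by
  rw [List.length_replicate]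
  obtain ⟨c, hc⟩ := BB_const_odd y m ρ hρ h
  have hk1 : kk (List.replicate (m + 1) y) (some y) = 2 ^ (m + 1) := by
    simp only [kk, la_replicate_self]
  have hk2 : kk (List.replicate (m + 1) y) (some (!y)) = 1 := by
    have := la_replicate_not (!y) (m + 1)
    rw [Bool.not_not] at this
    simp only [kk, this, pow_zero]
  have hk3 : kk (List.replicate (m + 1) y) none = 0 := rfl
  set b := BB ρ (2 ^ (m + 1 + 2)) with hb
  -- parity of the three values
  have hodd_pow : ∀ z : ℤ, (∃ u, z = 2 * u + 1) → ∃ u, z ^ (2 ^ (r + 1)) = 2 * u + 1 := by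
    intro z hz
    have : Odd (z ^ (2 ^ (r + 1))) := Odd.pow (by obtain ⟨u, hu⟩ := hz; exact ⟨u, hu⟩)
    exact this
  have heven_pow : ∀ z : ℤ, (∃ u, z = 2 * u) → ∃ u, z ^ (2 ^ (r + 1)) = 2 * u := by
    rintro z ⟨u, rfl⟩
    refine ⟨u * (2 * u) ^ (2 ^ (r + 1) - 1), ?_⟩
    have hpos : 0 < 2 ^ (r + 1) := by positivity
    conv_lhs => rw [show 2 ^ (r + 1) = 2 ^ (r + 1) - 1 + 1 by omega, pow_succ]
    ring
  have hpar : ∀ x y' : ℤ, (∃ u, x = 2 * u + 1) → (∃ u, y' = 2 * u) →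
      ¬ (2 : ℤ) ^ (m + 1 + r + 4) ∣ x ^ (2 ^ (r + 1)) - y' ^ (2 ^ (r + 1)) := by
    intro x y' hx hy hd
    obtain ⟨u, hu⟩ := hodd_pow x hx
    obtain ⟨w, hw⟩ := heven_pow y' hy
    have h2 : (2 : ℤ) ∣ x ^ (2 ^ (r + 1)) - y' ^ (2 ^ (r + 1)) :=
      (dvd_pow_self 2 (by omega)).trans hd
    rw [hu, hw] at h2
    omega
  have hpar' : ∀ x y' : ℤ, (∃ u, x = 2 * u) → (∃ u, y' = 2 * u + 1) →
      ¬ (2 : ℤ) ^ (m + 1 + r + 4) ∣ x ^ (2 ^ (r + 1)) - y' ^ (2 ^ (r + 1)) := by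
    intro x y' hx hy hd
    apply hpar y' x hy hx
    rw [← neg_sub]; exact (dvd_neg.2 hd)
  have o0 : ∃ u, b + 0 = 2 * u + 1 := ⟨c, by rw [add_zero]; exact hc⟩
  have o1 : ∃ u, b + 2 ^ (m + 1) = 2 * u + 1 := ⟨c + 2 ^ m, by rw [hc]; ring⟩
  have o2 : ∃ u, b + 1 = 2 * u := ⟨c + 1, by rw [hc]; ring⟩
  -- the case none / some y
  have hmain : ∃ e : ℕ, ∃ c' : ℤ, e ≤ m + 3 ∧
      (b + 2 ^ (m + 1)) ^ 2 - (b + 0) ^ 2 = 2 ^ e * (2 * c' + 1) := by
    rcases Nat.eq_zero_or_pos m with rfl | hm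
    · obtain ⟨d, hd⟩ := BB_one_mod4 y ρ hρ h
      refine ⟨3, d, by omega, ?_⟩
      have : b = 4 * d + 1 := by rw [hb, ← hd]
      rw [this]; ring
    · obtain ⟨m', rfl⟩ : ∃ m', m = m' + 1 := ⟨m - 1, by omega⟩
      refine ⟨m' + 3, c + 2 ^ m', by omega, ?_⟩
      rw [hc]; ring
  have hno : ¬ (2 : ℤ) ^ (m + 1 + r + 4) ∣ (b + 2 ^ (m + 1)) ^ (2 ^ (r + 1)) -
      (b + 0) ^ (2 ^ (r + 1)) := by
    intro hd
    obtain ⟨e, c', he, hec⟩ := hmain
    obtain ⟨c'', hc''⟩ := lte_two _ _ e c' o1 o0 hec r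
    rw [hc''] at hd
    have := pow_dvd_odd hd
    omega
  have hno' : ¬ (2 : ℤ) ^ (m + 1 + r + 4) ∣ (b + 0) ^ (2 ^ (r + 1)) -
      (b + 2 ^ (m + 1)) ^ (2 ^ (r + 1)) := by
    intro hd
    apply hno
    rw [← neg_sub]; exact dvd_neg.2 hd
  have hcases : ∀ o : Option Bool, o = none ∨ o = some y ∨ o = some (!y) := by
    intro o
    cases o with
    | none => exact Or.inl rfl
    | some t =>
      right
      cases t <;> cases y <;> simp
  rcases hcases o with rfl | rfl | rfl <;> rcases hcases o' with rfl | rfl | rfl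
  · exact absurd rfl ho
  · rw [hk1, hk3]; exact hno'
  · rw [hk2, hk3]; exact hpar _ _ o0 o2
  · rw [hk1, hk3]; exact hno
  · exact absurd rfl ho
  · rw [hk1, hk2]; exact hpar _ _ o1 o2
  · rw [hk2, hk3]; exact hpar' _ _ o2 o0
  · rw [hk1, hk2]; exact hpar' _ _ o2 o1
  · exact absurd rfl ho

lemma cmp_nil (r : ℕ) (o o' : Option Bool) (ho : o ≠ o') (hn : o = none ∨ o' = none)
    (ρ : ℕ → Fin 3) (hρ : ND ρ) (h : Pre [] 0 ρ) :
    ¬ (2 : ℤ) ^ (([] : List Bool).length + r + 4) ∣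
      (BB ρ (2 ^ (([] : List Bool).length + 2)) + kk [] o) ^ (2 ^ (r + 1)) -
      (BB ρ (2 ^ (([] : List Bool).length + 2)) + kk [] o') ^ (2 ^ (r + 1)) := by
  have h0 : ρ 0 = 0 := h
  have hB : BB ρ (2 ^ (([] : List Bool).length + 2)) = 0 := by
    rw [show 2 ^ (([] : List Bool).length + 2) = 2 * 2 from rfl, BB_zero ρ h0, BB_count]
    have h1 : ∀ l ∈ LL 2, FF (sh ρ) l = 0 := by
      intro l hl
      rw [mem_LL] at hl
      match l, hl with
      | [p, q], _ =>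
        apply FF_zero
        intro h2
        have := (two_word hρ.sh (β p) (β q)).1 h2
        exact β_ne p this.1
    rw [sum_eq_zero h1]; norm_num
  rw [hB]
  have hpos : 2 ^ (r + 1) ≠ 0 := by positivity
  have hk : ∀ t : Bool, kk [] (some t) = 1 := fun t => by simp [kk, la]
  have hk0 : kk [] none = 0 := rfl
  have h2 : (2 : ℤ) ∣ 2 ^ (([] : List Bool).length + r + 4) := dvd_pow_self 2 (by simp)
  cases o with
  | none =>
    cases o' with
    | none => exact absurd rfl ho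
    | some t =>
      rw [hk, hk0, add_zero, zero_pow hpos, zero_add, one_pow]
      intro hd
      have := h2.trans hd
      omega
  | some s =>
    cases o' with
    | none =>
      rw [hk, hk0, add_zero, zero_pow hpos, zero_add, one_pow]
      intro hd
      have := h2.trans hd
      omega
    | some t => rcases hn with h | h <;> exact absurd h (by simp)

lemma cmp_mixed (y : Bool) (η : List Bool) (hy : (!y) ∈ η) (o o' : Option Bool) (ho : o ≠ o')
    (ρ : ℕ → Fin 3) (hρ : ND ρ) (h : Pre (y :: y :: y :: y :: η) 0 ρ) :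
    ¬ (2 : ℤ) ^ ((y :: y :: y :: y :: η).length + 0 + 4) ∣
      (BB ρ (2 ^ ((y :: y :: y :: y :: η).length + 2)) + kk (y :: y :: y :: y :: η) o) ^
        (2 ^ (0 + 1)) -
      (BB ρ (2 ^ ((y :: y :: y :: y :: η).length + 2)) + kk (y :: y :: y :: y :: η) o') ^
        (2 ^ (0 + 1)) := by
  obtain ⟨c, hc⟩ := BB_mod8 y η hy ρ hρ h
  set ζ := y :: y :: y :: y :: η with hζ
  have h4 : ∀ t : Bool, 4 ≤ la t ζ := by
    intro t
    by_cases ht : t = y
    · rw [ht]; exact la_four y η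
    · have : t = !y := by revert ht; cases t <;> cases y <;> simp
      rw [this]; exact la_four' y η hy
  rw [hc]
  set m := ζ.length with hm
  -- values
  have key0 : ∀ l : ℕ, 4 ≤ l → l ≤ m →
      ¬ (2 : ℤ) ^ (m + 0 + 4) ∣ (8 * c + 4 + 2 ^ l) ^ 2 - (8 * c + 4 + 0) ^ 2 := by
    intro l hl hlm hd
    obtain ⟨l', rfl⟩ : ∃ l', l = l' + 4 := ⟨l - 4, by omega⟩
    have e1 : (8 * c + 4 + 2 ^ (l' + 4)) ^ 2 - (8 * c + 4 + 0) ^ 2 =
        2 ^ (l' + 7) * (2 * (c + 2 ^ l') + 1) := by ring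
    rw [e1] at hd
    have := pow_dvd_odd hd
    omega
  have key1 : ∀ l l' : ℕ, 4 ≤ l → l < l' → l' ≤ m →
      ¬ (2 : ℤ) ^ (m + 0 + 4) ∣ (8 * c + 4 + 2 ^ l') ^ 2 - (8 * c + 4 + 2 ^ l) ^ 2 := by
    intro l l' hl hll hlm hd
    obtain ⟨a, rfl⟩ : ∃ a, l = a + 4 := ⟨l - 4, by omega⟩
    obtain ⟨b, rfl⟩ : ∃ b, l' = a + 4 + (b + 1) := ⟨l' - (a + 4) - 1, by omega⟩
    have e1 : (8 * c + 4 + 2 ^ (a + 4 + (b + 1))) ^ 2 - (8 * c + 4 + 2 ^ (a + 4)) ^ 2 =
        2 ^ (a + 7) * (2 * (2 * 2 ^ b * (c + 2 * (2 ^ a * 2 ^ b) + 2 ^ a) + 2 ^ b -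
          (c + 2 * (2 ^ a * 2 ^ b) + 2 ^ a) - 1) + 1) := by ring
    rw [e1] at hd
    have := pow_dvd_odd hd
    omega
  have hneg : ∀ x y : ℤ, ¬ (2 : ℤ) ^ (m + 0 + 4) ∣ x ^ 2 - y ^ 2 →
      ¬ (2 : ℤ) ^ (m + 0 + 4) ∣ y ^ 2 - x ^ 2 := by
    intro x y h1 h2
    apply h1
    rw [← neg_sub]; exact dvd_neg.2 h2
  have hle : ∀ t : Bool, la t ζ ≤ m := fun t => la_le t ζ
  simp only [zero_add, pow_one]
  cases o with
  | none =>
    cases o' with
    | none => exact absurd rfl ho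
    | some t => exact hneg _ _ (key0 (la t ζ) (h4 t) (hle t))
  | some s =>
    cases o' with
    | none => exact key0 (la s ζ) (h4 s) (hle s)
    | some t =>
      have hst : s ≠ t := fun h => ho (by rw [h])
      have hne : la s ζ ≠ la t ζ := by
        have h5 := la_ne ζ (by rw [hζ]; simp)
        cases s <;> cases t
        · exact absurd rfl hst
        · exact h5.symm
        · exact h5
        · exact absurd rfl hst
      rcases Nat.lt_or_ge (la s ζ) (la t ζ) with hlt | hge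
      · exact hneg _ _ (key1 _ _ (h4 s) hlt (hle t))
      · exact key1 _ _ (h4 t) (by omega) (hle s)

end

end Pool.Agent.SM2e
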