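import Mathlib

set_option autoImplicit false

namespace Pool.Agent.SM2e

open Finset

/-- All Boolean lists of length `n`. -/
def LL : ℕ → Finset (List Bool)
  | 0 => {[]}
  | n + 1 => (LL n).image (List.cons false) ∪ (LL n).image (List.cons true)

lemma mem_LL : ∀ (n : ℕ) (l : List Bool), l ∈ LL n ↔ l.length = n
  | 0, l => by simp [LL]
  | n + 1, l => by
    simp only [LL, mem_union, mem_image, mem_LL n]
    constructor
    · rintro (⟨a, h, rfl⟩ | ⟨a, h, rfl⟩) <;> simp [h]
    · intro h
      match l, h with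
      | false :: l, h => exact Or.inl ⟨l, by simpa using h, rfl⟩
      | true :: l, h => exact Or.inr ⟨l, by simpa using h, rfl⟩

lemma sum_LL_zero {M : Type} [AddCommMonoid M] (F : List Bool → M) : ∑ l ∈ LL 0, F l = F [] := by
  simp [LL]

lemma sum_LL_succ {M : Type} [AddCommMonoid M] (n : ℕ) (F : List Bool → M) :
    ∑ l ∈ LL (n + 1), F l = ∑ l ∈ LL n, F (false :: l) + ∑ l ∈ LL n, F (true :: l) := by
  rw [LL, sum_union, sum_image, sum_image]
  · intro x _ y _ h; exact (List.cons.inj h).2
  · intro x _ y _ h; exact (List.cons.inj h).2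
  · rw [disjoint_left]
    intro x hx hy
    obtain ⟨a, _, rfl⟩ := mem_image.1 hx
    obtain ⟨b, _, h⟩ := mem_image.1 hy
    simp at h

/-- Expansion of a power of a sum of two elements. -/
lemma pow_expand {R : Type} [Ring R] (c : Bool → R) (n : ℕ) :
    (c false + c true) ^ n = ∑ l ∈ LL n, (l.map c).prod := by
  induction n with
  | zero => simp [LL]
  | succ n ih =>
    rw [sum_LL_succ, pow_succ', ih, add_mul, mul_sum, mul_sum]
    simp

/-- Sum of an invariant function over free orbits. -/
lemma free_orbits {Y : Type} [Fintype Y] (σ : Equiv.Perm Y) (p : ℕ)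
    (hp : ∀ y, Function.minimalPeriod σ y = p) (F : Y → ℤ) (hF : ∀ y, F (σ y) = F y) (d : ℤ)
    (hd : ∀ y, d ∣ F y) : d * p ∣ ∑ y, F y := by
  classical
  let H := Subgroup.zpowers σ
  have hFz : ∀ (n : ℤ) (y : Y), F ((σ ^ n) y) = F y := by
    intro n
    induction n using Int.induction_on with
    | zero => intro y; rfl
    | succ n ih => intro y; rw [zpow_add_one, Equiv.Perm.mul_apply, ih, hF]
    | pred n ih =>
      intro y
      rw [zpow_sub_one, Equiv.Perm.mul_apply, ih]
      have := hF (σ⁻¹ y)
      rw [← this]; simp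
  have hFH : ∀ (h : H) (y : Y), F (h • y) = F y := by
    rintro ⟨h, n, rfl⟩ y
    exact hFz n y
  let q : Y → Quotient (MulAction.orbitRel H Y) := fun y => Quotient.mk _ y
  rw [← Finset.sum_fiberwise (s := Finset.univ) (g := q)]
  apply Finset.dvd_sum
  intro c _
  obtain ⟨y0, rfl⟩ := Quotient.exists_rep c
  have h1 : ∑ i with q i = Quotient.mk _ y0, F i = ∑ i with q i = Quotient.mk _ y0, F y0 := by
    apply Finset.sum_congr rfl
    intro y hy
    have hy' : q y = Quotient.mk _ y0 := (mem_filter.1 hy).2
    obtain ⟨h, hh⟩ : y ∈ MulAction.orbit H y0 := Quotient.exact hy'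
    rw [← hh]
    exact hFH h y0
  rw [h1, Finset.sum_const]
  have h2 : (Finset.univ.filter (fun i => q i = Quotient.mk _ y0)).card = p := by
    rw [← hp y0]
    have := MulAction.minimalPeriod_eq_card (a := σ) (b := y0)
    have h3 : Function.minimalPeriod (σ • · : Y → Y) y0 = Function.minimalPeriod σ y0 := rfl
    rw [← h3, this, ← Set.toFinset_card]
    congr 1
    ext y
    simp only [mem_filter, mem_univ, true_and, Set.mem_toFinset]
    exact Quotient.eq
  rw [h2, nsmul_eq_mul]
  obtain ⟨e, he⟩ := hd y0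
  exact ⟨e, by rw [he]; ring⟩

lemma rotate_inv (F : List Bool → ℤ) (hrot : ∀ a l, F (a :: l) = F (l ++ [a])) (l : List Bool)
    (n : ℕ) : F (l.rotate n) = F l := by
  induction n with
  | zero => simp
  | succ n ih =>
    rw [← List.rotate_rotate, ← ih]
    generalize l.rotate n = l'
    cases l' with
    | nil => rfl
    | cons a l' => rw [hrot]; simp

/-- One step of the reduction to periodic words. -/
lemma step (K : ℕ) (F : List Bool → ℤ) (hrot : ∀ a l, F (a :: l) = F (l ++ [a])) (d : ℤ)
    (hd : ∀ l : List Bool, l.length = 2 ^ (K + 1) → (∀ q, l ≠ q ++ q) → d ∣ F l) :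
    d * 2 ^ (K + 1) ∣ ∑ l ∈ LL (2 ^ (K + 1)), F l - ∑ q ∈ LL (2 ^ K), F (q ++ q) := by
  classical
  have hpow : 2 ^ (K + 1) = 2 ^ K + 2 ^ K := by ring
  have hsub : (LL (2 ^ K)).image (fun q => q ++ q) ⊆ LL (2 ^ (K + 1)) := by
    intro l hl
    obtain ⟨q, hq, rfl⟩ := mem_image.1 hl
    rw [mem_LL] at hq ⊢
    simp [hq, hpow]
  have h1 : ∑ q ∈ LL (2 ^ K), F (q ++ q) = ∑ l ∈ (LL (2 ^ K)).image (fun q => q ++ q), F l := by
    rw [sum_image]
    intro x hx y hy h
    rw [mem_coe, mem_LL] at hx hy
    exact (List.append_inj h (by rw [hx, hy])).1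
  rw [h1, ← sum_sdiff hsub, add_sub_cancel_right]
  -- the type of non-doubled lists
  let P : List Bool → Prop := fun l => l.length = 2 ^ (K + 1) ∧ l.rotate (2 ^ K) ≠ l
  have hmem : ∀ l, l ∈ LL (2 ^ (K + 1)) \ (LL (2 ^ K)).image (fun q => q ++ q) ↔ P l := by
    intro l
    rw [mem_sdiff, mem_LL]
    constructor
    · rintro ⟨h2, h3⟩
      refine ⟨h2, fun h4 => h3 ?_⟩
      have hle : 2 ^ K ≤ l.length := by omega
      rw [List.rotate_eq_drop_append_take hle] at h4
      have h5 : l.drop (2 ^ K) = l.take (2 ^ K) := by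
        have h6 : l.drop (2 ^ K) ++ l.take (2 ^ K) = l.take (2 ^ K) ++ l.drop (2 ^ K) := by
          rw [h4, List.take_append_drop]
        refine (List.append_inj h6 ?_).1
        simp; omega
      refine mem_image.2 ⟨l.take (2 ^ K), ?_, ?_⟩
      · rw [mem_LL]; simp; omega
      · nth_rewrite 2 [← h5]; exact List.take_append_drop _ _
    · rintro ⟨h2, h3⟩
      refine ⟨h2, fun h4 => h3 ?_⟩
      obtain ⟨q, hq, rfl⟩ := mem_image.1 h4
      rw [mem_LL] at hq
      have := List.rotate_append_length_eq q q
      rwa [hq] at this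
  have hrl : ∀ (l : List Bool) (n : ℕ), P l → P (l.rotate n) := by
    rintro l n ⟨h2, h3⟩
    refine ⟨by simpa using h2, ?_⟩
    rw [List.rotate_rotate, add_comm, ← List.rotate_rotate]
    intro h4
    exact h3 (List.rotate_injective n h4)
  have : Finite {l : List Bool // P l} :=
    ((List.finite_length_eq Bool (2 ^ (K + 1))).subset (fun l hl => hl.1)).to_subtype
  have := Fintype.ofFinite {l : List Bool // P l}
  let σ : Equiv.Perm {l : List Bool // P l} :=
    { toFun := fun l => ⟨l.1.rotate 1, hrl _ 1 l.2⟩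
      invFun := fun l => ⟨l.1.rotate (2 ^ (K + 1) - 1), hrl _ _ l.2⟩
      left_inv := by
        rintro ⟨l, hl⟩
        apply Subtype.ext
        simp only [List.rotate_rotate]
        have : 0 < 2 ^ (K + 1) := by positivity
        rw [show 1 + (2 ^ (K + 1) - 1) = l.length by rw [hl.1]; omega, List.rotate_length]
      right_inv := by
        rintro ⟨l, hl⟩
        apply Subtype.ext
        simp only [List.rotate_rotate]
        have : 0 < 2 ^ (K + 1) := by positivity
        rw [show (2 ^ (K + 1) - 1) + 1 = l.length by rw [hl.1]; omega, List.rotate_length] }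
  have hσ : ∀ (n : ℕ) (l : {l : List Bool // P l}), (σ^[n] l).1 = l.1.rotate n := by
    intro n
    induction n with
    | zero => intro l; simp
    | succ n ih =>
      intro l
      rw [Function.iterate_succ_apply', ← List.rotate_rotate, ← ih]
      rfl
  have hper : ∀ l, Function.minimalPeriod σ l = 2 ^ (K + 1) := by
    intro l
    have h6 : Function.minimalPeriod σ l ∣ 2 ^ (K + 1) := by
      apply Function.IsPeriodicPt.minimalPeriod_dvd
      apply Subtype.ext
      rw [hσ, ← l.2.1, List.rotate_length]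
    obtain ⟨j, hj, hj2⟩ := (Nat.dvd_prime_pow Nat.prime_two).1 h6
    rcases Nat.lt_or_ge j (K + 1) with hlt | hge
    · exfalso
      apply l.2.2
      have h7 : Function.minimalPeriod σ l ∣ 2 ^ K := by
        rw [hj2]; exact pow_dvd_pow 2 (by omega)
      have h8 : Function.IsPeriodicPt σ (2 ^ K) l :=
        Function.isPeriodicPt_iff_minimalPeriod_dvd.2 h7
      have h9 := congrArg Subtype.val h8
      rwa [hσ] at h9
    · rw [hj2, show j = K + 1 by omega]
  have h4 := free_orbits σ (2 ^ (K + 1)) hper (fun l => F l.1)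
    (fun l => rotate_inv F hrot l.1 1) d (by
      rintro ⟨l, h2, h3⟩
      apply hd l h2
      rintro q rfl
      apply h3
      have hq : q.length = 2 ^ K := by simp at h2; omega
      have := List.rotate_append_length_eq q q
      rwa [hq] at this)
  have h5 : ∑ l ∈ LL (2 ^ (K + 1)) \ (LL (2 ^ K)).image (fun q => q ++ q), F l =
      ∑ l : {l : List Bool // P l}, F l.1 := by
    rw [← Finset.sum_subtype (LL (2 ^ (K + 1)) \ (LL (2 ^ K)).image (fun q => q ++ q)) hmem F]
  rw [h5]
  exact_mod_cast h4

/-- Repetition of a word. -/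
def rep (r : ℕ) (q : List Bool) : List Bool := (List.replicate r q).flatten

@[simp] lemma rep_zero (q : List Bool) : rep 0 q = [] := rfl
@[simp] lemma rep_one (q : List Bool) : rep 1 q = q := by simp [rep]
lemma rep_succ (r : ℕ) (q : List Bool) : rep (r + 1) q = q ++ rep r q := by
  simp [rep, List.replicate_succ]
lemma rep_add (r s : ℕ) (q : List Bool) : rep (r + s) q = rep r q ++ rep s q := by
  induction r with
  | zero => simp
  | succ r ih => rw [Nat.succ_add, rep_succ, ih, rep_succ, List.append_assoc]
lemma rep_length (r : ℕ) (q : List Bool) : (rep r q).length = r * q.length := by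
  simp [rep]
lemma rep_count (b : Bool) (r : ℕ) (q : List Bool) : (rep r q).count b = r * q.count b := by
  induction r with
  | zero => simp
  | succ r ih => rw [rep_succ, List.count_append, ih]; ring

lemma double_rot (F : List Bool → ℤ) (hrot : ∀ a l, F (a :: l) = F (l ++ [a])) :
    ∀ a l, F ((a :: l) ++ (a :: l)) = F ((l ++ [a]) ++ (l ++ [a])) := by
  intro a l
  rw [List.cons_append, hrot]
  congr 1
  simp

lemma redj (j : ℕ) : ∀ (K : ℕ) (F : List Bool → ℤ), (∀ a l, F (a :: l) = F (l ++ [a])) →
    (2 : ℤ) ^ (j + 1) ∣ ∑ l ∈ LL (2 ^ (K + j)), F l - ∑ q ∈ LL (2 ^ j), F (rep (2 ^ K) q) := by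
  intro K
  induction K with
  | zero => intro F _; simp
  | succ K ih =>
    intro F hrot
    have h1 := step (K + j) F hrot 1 (fun l _ _ => one_dvd _)
    have h2 := ih (fun l => F (l ++ l)) (double_rot F hrot)
    have h3 : (2 : ℤ) ^ (j + 1) ∣ 1 * 2 ^ (K + j + 1) := by
      rw [one_mul]; exact pow_dvd_pow 2 (by omega)
    have h4 := dvd_add (h3.trans h1) h2
    rw [show K + 1 + j = K + j + 1 by ring]
    have h5 : ∀ q : List Bool, rep (2 ^ K) q ++ rep (2 ^ K) q = rep (2 ^ (K + 1)) q := by
      intro q; rw [← rep_add]; congr 1; ring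
    simp only [h5] at h4
    rwa [sub_add_sub_cancel] at h4

lemma reduce : ∀ (K M : ℕ) (F : List Bool → ℤ), (∀ a l, F (a :: l) = F (l ++ [a])) →
    (∀ j, 1 ≤ j → j ≤ K → ∀ q : List Bool, q.length = 2 ^ j → false ∈ q → true ∈ q →
      (2 : ℤ) ^ (M - j) ∣ F (rep (2 ^ (K - j)) q)) →
    (2 : ℤ) ^ M ∣ ∑ l ∈ LL (2 ^ K), F l - (F (rep (2 ^ K) [false]) + F (rep (2 ^ K) [true])) := by
  intro K
  induction K with
  | zero =>
    intro M F _ _
    rw [pow_zero, show (1 : ℕ) = 0 + 1 from rfl, sum_LL_succ, sum_LL_zero, sum_LL_zero]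
    simp
  | succ K ih =>
    intro M F hrot hd
    have h1 := step K F hrot (2 ^ (M - (K + 1))) (by
      intro l hl hq
      have h := hd (K + 1) (by omega) le_rfl l hl
      simp only [Nat.sub_self, pow_zero, rep_one] at h
      apply h
      · by_contra hf
        have h2 : l = List.replicate (2 ^ (K + 1)) true := by
          rw [← hl]
          apply List.eq_replicate_of_mem
          intro b hb
          cases b
          · exact absurd hb hf
          · rfl
        apply hq (List.replicate (2 ^ K) true)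
        rw [h2, ← List.replicate_add]
        congr 1; ring
      · by_contra hf
        have h2 : l = List.replicate (2 ^ (K + 1)) false := by
          rw [← hl]
          apply List.eq_replicate_of_mem
          intro b hb
          cases b
          · rfl
          · exact absurd hb hf
        apply hq (List.replicate (2 ^ K) false)
        rw [h2, ← List.replicate_add]
        congr 1; ring)
    have h2 := ih M (fun l => F (l ++ l)) (double_rot F hrot) (by
      intro j hj hjK q hq hf ht
      have := hd j hj (by omega) q hq hf ht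
      rw [← rep_add, ← two_mul, ← pow_succ', show K - j + 1 = K + 1 - j by omega]
      exact this)
    have h3 : (2 : ℤ) ^ M ∣ 2 ^ (M - (K + 1)) * 2 ^ (K + 1) := by
      rw [← pow_add]; exact pow_dvd_pow 2 (by omega)
    have h4 := dvd_add (h3.trans h1) h2
    have h5 : ∀ q : List Bool, rep (2 ^ K) q ++ rep (2 ^ K) q = rep (2 ^ (K + 1)) q := by
      intro q; rw [← rep_add]; congr 1; ring
    simp only [h5] at h4
    rwa [sub_add_sub_cancel] at h4

end Pool.Agent.SM2e
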