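import Pool.Agent.SM2e.Grp
import Pool.Agent.SM2e.Orb

set_option autoImplicit false

namespace Pool.Agent.SM2e

open Finset

def β (b : Bool) : Fin 4 := if b then 2 else 1
def sy (b : Bool) : Fin 3 := if b then 1 else 2

lemma β_ne (b : Bool) : β b ≠ 0 := by cases b <;> decide
lemma β_inj {b c : Bool} : β b = β c ↔ b = c := by revert b c; decide
lemma live_sy (s t : Bool) : live (sy s) (β t) = (s != t) := by revert s t; decide
lemma live_z (t : Bool) : live 0 (β t) = true := by revert t; decide

def so : Option Bool → Fin 3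
  | none => 0
  | some t => sy t

def PB (ω : ℕ → Fin 3) (l : List Bool) : PP := Pw ω (l.map β)

/-- The sequence starts with the symbols coded by `η`, followed by `k`. -/
def Pre : List Bool → Fin 3 → (ℕ → Fin 3) → Prop
  | [], k, ω => ω 0 = k
  | s :: η, k, ω => ω 0 = sy s ∧ Pre η k (sh ω)

lemma Pre_agree : ∀ (η : List Bool) (k k' : Fin 3) (ω ρ : ℕ → Fin 3), Pre η k ω → Pre η k' ρ →
    ∀ i < η.length, ω i = ρ i
  | [], _, _, _, _, _, _, i, hi => by simp at hi
  | s :: η, k, k', ω, ρ, h, h', i, hi => by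
    cases i with
    | zero => rw [h.1, h'.1]
    | succ i => exact Pre_agree η k k' (sh ω) (sh ρ) h.2 h'.2 i (by simpa using hi)

/-- The critical words. -/
def CR (o : Option Bool) : List Bool → Finset (List Bool)
  | [] => match o with
    | none => ∅
    | some t => {List.replicate 4 t}
  | s :: η => (CR o η).image (fun w => zipL w (List.replicate w.length (!s))) ∪
      (CR o η).image (fun w => zipL (List.replicate w.length (!s)) w)

lemma mem_CR_cons (o : Option Bool) (s : Bool) (η : List Bool) (u : List Bool) :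
    u ∈ CR o (s :: η) ↔ ∃ w ∈ CR o η, u = zipL w (List.replicate w.length (!s)) ∨
      u = zipL (List.replicate w.length (!s)) w := by
  simp only [CR, mem_union, mem_image]
  constructor
  · rintro (⟨w, hw, rfl⟩ | ⟨w, hw, rfl⟩)
    · exact ⟨w, hw, Or.inl rfl⟩
    · exact ⟨w, hw, Or.inr rfl⟩
  · rintro ⟨w, hw, rfl | rfl⟩
    · exact Or.inl ⟨w, hw, rfl⟩
    · exact Or.inr ⟨w, hw, rfl⟩

lemma CR_none : ∀ η : List Bool, CR none η = ∅
  | [] => rfl
  | s :: η => by rw [CR, CR_none η]; rfl

lemma CR_length (o : Option Bool) : ∀ (η : List Bool) (w : List Bool), w ∈ CR o η →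
    w.length = 2 ^ (η.length + 2)
  | [], w, h => by
    cases o with
    | none => simp [CR] at h
    | some t => simp only [CR, mem_singleton] at h; rw [h]; simp
  | s :: η, w, h => by
    obtain ⟨w', hw', h2⟩ := (mem_CR_cons o s η w).1 h
    have ih := CR_length o η w' hw'
    rcases h2 with rfl | rfl
    · rw [zipL_length _ _ (by simp), ih, List.length_cons]; ring
    · rw [zipL_length _ _ (by simp), List.length_replicate, ih, List.length_cons]; ring

/-! ### base case -/

lemma base4 {ω : ℕ → Fin 3} (hω : ND ω) (x y : Fin 4) (hx : x ≠ 0) (e f : Bool) :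
    V ω x * (if e then A else 1) * (V ω y * (if f then A else 1)) = 1 ↔
      e = false ∧ f = false ∧ x = y := by
  have hkl : kl x y = 0 ↔ x = y := by revert x y; decide
  cases e with
  | false =>
    cases f with
    | false =>
      simp only [Bool.false_eq_true, if_false, mul_one, true_and]
      rw [V_mul, V_eq_one hω, hkl]
    | true =>
      refine iff_of_false ?_ (by simp)
      apply Par_ne_one
      have := ((Par_V ω x).mul Par_one).mul ((Par_V ω y).mul Par_A)
      simpa using this
  | true =>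
    refine iff_of_false ?_ (by simp)
    cases f with
    | false =>
      apply Par_ne_one
      have := ((Par_V ω x).mul Par_A).mul ((Par_V ω y).mul Par_one)
      simpa using this
    | true =>
      intro h
      simp only [if_true] at h
      have h2 : A * (V ω x * A * (V ω y * A)) * A = Pw ω [x, y] := by
        simp [Pw, mul_assoc]
      rw [h, mul_one, A_mul_A] at h2
      exact hx ((two_word hω x y).1 h2.symm).1

lemma base4' {ω : ℕ → Fin 3} (hω : ND ω) (x y : Fin 4) (hx : x ≠ 0) (e f : Bool) :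
    (if e then A else 1) * V ω x * ((if f then A else 1) * V ω y) = 1 ↔
      e = false ∧ f = false ∧ x = y := by
  have hkl : kl x y = 0 ↔ x = y := by revert x y; decide
  cases e with
  | false =>
    cases f with
    | false =>
      simp only [Bool.false_eq_true, if_false, one_mul, true_and]
      rw [V_mul, V_eq_one hω, hkl]
    | true =>
      refine iff_of_false ?_ (by simp)
      apply Par_ne_one
      have := (Par_one.mul (Par_V ω x)).mul (Par_A.mul (Par_V ω y))
      simpa using this
  | true =>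
    refine iff_of_false ?_ (by simp)
    cases f with
    | false =>
      apply Par_ne_one
      have := (Par_A.mul (Par_V ω x)).mul (Par_one.mul (Par_V ω y))
      simpa using this
    | true =>
      intro h
      simp only [if_true] at h
      have h2 : (A * V ω x * (A * V ω y)) = Pw ω [x, y] := by
        simp [Pw, mul_assoc]
      rw [h] at h2
      exact hx ((two_word hω x y).1 h2.symm).1

lemma base_word {ω : ℕ → Fin 3} (hω : ND ω) (p q r s : Bool) :
    PB ω [p, q, r, s] = 1 ↔ live (ω 0) (β p) = false ∧ live (ω 0) (β r) = false ∧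
      live (ω 0) (β q) = false ∧ live (ω 0) (β s) = false ∧ p = r ∧ q = s := by
  have h := Pw_zipL_one ω [β p, β r] [β q, β s] rfl
  have h1 : PB ω [p, q, r, s] = Pw ω (zipL [β p, β r] [β q, β s]) := rfl
  rw [h1, h]
  have h2 : S0 ω [β p, β r] [β q, β s] = V (sh ω) (β p) * (if live (ω 0) (β q) then A else 1) *
      (V (sh ω) (β r) * (if live (ω 0) (β s) then A else 1)) := by
    simp [S0, al]
  have h3 : S1 ω [β p, β r] [β q, β s] = (if live (ω 0) (β p) then A else 1) * V (sh ω) (β q) *
      ((if live (ω 0) (β r) then A else 1) * V (sh ω) (β s)) := by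
    simp [S1, al]
  rw [h2, h3, base4 hω.sh _ _ (β_ne p), base4' hω.sh _ _ (β_ne q), β_inj, β_inj]
  tauto

/-! ### inductive step -/

lemma prod_swap {G α : Type} [Group G] (x : G) (g : α → G) (l : List α) :
    (l.map (fun y => x * g y)).prod = 1 ↔ (l.map (fun y => g y * x)).prod = 1 := by
  have h : ∀ l : List α, (l.map (fun y => x * g y)).prod * x = x * (l.map (fun y => g y * x)).prod := by
    intro l
    induction l with
    | nil => simp
    | cons b l ih => simp only [List.map_cons, List.prod_cons, mul_assoc, ih]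
  have h1 := h l
  constructor
  · intro h2
    rw [h2, one_mul] at h1
    exact (mul_eq_left.1 h1.symm)
  · intro h2
    rw [h2, mul_one] at h1
    exact (mul_eq_right.1 h1)

lemma S0_all (ω : ℕ → Fin 3) (s : Bool) (h0 : ω 0 = sy s) (l : List Bool) :
    S0 ω (l.map β) ((List.replicate l.length (!s)).map β) = 1 ↔ PB (sh ω) l = 1 := by
  have h1 : S0 ω (l.map β) ((List.replicate l.length (!s)).map β) =
      (l.map (fun y => V (sh ω) (β y) * A)).prod := by
    induction l with
    | nil => rfl
    | cons b l ih =>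
      have h2 : al (ω 0) (β (!s)) = A := by rw [h0, al, live_sy]; simp
      have h3 : S0 ω ((b :: l).map β) ((List.replicate (b :: l).length (!s)).map β) =
          V (sh ω) (β b) * al (ω 0) (β (!s)) * S0 ω (l.map β) ((List.replicate l.length (!s)).map β) := by
        simp [S0, List.replicate_succ]
      rw [h3, ih, h2]; simp
  rw [h1, ← prod_swap]
  simp [PB, Pw, Function.comp_def]

lemma S1_all (ω : ℕ → Fin 3) (s : Bool) (h0 : ω 0 = sy s) (l : List Bool) :
    S1 ω ((List.replicate l.length (!s)).map β) (l.map β) = PB (sh ω) l := by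
  induction l with
  | nil => rfl
  | cons b l ih =>
    have h2 : al (ω 0) (β (!s)) = A := by rw [h0, al, live_sy]; simp
    have h3 : S1 ω ((List.replicate (b :: l).length (!s)).map β) ((b :: l).map β) =
        al (ω 0) (β (!s)) * V (sh ω) (β b) * S1 ω ((List.replicate l.length (!s)).map β) (l.map β) := by
      simp [S1, List.replicate_succ]
    rw [h3, ih, h2]; simp [PB, Pw]

/-- the other section of a critical word -/
def EE (ω : ℕ → Fin 3) (s : Bool) (w : List Bool) : PP :=
  (w.map (fun x => al (sy s) (β x) * V ω (β (!s)))).prod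

lemma S1_EE (ω : ℕ → Fin 3) (s : Bool) (h0 : ω 0 = sy s) (l : List Bool) :
    S1 ω (l.map β) ((List.replicate l.length (!s)).map β) = EE (sh ω) s l := by
  induction l with
  | nil => rfl
  | cons b l ih =>
    have h3 : S1 ω ((b :: l).map β) ((List.replicate (b :: l).length (!s)).map β) =
        al (ω 0) (β b) * V (sh ω) (β (!s)) * S1 ω (l.map β) ((List.replicate l.length (!s)).map β) := by
      simp [S1, List.replicate_succ]
    rw [h3, ih, h0]; simp [EE]

lemma S0_EE (ω : ℕ → Fin 3) (s : Bool) (h0 : ω 0 = sy s) (l : List Bool) :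
    S0 ω ((List.replicate l.length (!s)).map β) (l.map β) = 1 ↔ EE (sh ω) s l = 1 := by
  have h1 : S0 ω ((List.replicate l.length (!s)).map β) (l.map β) =
      (l.map (fun x => V (sh ω) (β (!s)) * al (sy s) (β x))).prod := by
    induction l with
    | nil => rfl
    | cons b l ih =>
      have h3 : S0 ω ((List.replicate (b :: l).length (!s)).map β) ((b :: l).map β) =
          V (sh ω) (β (!s)) * al (ω 0) (β b) * S0 ω ((List.replicate l.length (!s)).map β) (l.map β) := by
        simp [S0, List.replicate_succ]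
      rw [h3, ih, h0]; simp
  rw [h1, prod_swap]
  rfl

lemma countP_lt (s : Bool) (l : List Bool) (h : l ≠ List.replicate l.length (!s)) :
    (l.map β).countP (live (sy s)) < l.length := by
  rw [List.countP_map]
  apply lt_of_le_of_ne List.countP_le_length
  intro h1
  apply h
  rw [List.countP_eq_length] at h1
  apply List.eq_replicate_of_mem
  intro b hb
  have := h1 b hb
  simp only [Function.comp_apply, live_sy] at this
  revert this; cases s <;> cases b <;> decide

lemma prop1 {P P' S S' C C' R L : Prop} (ih : (P ↔ P' ∨ C) ∧ (C → ¬ P')) (e1 : S ↔ S')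
    (e2 : C → S) (hR : R) (hL : ¬ L) : (P ∧ S ↔ (P' ∧ S') ∨ ((C ∧ R) ∨ (C' ∧ L))) ∧
      (((C ∧ R) ∨ (C' ∧ L)) → ¬ (P' ∧ S')) := by tauto

lemma prop2 {P P' S S' C C' R L : Prop} (ih : (P ↔ P' ∨ C') ∧ (C' → ¬ P')) (e1 : S ↔ S')
    (e2 : C' → S) (hR : ¬ R) (hL : L) : (S ∧ P ↔ (S' ∧ P') ∨ ((C ∧ R) ∨ (C' ∧ L))) ∧
      (((C ∧ R) ∨ (C' ∧ L)) → ¬ (S' ∧ P')) := by tauto

lemma prop3 {P P' S S' C C' R L : Prop} (e1 : S ↔ S') (e2 : P ↔ P') (hR : ¬ R) (hL : ¬ L) :
    (P ∧ S ↔ (P' ∧ S') ∨ ((C ∧ R) ∨ (C' ∧ L))) ∧ (((C ∧ R) ∨ (C' ∧ L)) → ¬ (P' ∧ S')) := by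
  tauto

lemma crit_step (o : Option Bool) (s : Bool) (η : List Bool) (ω ρ : ℕ → Fin 3)
    (hω : ND ω) (hρ : ND ρ) (h0 : ω 0 = sy s) (h0' : ρ 0 = sy s)
    (hag : ∀ i < η.length, sh ω i = sh ρ i)
    (hE : ∀ w ∈ CR o η, EE (sh ω) s w = 1)
    (ih : ∀ u : List Bool, u.length = 2 ^ (η.length + 2) →
      ((PB (sh ω) u = 1 ↔ (PB (sh ρ) u = 1 ∨ u ∈ CR o η)) ∧ (u ∈ CR o η → PB (sh ρ) u ≠ 1)))
    (u : List Bool) (hu : u.length = 2 ^ (η.length + 3)) :
    ((PB ω u = 1 ↔ (PB ρ u = 1 ∨ u ∈ CR o (s :: η))) ∧ (u ∈ CR o (s :: η) → PB ρ u ≠ 1)) := by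
  obtain ⟨l, r, hl, hr, rfl⟩ := exists_zipL (2 ^ (η.length + 2)) u (by rw [hu]; ring)
  have hW : ∀ ω : ℕ → Fin 3, PB ω (zipL l r) = 1 ↔
      S0 ω (l.map β) (r.map β) = 1 ∧ S1 ω (l.map β) (r.map β) = 1 := by
    intro ω
    rw [PB, zipL_map]
    exact Pw_zipL_one ω _ _ (by simp; omega)
  simp only [ne_eq]
  rw [hW ω, hW ρ]
  have hS0 : r ≠ List.replicate r.length (!s) →
      (S0 ω (l.map β) (r.map β) = 1 ↔ S0 ρ (l.map β) (r.map β) = 1) := by
    intro h
    have h1 := NS_S0 (ω := ω) (ω' := ρ) (by rw [h0, h0']) (l.map β) (r.map β) (by simp; omega)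
    apply NS_indep η.length (sh ω) (sh ρ) _ _ _ hag hω.sh hρ.sh h1
    rw [h0, ← hr]
    exact countP_lt s r h
  have hS1 : l ≠ List.replicate l.length (!s) →
      (S1 ω (l.map β) (r.map β) = 1 ↔ S1 ρ (l.map β) (r.map β) = 1) := by
    intro h
    have h1 := NS_S1 (ω := ω) (ω' := ρ) (by rw [h0, h0']) (l.map β) (r.map β) (by simp; omega)
    apply NS_indep η.length (sh ω) (sh ρ) _ _ _ hag hω.sh hρ.sh h1
    rw [h0, ← hl]
    exact countP_lt s l h
  have hCR : zipL l r ∈ CR o (s :: η) ↔ (l ∈ CR o η ∧ r = List.replicate r.length (!s)) ∨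
      (r ∈ CR o η ∧ l = List.replicate l.length (!s)) := by
    rw [mem_CR_cons]
    constructor
    · rintro ⟨w, hw, h | h⟩
      · obtain ⟨rfl, rfl⟩ := zipL_inj _ _ _ _ (by omega) (by simp) h
        exact Or.inl ⟨hw, by simp⟩
      · obtain ⟨rfl, rfl⟩ := zipL_inj _ _ _ _ (by omega) (by simp) h
        exact Or.inr ⟨hw, by simp⟩
    · rintro (⟨h1, h2⟩ | ⟨h1, h2⟩)
      · refine ⟨l, h1, Or.inl ?_⟩
        rw [hl, ← hr, ← h2]
      · refine ⟨r, h1, Or.inr ?_⟩
        rw [hr, ← hl, ← h2]
  by_cases hR : r = List.replicate r.length (!s)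
  · have hr' : r = List.replicate l.length (!s) := by rw [hl, ← hr]; exact hR
    have e0 : ∀ ω : ℕ → Fin 3, ω 0 = sy s → (S0 ω (l.map β) (r.map β) = 1 ↔ PB (sh ω) l = 1) := by
      intro ω h0; rw [hr']; exact S0_all ω s h0 l
    rw [e0 ω h0, e0 ρ h0']
    by_cases hL : l = List.replicate l.length (!s)
    · have hlr : l = r := by rw [hL, hr']
      have e1 : ∀ ω : ℕ → Fin 3, ω 0 = sy s → (S1 ω (l.map β) (r.map β) = 1 ↔ PB (sh ω) l = 1) := by
        intro ω h0
        have := S1_all ω s h0 l
        rw [← hL] at this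
        rw [← hlr, this]
      rw [e1 ω h0, e1 ρ h0', hCR, ← hlr]
      have := ih l hl
      have h3 : ((l ∈ CR o η ∧ l = List.replicate l.length (!s)) ∨
        (l ∈ CR o η ∧ l = List.replicate l.length (!s))) ↔ l ∈ CR o η := by
        constructor
        · rintro (h | h) <;> exact h.1
        · intro h; exact Or.inl ⟨h, hL⟩
      rw [h3, and_self, and_self]
      exact this
    · have e1 := hS1 hL
      have e2 : ∀ h : l ∈ CR o η, S1 ω (l.map β) (r.map β) = 1 := by
        intro h
        rw [hr', S1_EE ω s h0]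
        exact hE l h
      rw [hCR]
      exact prop1 (ih l hl) e1 e2 hR hL
  · by_cases hL : l = List.replicate l.length (!s)
    · have hl' : l = List.replicate r.length (!s) := by rw [hr, ← hl]; exact hL
      have e1 : ∀ ω : ℕ → Fin 3, ω 0 = sy s → (S1 ω (l.map β) (r.map β) = 1 ↔ PB (sh ω) r = 1) := by
        intro ω h0; rw [hl', S1_all ω s h0]
      rw [e1 ω h0, e1 ρ h0']
      have e2 := hS0 hR
      have e3 : ∀ h : r ∈ CR o η, S0 ω (l.map β) (r.map β) = 1 := by
        intro h
        rw [hl', S0_EE ω s h0]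
        exact hE r h
      rw [hCR]
      exact prop2 (ih r hr) e2 e3 hR hL
    · have e1 := hS1 hL
      have e2 := hS0 hR
      rw [hCR]
      exact prop3 e1 e2 hR hL

end Pool.Agent.SM2e
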