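import Pool.Agent.SM2e.Crit

set_option autoImplicit false

namespace Pool.Agent.SM2e

open Finset

/-! ### structure of critical words -/

lemma zipL_append {α : Type} : ∀ (l r l' r' : List α), l.length = r.length →
    zipL (l ++ l') (r ++ r') = zipL l r ++ zipL l' r'
  | [], [], _, _, _ => rfl
  | a :: l, b :: r, l', r', h => by
    simp [zipL_append l r l' r' (by simpa using h)]
  | [], b :: r, _, _, h => by simp at h
  | a :: l, [], _, _, h => by simp at h

lemma zipL_rep (n : ℕ) (q z : List Bool) (h : q.length = z.length) :
    zipL (rep n q) (rep n z) = rep n (zipL q z) := by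
  induction n with
  | zero => rfl
  | succ n ih => rw [rep_succ, rep_succ, rep_succ, zipL_append _ _ _ _ h, ih]

lemma rep_replicate (n m : ℕ) (b : Bool) : rep n (List.replicate m b) = List.replicate (n * m) b := by
  induction n with
  | zero => simp
  | succ n ih => rw [rep_succ, ih, ← List.replicate_add]; congr 1; ring

lemma rep_rep (n m : ℕ) (q : List Bool) : rep n (rep m q) = rep (n * m) q := by
  induction n with
  | zero => simp
  | succ n ih => rw [rep_succ, ih, ← rep_add]; congr 1; ring

lemma countz (b : Bool) : ∀ (l r : List Bool), l.length = r.length →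
    (zipL l r).count b = l.count b + r.count b
  | [], [], _ => rfl
  | s :: l, t :: r, h => by
    have ih := countz b l r (by simpa using h)
    rw [zipL_cons, List.count_cons, List.count_cons, ih, List.count_cons, List.count_cons]; ring
  | [], b :: r, h => by simp at h
  | a :: l, [], h => by simp at h

lemma zipL_const (m : ℕ) (a b : Bool) :
    zipL (List.replicate m a) (List.replicate m b) = rep m [a, b] := by
  induction m with
  | zero => rfl
  | succ m ih => rw [List.replicate_succ, List.replicate_succ, zipL_cons, ih, rep_succ]; rfl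

def Good (t : Bool) (η w : List Bool) : Prop :=
  (∃ q r, w = rep (2 * r) q ∧ Even q.length ∧ Odd (q.count true)) ∨
    (w = List.replicate (2 ^ (η.length + 2)) t ∧ η = List.replicate η.length (!t))

lemma CR_good (t : Bool) : ∀ (η w : List Bool), w ∈ CR (some t) η → Good t η w
  | [], w, h => by
    simp only [CR, mem_singleton] at h
    exact Or.inr ⟨by rw [h]; rfl, rfl⟩
  | s :: η, w, h => by
    obtain ⟨w', hw', h2⟩ := (mem_CR_cons _ s η w).1 h
    have hlen := CR_length _ η w' hw'
    rcases CR_good t η w' hw' with ⟨q, r, hq, he, ho⟩ | ⟨hq, hη⟩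
    · left
      have hz : List.replicate w'.length (!s) = rep (2 * r) (List.replicate q.length (!s)) := by
        rw [rep_replicate, hq, rep_length]
      rcases h2 with rfl | rfl
      · refine ⟨zipL q (List.replicate q.length (!s)), r, ?_, ?_, ?_⟩
        · rw [hz, hq, zipL_rep _ _ _ (by simp)]
        · rw [zipL_length _ _ (by simp)]; exact even_two_mul _
        · rw [countz _ _ _ (by simp)]
          apply ho.add_even
          rw [List.count_replicate]
          split_ifs
          · exact he
          · exact Even.zero
      · refine ⟨zipL (List.replicate q.length (!s)) q, r, ?_, ?_, ?_⟩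
        · rw [hz, hq, zipL_rep _ _ _ (by simp)]
        · rw [zipL_length _ _ (by simp)]; exact even_two_mul _
        · rw [countz _ _ _ (by simp)]
          apply Even.add_odd _ ho
          rw [List.count_replicate]
          split_ifs
          · exact he
          · exact Even.zero
    · have hL : 2 ^ (η.length + 2) = 2 * 2 ^ (η.length + 1) := by ring
      by_cases hs : s = t
      · subst hs
        left
        rcases h2 with rfl | rfl
        · refine ⟨[s, !s], 2 ^ (η.length + 1), ?_, by simp, by cases s <;> simp⟩
          rw [hq, List.length_replicate, zipL_const, hL]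
        · refine ⟨[!s, s], 2 ^ (η.length + 1), ?_, by simp, by cases s <;> simp⟩
          rw [hq, List.length_replicate, zipL_const, hL]
      · have hs' : (!s) = t := by revert hs; cases s <;> cases t <;> simp
        have hs2 : s = !t := by revert hs; cases s <;> cases t <;> simp
        right
        constructor
        · have h3 : w = rep (2 ^ (η.length + 2)) [t, t] := by
            rcases h2 with rfl | rfl
            · rw [hs', hq, List.length_replicate, zipL_const]
            · rw [hs', hq, List.length_replicate, zipL_const]
          rw [h3, show [t, t] = List.replicate 2 t from rfl, rep_replicate]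
          congr 1
        · rw [List.length_cons, List.replicate_succ, ← hs2, hs2, ← hη]

lemma CR_even (t : Bool) (b : Bool) (η w : List Bool) (h : w ∈ CR (some t) η) :
    Even (w.count b) := by
  rcases CR_good t η w h with ⟨q, r, hq, _, _⟩ | ⟨hq, _⟩
  · rw [hq, rep_count, mul_assoc]; exact even_two_mul _
  · rw [hq, List.count_replicate]
    split_ifs
    · exact (Nat.even_pow.2 ⟨even_two, by omega⟩)
    · exact Even.zero

/-! ### dihedral computations -/

lemma dihedral (B : PP) (hB : B * B = 1) (f : Bool → PP) (s : Bool) (hs : f s = 1) (hns : f (!s) = A)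
    (q : List Bool) :
    ∃ k : ℤ, (q.map (fun x => f x * B)).prod = (A * B) ^ k * (if Odd (q.count s) then B else 1) := by
  have hRB : ∀ k : ℤ, B * (A * B) ^ k = (A * B) ^ (-k) * B := by
    intro k
    have hi : (A * B)⁻¹ = B * A := by
      rw [mul_inv_rev, inv_eq_of_mul_eq_one_left hB, inv_eq_of_mul_eq_one_left A_mul_A]
    have h1 : B * (A * B) = (A * B)⁻¹ * B := by rw [hi, mul_assoc]
    have h2 : SemiconjBy B (A * B) (A * B)⁻¹ := h1
    have h3 := h2.zpow_right k
    rw [inv_zpow, ← zpow_neg] at h3
    exact h3
  induction q with
  | nil => exact ⟨0, by simp⟩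
  | cons x q ih =>
    obtain ⟨k, hk⟩ := ih
    by_cases hx : x = s
    · subst hx
      rw [List.map_cons, List.prod_cons, hk, hs, one_mul, List.count_cons_self, ← mul_assoc, hRB,
        mul_assoc]
      refine ⟨-k, ?_⟩
      congr 1
      by_cases ho : Odd (q.count x)
      · rw [if_pos ho, hB, if_neg]
        rw [Nat.not_odd_iff_even]; exact ho.add_one
      · rw [if_neg ho, mul_one, if_pos]
        exact (Nat.not_odd_iff_even.1 ho).add_one
    · have hx' : x = !s := by revert hx; cases x <;> cases s <;> simp
      rw [List.map_cons, List.prod_cons, hk, hx', hns, List.count_cons_of_ne (by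
        cases s <;> simp), ← mul_assoc, ← zpow_one_add]
      exact ⟨1 + k, rfl⟩

lemma dihedral_sq (B : PP) (hB : B * B = 1) (f : Bool → PP) (s : Bool) (hs : f s = 1)
    (hns : f (!s) = A) (q : List Bool) (ho : Odd (q.count s)) :
    (q.map (fun x => f x * B)).prod * (q.map (fun x => f x * B)).prod = 1 := by
  obtain ⟨k, hk⟩ := dihedral B hB f s hs hns q
  rw [hk, if_pos ho]
  have hi : (A * B)⁻¹ = B * A := by
    rw [mul_inv_rev, inv_eq_of_mul_eq_one_left hB, inv_eq_of_mul_eq_one_left A_mul_A]
  have h1 : B * (A * B) = (A * B)⁻¹ * B := by rw [hi, mul_assoc]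
  have h2 : SemiconjBy B (A * B) (A * B)⁻¹ := h1
  have h3 := h2.zpow_right k
  rw [inv_zpow] at h3
  have h4 : B * (A * B) ^ k = ((A * B) ^ k)⁻¹ * B := h3
  calc (A * B) ^ k * B * ((A * B) ^ k * B) = (A * B) ^ k * (B * (A * B) ^ k) * B := by
        simp only [mul_assoc]
    _ = 1 := by rw [h4, ← mul_assoc, mul_inv_cancel, one_mul, hB]

lemma av_sq (ω : ℕ → Fin 3) (x : Fin 4) :
    (A * V ω x) ^ 2 = Φ (V (sh ω) x * al (ω 0) x, al (ω 0) x * V (sh ω) x) := by
  have h := Pw_zipL ω [x] [x] rfl
  simp only [zipL_cons, zipL_nil, S0, S1, List.zipWith_cons_cons, List.zipWith_nil_left,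
    List.prod_cons, List.prod_nil, mul_one] at h
  rw [← h, pow_two]; simp [Pw]

lemma pow_comm_one {G : Type} [Group G] (x y : G) (n : ℕ) : (x * y) ^ n = 1 ↔ (y * x) ^ n = 1 := by
  have h : ∀ x y : G, (x * y) ^ n = 1 → (y * x) ^ n = 1 := by
    intro x y h
    have h1 : y * x = x⁻¹ * (x * y) * x := by group
    rw [h1]
    have h2 : (x⁻¹ * (x * y) * x) ^ n = x⁻¹ * (x * y) ^ n * x := by
      have := conj_pow (a := x⁻¹) (b := x * y) (i := n)
      rwa [inv_inv] at this
    rw [h2, h]; group
  exact ⟨h x y, h y x⟩

lemma ord_pow (t : Bool) : ∀ (j : ℕ) (ω : ℕ → Fin 3), Pre (List.replicate j (!t)) (sy t) ω →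
    (A * V ω (β t)) ^ (2 ^ (j + 2)) = 1
  | 0, ω, h => by
    have h0 : ω 0 = sy t := h
    have h1 : al (ω 0) (β t) = 1 := by rw [h0, al, live_sy]; simp
    rw [show 2 ^ (0 + 2) = 2 * 2 from rfl, pow_mul, av_sq, h1, mul_one, one_mul, ← map_pow]
    have : ((V (sh ω) (β t), V (sh ω) (β t)) : PP × PP) ^ 2 = 1 := by
      rw [pow_two, Prod.mk_mul_mk, V_mul_self]; rfl
    rw [this, map_one]
  | j + 1, ω, h => by
    have h0 : ω 0 = sy (!t) := h.1
    have h1 : al (ω 0) (β t) = A := by rw [h0, al, live_sy]; simp
    have ih := ord_pow t j (sh ω) h.2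
    rw [show 2 ^ (j + 1 + 2) = 2 * 2 ^ (j + 2) by ring, pow_mul, av_sq, h1, ← map_pow]
    have : ((V (sh ω) (β t) * A, A * V (sh ω) (β t)) : PP × PP) ^ (2 ^ (j + 2)) = 1 := by
      rw [Prod.pow_mk, ih, (pow_comm_one _ _ _).1 ih]; rfl
    rw [this, map_one]

lemma prod_rep (f : Bool → PP) (n : ℕ) (q : List Bool) :
    ((rep n q).map f).prod = ((q.map f).prod) ^ n := by
  induction n with
  | zero => simp
  | succ n ih => rw [rep_succ, List.map_append, List.prod_append, ih, pow_succ']

lemma prod_replicate_map (f : Bool → PP) (n : ℕ) (b : Bool) :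
    ((List.replicate n b).map f).prod = (f b) ^ n := by
  simp

lemma EE_zipL (ω : ℕ → Fin 3) (s c : Bool) : ∀ w : List Bool,
    EE ω s (zipL w (List.replicate w.length c)) =
      (w.map (fun x => al (sy s) (β x) * V ω (β (!s)) * (al (sy s) (β c) * V ω (β (!s))))).prod
  | [] => rfl
  | x :: w => by
    have ih := EE_zipL ω s c w
    rw [List.length_cons, List.replicate_succ, zipL_cons, List.map_cons, List.prod_cons, ← ih]
    simp [EE, mul_assoc]

lemma EE_zipL' (ω : ℕ → Fin 3) (s c : Bool) : ∀ w : List Bool,
    EE ω s (zipL (List.replicate w.length c) w) =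
      (w.map (fun x => (al (sy s) (β c) * V ω (β (!s))) * (al (sy s) (β x) * V ω (β (!s))))).prod
  | [] => rfl
  | x :: w => by
    have ih := EE_zipL' ω s c w
    rw [List.length_cons, List.replicate_succ, zipL_cons, List.map_cons, List.prod_cons, ← ih]
    simp [EE, mul_assoc]

lemma prod_al (s : Bool) : ∀ w : List Bool,
    (w.map (fun x => al (sy s) (β x))).prod = A ^ (w.count (!s))
  | [] => by simp
  | x :: w => by
    rw [List.map_cons, List.prod_cons, prod_al s w]
    by_cases hx : x = s
    · subst hx
      rw [List.count_cons_of_ne (by cases x <;> simp), al, live_sy]; simp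
    · have hx' : x = !s := by revert hx; cases x <;> cases s <;> simp
      rw [hx', List.count_cons_self, al, live_sy, pow_succ']
      simp

lemma EE_one (s t : Bool) : ∀ (η w : List Bool) (ω : ℕ → Fin 3), Pre η (sy t) ω →
    w ∈ CR (some t) η → EE ω s w = 1
  | [], w, ω, hpre, hw => by
    simp only [CR, mem_singleton] at hw
    subst hw
    have h0 : ω 0 = sy t := hpre
    unfold EE
    rw [prod_replicate_map]
    by_cases hst : s = t
    · subst hst
      have : al (sy s) (β s) = 1 := by rw [al, live_sy]; simp
      have hv : V ω (β (!s)) ^ 2 = 1 := by rw [pow_two, V_mul_self]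
      rw [this, one_mul, show 4 = 2 * 2 from rfl, pow_mul, hv, one_pow]
    · have hst' : (!s) = t := by revert hst; cases s <;> cases t <;> simp
      have h1 : al (sy s) (β t) = A := by
        rw [al, live_sy, if_pos]; revert hst; cases s <;> cases t <;> simp
      rw [h1, hst']
      exact ord_pow t 0 ω h0
  | s' :: η, w, ω, hpre, hw => by
    obtain ⟨w', hw', h2⟩ := (mem_CR_cons _ s' η w).1 hw
    have key : EE ω s (zipL w' (List.replicate w'.length (!s'))) = 1 := by
      rw [EE_zipL]
      by_cases hs : s' = s
      · subst hs
        have h1 : al (sy s') (β (!s')) = A := by rw [al, live_sy]; simp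
        have hB : (V ω (β (!s')) * A * V ω (β (!s'))) * (V ω (β (!s')) * A * V ω (β (!s'))) = 1 := by
          have hv := V_mul_self ω (β (!s'))
          generalize V ω (β (!s')) = v at *
          calc (v * A * v) * (v * A * v) = v * A * (v * v) * A * v := by group
            _ = 1 := by rw [hv, mul_one, mul_assoc v A A, A_mul_A, mul_one, hv]
        have h3 : (w'.map (fun x => al (sy s') (β x) * V ω (β (!s')) *
            (al (sy s') (β (!s')) * V ω (β (!s'))))).prod =
            (w'.map (fun x => (fun x => al (sy s') (β x)) x *
              (V ω (β (!s')) * A * V ω (β (!s'))))).prod := by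
          congr 2
          funext x
          rw [h1]; simp only [mul_assoc]
        rw [h3]
        rcases CR_good t η w' hw' with ⟨q, r, hq, he, ho⟩ | ⟨hq, hη⟩
        · rw [hq, prod_rep, pow_mul, pow_two, dihedral_sq _ hB _ s' (by rw [al, live_sy]; simp)
            h1 q, one_pow]
          cases s' with
          | true => exact ho
          | false =>
            have h4 : q.count true + q.count false = q.length := by
              have := List.count_true_add_count_false (l := q)
              exact this
            rw [Nat.odd_iff] at ho ⊢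
            rw [Nat.even_iff] at he
            omega
        · rw [hq, prod_replicate_map]
          by_cases hst : s' = t
          · subst hst
            have : al (sy s') (β s') = 1 := by rw [al, live_sy]; simp
            simp only [this, one_mul]
            rw [show 2 ^ (η.length + 2) = 2 * 2 ^ (η.length + 1) by ring, pow_mul, pow_two, hB,
              one_pow]
          · have hst' : (!s') = t := by revert hst; cases s' <;> cases t <;> simp
            have hst2 : s' = !t := by revert hst; cases s' <;> cases t <;> simp
            rw [hst'] at h1 ⊢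
            simp only [h1]
            have h5 : A * (V ω (β t) * A * V ω (β t)) = (A * V ω (β t)) ^ 2 := by
              rw [pow_two]; simp only [mul_assoc]
            rw [h5, ← pow_mul, show 2 * 2 ^ (η.length + 2) = 2 ^ (η.length + 1 + 2) by ring]
            apply ord_pow
            rw [List.replicate_succ, ← hη, ← hst2]
            exact hpre
      · have hs' : (!s') = s := by revert hs; cases s <;> cases s' <;> simp
        have h1 : al (sy s) (β (!s')) = 1 := by rw [hs', al, live_sy]; simp
        have h3 : (w'.map (fun x => al (sy s) (β x) * V ω (β (!s)) *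
            (al (sy s) (β (!s')) * V ω (β (!s))))).prod =
            (w'.map (fun x => al (sy s) (β x))).prod := by
          congr 2
          funext x
          rw [h1, one_mul, mul_assoc, V_mul_self, mul_one]
        rw [h3, prod_al]
        obtain ⟨m, hm⟩ := CR_even t (!s) η w' hw'
        rw [hm, ← two_mul, pow_mul, pow_two, A_mul_A, one_pow]
    rcases h2 with rfl | rfl
    · exact key
    · rw [EE_zipL'] 
      rw [EE_zipL] at key
      exact (prod_swap _ _ _).2 key

/-! ### number of critical words -/

/-- The last place (counted from 1) where the letter `t` occurs, 0 if it does not occur. -/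
def la (t : Bool) : List Bool → ℕ
  | [] => 0
  | s :: η => if la t η = 0 then (if s = t then 1 else 0) else la t η + 1

lemma mem_zipL {α : Type} (b : α) : ∀ (l r : List α), l.length = r.length →
    (b ∈ zipL l r ↔ b ∈ l ∨ b ∈ r)
  | [], [], _ => by simp
  | s :: l, t :: r, h => by
    have ih := mem_zipL b l r (by simpa using h)
    rw [zipL_cons, List.mem_cons, List.mem_cons, ih, List.mem_cons, List.mem_cons]; tauto
  | [], b :: r, h => by simp at h
  | a :: l, [], h => by simp at h

lemma CR_card (t : Bool) : ∀ η : List Bool,
    (la t η = 0 → CR (some t) η = {List.replicate (2 ^ (η.length + 2)) t}) ∧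
    (la t η ≠ 0 → ∀ w ∈ CR (some t) η, true ∈ w ∧ false ∈ w) ∧
    (CR (some t) η).card = 2 ^ (la t η)
  | [] => by
    refine ⟨fun _ => rfl, fun h => absurd rfl h, ?_⟩
    simp [CR, la]
  | s :: η => by
    obtain ⟨ih1, ih2, ih3⟩ := CR_card t η
    by_cases h0 : la t η = 0
    · have h1 := ih1 h0
      have hpos : 2 ^ (η.length + 2) ≠ 0 := by positivity
      by_cases hs : s = t
      · subst hs
        have hla : la s (s :: η) = 1 := by simp [la, h0]
        have hCR : CR (some s) (s :: η) =
            {zipL (List.replicate (2 ^ (η.length + 2)) s) (List.replicate (2 ^ (η.length + 2)) (!s)),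
             zipL (List.replicate (2 ^ (η.length + 2)) (!s)) (List.replicate (2 ^ (η.length + 2)) s)} := by
          ext u
          rw [mem_CR_cons, h1]
          simp
        refine ⟨fun h => absurd h (by rw [hla]; decide), ?_, ?_⟩
        · intro _ w hw
          rw [hCR, mem_insert, mem_singleton] at hw
          have hb : ∀ b : Bool, b = s ∨ b = !s := by intro b; cases b <;> cases s <;> simp
          rcases hw with rfl | rfl
          · constructor
            · rw [mem_zipL _ _ _ (by simp)]
              rcases hb true with h | h
              · left; rw [h]; exact List.mem_replicate.2 ⟨hpos, rfl⟩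
              · right; rw [h]; exact List.mem_replicate.2 ⟨hpos, rfl⟩
            · rw [mem_zipL _ _ _ (by simp)]
              rcases hb false with h | h
              · left; rw [h]; exact List.mem_replicate.2 ⟨hpos, rfl⟩
              · right; rw [h]; exact List.mem_replicate.2 ⟨hpos, rfl⟩
          · constructor
            · rw [mem_zipL _ _ _ (by simp)]
              rcases hb true with h | h
              · right; rw [h]; exact List.mem_replicate.2 ⟨hpos, rfl⟩
              · left; rw [h]; exact List.mem_replicate.2 ⟨hpos, rfl⟩
            · rw [mem_zipL _ _ _ (by simp)]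
              rcases hb false with h | h
              · right; rw [h]; exact List.mem_replicate.2 ⟨hpos, rfl⟩
              · left; rw [h]; exact List.mem_replicate.2 ⟨hpos, rfl⟩
        · rw [hCR, card_pair, hla]; rfl
          intro h
          obtain ⟨h2, _⟩ := zipL_inj _ _ _ _ (by simp) (by simp) h
          have h3 := List.mem_replicate.2 ⟨hpos, (rfl : s = s)⟩
          rw [h2] at h3
          have := (List.mem_replicate.1 h3).2
          revert this; cases s <;> simp
      · have hla : la t (s :: η) = 0 := by simp [la, h0, hs]
        have hs' : (!s) = t := by revert hs; cases s <;> cases t <;> simp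
        have hCR : CR (some t) (s :: η) = {List.replicate (2 ^ ((s :: η).length + 2)) t} := by
          ext u
          rw [mem_CR_cons, h1, hs']
          simp only [mem_singleton, exists_eq_left, List.length_replicate, or_self]
          rw [zipL_const, show [t, t] = List.replicate 2 t from rfl, rep_replicate]
          rfl
        refine ⟨fun _ => hCR, fun h => absurd hla h, ?_⟩
        rw [hCR, hla]; rfl
    · have hla : la t (s :: η) = la t η + 1 := by simp [la, h0]
      have h2 := ih2 h0
      refine ⟨fun h => absurd h (by rw [hla]; omega), ?_, ?_⟩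
      · intro _ w hw
        obtain ⟨w', hw', h3⟩ := (mem_CR_cons _ s η w).1 hw
        have h4 := h2 w' hw'
        rcases h3 with rfl | rfl
        · exact ⟨(mem_zipL _ _ _ (by simp)).2 (Or.inl h4.1), (mem_zipL _ _ _ (by simp)).2 (Or.inl h4.2)⟩
        · exact ⟨(mem_zipL _ _ _ (by simp)).2 (Or.inr h4.1), (mem_zipL _ _ _ (by simp)).2 (Or.inr h4.2)⟩
      · rw [CR, card_union_of_disjoint, card_image_of_injOn, card_image_of_injOn, ih3, hla]
        · ring
        · intro x hx y hy h
          exact (zipL_inj _ _ _ _ (by simp) (by simp) h).2
        · intro x hx y hy h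
          exact (zipL_inj _ _ _ _ (by simp) (by simp) h).1
        · rw [disjoint_left]
          intro u hu1 hu2
          obtain ⟨x, hx, rfl⟩ := mem_image.1 hu1
          obtain ⟨y, hy, h⟩ := mem_image.1 hu2
          obtain ⟨h5, _⟩ := zipL_inj _ _ _ _ (by simp) (by simp) h
          have h6 := h2 x hx
          rw [← h5] at h6
          have h7 := (List.mem_replicate.1 h6.1).2
          have h8 := (List.mem_replicate.1 h6.2).2
          rw [← h7] at h8
          exact absurd h8 (by decide)

/-- **Comparison with a reference sequence.** -/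
theorem crit_main (o : Option Bool) : ∀ (η : List Bool) (ω ρ : ℕ → Fin 3), Pre η (so o) ω →
    Pre η 0 ρ → ND ω → ND ρ → ∀ u : List Bool, u.length = 2 ^ (η.length + 2) →
      ((PB ω u = 1 ↔ (PB ρ u = 1 ∨ u ∈ CR o η)) ∧ (u ∈ CR o η → PB ρ u ≠ 1))
  | [], ω, ρ, h, h', hω, hρ, u, hu => by
    match u, hu with
    | [p, q, r, s], _ => 
      have h0 : ω 0 = so o := h
      have h0' : ρ 0 = 0 := h'
      rw [base_word hω, base_word hρ, h0, h0']
      simp only [live_z, ne_eq]
      cases o with
      | none => simp [CR, so, live_z]
      | some t =>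
        simp only [CR, so, live_sy, mem_singleton]
        rw [base_word hρ, h0']
        simp only [live_z]
        clear h h0 hu
        revert t p q r s; decide
  | s :: η, ω, ρ, h, h', hω, hρ, u, hu => by
    apply crit_step o s η ω ρ hω hρ h.1 h'.1 (Pre_agree η _ _ _ _ h.2 h'.2) ?_
      (crit_main o η (sh ω) (sh ρ) h.2 h'.2 hω.sh hρ.sh) u (by rw [hu]; rfl)
    intro w hw
    cases o with
    | none => rw [CR_none] at hw; simp at hw
    | some t => exact EE_one s t η w (sh ω) h.2 hw

end Pool.Agent.SM2e
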