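import Pool.Agent.SM2e.Ret
import Pool.Agent.SM2e.Crit2

set_option autoImplicit false

namespace Pool.Agent.SM2e

open Finset

noncomputable section

open Classical in
def FF (ω : ℕ → Fin 3) (l : List Bool) : ℤ := if PB ω l = 1 then 1 else 0

lemma PB_cons (ω : ℕ → Fin 3) (b : Bool) (l : List Bool) :
    PB ω (b :: l) = A * V ω (β b) * PB ω l := by simp [PB, Pw]

lemma PB_append (ω : ℕ → Fin 3) (l r : List Bool) : PB ω (l ++ r) = PB ω l * PB ω r := by
  simp [PB, Pw]

lemma PB_rep (ω : ℕ → Fin 3) (n : ℕ) (q : List Bool) : PB ω (rep n q) = PB ω q ^ n := by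
  induction n with
  | zero => simp [PB]
  | succ n ih => rw [rep_succ, PB_append, ih, pow_succ']

lemma FF_congr (ω ω' : ℕ → Fin 3) (l l' : List Bool) (h : PB ω l = 1 ↔ PB ω' l' = 1) :
    FF ω l = FF ω' l' := by
  unfold FF
  by_cases h1 : PB ω l = 1
  · rw [if_pos h1, if_pos (h.1 h1)]
  · rw [if_neg h1, if_neg (fun h2 => h1 (h.2 h2))]

lemma FF_one {ω : ℕ → Fin 3} {l : List Bool} (h : PB ω l = 1) : FF ω l = 1 := if_pos h
lemma FF_zero {ω : ℕ → Fin 3} {l : List Bool} (h : PB ω l ≠ 1) : FF ω l = 0 := if_neg h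

lemma FF_rot (ω : ℕ → Fin 3) (a : Bool) (l : List Bool) : FF ω (a :: l) = FF ω (l ++ [a]) := by
  apply FF_congr
  rw [PB_cons, PB_append]
  have : PB ω [a] = A * V ω (β a) := by simp [PB, Pw]
  rw [this]
  exact mul_eq_one_comm

lemma BB_count (ω : ℕ → Fin 3) (n : ℕ) : BB ω n = ∑ l ∈ LL n, FF ω l := by
  classical
  have h1 : a * cc ω false = (fun t : Bool => og (A * V ω (β t))) false +
      (fun t : Bool => og (A * V ω (β t))) true := by
    simp only [cc, Bool.false_eq_true, if_false, map_mul, mul_add]; rfl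
  rw [BB, h1, pow_expand (fun t : Bool => og (A * V ω (β t))) n, map_sum]
  apply sum_congr rfl
  intro l _
  have h3 : (l.map (fun t => og (A * V ω (β t)))).prod = og (PB ω l) := by
    rw [PB, Pw, map_list_prod, List.map_map, List.map_map]; rfl
  rw [h3, τ_og]
  unfold FF
  rfl

lemma BB_zero (ω : ℕ → Fin 3) (h0 : ω 0 = 0) (M : ℕ) : BB ω (2 * M) = BB (sh ω) M ^ 2 := by
  have h1 : WW ω (rep (2 * M) [false]) = (a * cc ω false) ^ (2 * M) := by
    rw [WW_rep]; simp [WW]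
  rw [BB, ← h1, rep_zipL, τ_WW_zipL ω h0 _ _ rfl, XX_rep, YY_rep, τ_pow_comm]
  simp only [ee, Bool.false_eq_true, if_false, BB]
  ring

lemma BB_crit (o : Option Bool) (η : List Bool) (ω ρ : ℕ → Fin 3) (h : Pre η (so o) ω)
    (h' : Pre η 0 ρ) (hω : ND ω) (hρ : ND ρ) :
    BB ω (2 ^ (η.length + 2)) = BB ρ (2 ^ (η.length + 2)) + (CR o η).card := by
  classical
  rw [BB_count, BB_count]
  have h1 : ∀ l ∈ LL (2 ^ (η.length + 2)), FF ω l = FF ρ l + if l ∈ CR o η then 1 else 0 := by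
    intro l hl
    rw [mem_LL] at hl
    obtain ⟨h2, h3⟩ := crit_main o η ω ρ h h' hω hρ l hl
    by_cases h4 : l ∈ CR o η
    · rw [if_pos h4, FF_zero (h3 h4), FF_one (h2.2 (Or.inr h4)), zero_add]
    · rw [if_neg h4, add_zero]
      apply FF_congr
      rw [h2]
      exact or_iff_left h4
  rw [sum_congr rfl h1, sum_add_distrib, sum_boole]
  congr 3
  ext l
  rw [mem_filter]
  constructor
  · exact fun h => h.2
  · intro h2
    exact ⟨(mem_LL _ _).2 (CR_length o η l h2), h2⟩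

/-! ### reference sequences -/

def alt (n : ℕ) : Fin 3 := if n % 2 = 0 then 0 else 1

lemma ND_alt : ND alt := by
  intro n
  refine ⟨n + 1, by omega, ?_⟩
  unfold alt
  rcases Nat.mod_two_eq_zero_or_one n with h | h
  · rw [if_neg (by omega), if_pos h]; decide
  · rw [if_pos (by omega), if_neg (by omega)]; decide

def consS (k : Fin 3) (ρ : ℕ → Fin 3) : ℕ → Fin 3
  | 0 => k
  | n + 1 => ρ n

lemma sh_consS (k : Fin 3) (ρ : ℕ → Fin 3) : sh (consS k ρ) = ρ := rfl

lemma ND_consS (k : Fin 3) {ρ : ℕ → Fin 3} (h : ND ρ) : ND (consS k ρ) := by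
  intro n
  cases n with
  | zero =>
    by_cases h1 : ρ 0 = k
    · obtain ⟨i, hi, hne⟩ := h 0
      exact ⟨i + 1, by omega, by
        change ρ i ≠ k
        rw [← h1]; exact hne⟩
    · exact ⟨1, by omega, h1⟩
  | succ n =>
    obtain ⟨i, hi, hne⟩ := h n
    exact ⟨i + 1, by omega, hne⟩

lemma exists_ref : ∀ η : List Bool, ∃ ρ : ℕ → Fin 3, Pre η 0 ρ ∧ ND ρ
  | [] => ⟨alt, rfl, ND_alt⟩
  | s :: η => by
    obtain ⟨ρ, h1, h2⟩ := exists_ref η
    exact ⟨consS (sy s) ρ, ⟨rfl, h1⟩, ND_consS _ h2⟩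

/-! ### orders -/

lemma ord_iff (s : Fin 4) (hs : s ≠ 0) : ∀ (j : ℕ) (ω : ℕ → Fin 3), ND ω →
    ((A * V ω s) ^ (2 ^ (j + 1)) = 1 ↔ ∃ i < j, live (ω i) s = false)
  | 0, ω, hω => by
    rw [show 2 ^ (0 + 1) = 2 from rfl, av_sq, Φ_eq_one]
    constructor
    · rintro ⟨h, _⟩
      exact absurd (VA_ne_one hω.sh _ _ _ h).1 hs
    · rintro ⟨i, hi, _⟩; omega
  | j + 1, ω, hω => by
    have ih := ord_iff s hs j (sh ω) hω.sh
    rw [show 2 ^ (j + 1 + 1) = 2 * 2 ^ (j + 1) by ring, pow_mul, av_sq, ← map_pow, Prod.pow_mk,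
      Φ_eq_one]
    cases hl : live (ω 0) s with
    | true =>
      have h1 : al (ω 0) s = A := by simp [al, hl]
      rw [h1, pow_comm_one (V (sh ω) s) A, and_self, ih]
      constructor
      · rintro ⟨i, hi, h⟩; exact ⟨i + 1, by omega, h⟩
      · rintro ⟨i, hi, h⟩
        cases i with
        | zero => rw [hl] at h; exact absurd h (by decide)
        | succ i => exact ⟨i, by omega, h⟩
    | false =>
      have h1 : al (ω 0) s = 1 := by simp [al, hl]
      rw [h1, mul_one, one_mul, and_self]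
      constructor
      · intro _; exact ⟨0, by omega, hl⟩
      · intro _
        rw [pow_succ', pow_mul, pow_two, V_mul_self, one_pow]

end

end Pool.Agent.SM2e
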