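import Mathlib

set_option autoImplicit false

namespace Pool.Agent.SM2e

/-- The generators of the group, acting on finite binary words (`true` is the digit 1).
`s = 0` is the generator a, `s = 1` is b, `s = 2` is c, `s = 3` is d. The letter with number `s`
(1, 2 or 3) acts trivially below the vertex `1^n 0` exactly when `ω n = 3 - s`. -/
def gen (ω : ℕ → Fin 3) (s : Fin 4) (v : List Bool) : List Bool :=
  if s = 0 then v.set 0 (!(v.getD 0 false))
  else if (List.takeWhile id v).length + 1 < v.length ∧
      (ω (List.takeWhile id v).length).val ≠ 3 - s.val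
    then v.set ((List.takeWhile id v).length + 1)
      (!(v.getD ((List.takeWhile id v).length + 1) false))
    else v

/-- The action of a word in the generators. -/
def act (ω : ℕ → Fin 3) (u : List (Fin 4)) : List Bool → List Bool :=
  (u.map (gen ω)).foldr (fun f g => f ∘ g) id

/-- The number of words of length `k` in the four generators that equal the identity. -/
noncomputable def returns (ω : ℕ → Fin 3) (k : ℕ) : ℕ :=
  Nat.card {u : List (Fin 4) // u.length = k ∧ act ω u = id}

/-! ### Basic recursion -/

def sh (ω : ℕ → Fin 3) : ℕ → Fin 3 := fun n => ω (n + 1)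

lemma gen_zero_cons (ω : ℕ → Fin 3) (x : Bool) (v : List Bool) :
    gen ω 0 (x :: v) = (!x) :: v := by
  simp [gen]

lemma gen_zero_nil (ω : ℕ → Fin 3) : gen ω 0 [] = [] := by
  simp [gen]

lemma gen_nil (ω : ℕ → Fin 3) (s : Fin 4) : gen ω s [] = [] := by
  by_cases h : s = 0 <;> simp [gen, h]

lemma gen_true_cons (ω : ℕ → Fin 3) (s : Fin 4) (hs : s ≠ 0) (v : List Bool) :
    gen ω s (true :: v) = true :: gen (sh ω) s v := by
  have h1 : (List.takeWhile id (true :: v)).length = (List.takeWhile id v).length + 1 := by
    simp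
  by_cases h : (List.takeWhile id v).length + 1 < v.length ∧
      (sh ω (List.takeWhile id v).length).val ≠ 3 - s.val
  · have h' : (List.takeWhile id (true :: v)).length + 1 < (true :: v).length ∧
      (ω (List.takeWhile id (true :: v)).length).val ≠ 3 - s.val := by
      rw [h1]
      exact ⟨by simpa using h.1, h.2⟩
    unfold gen
    rw [if_neg hs, if_neg hs, if_pos h, if_pos h', h1]
    simp
  · have h' : ¬ ((List.takeWhile id (true :: v)).length + 1 < (true :: v).length ∧
      (ω (List.takeWhile id (true :: v)).length).val ≠ 3 - s.val) := by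
      rw [h1]
      intro h2
      exact h ⟨by simpa using h2.1, h2.2⟩
    unfold gen
    rw [if_neg hs, if_neg hs, if_neg h, if_neg h']

lemma gen_false_cons_live (ω : ℕ → Fin 3) (s : Fin 4) (hs : s ≠ 0)
    (hk : (ω 0).val ≠ 3 - s.val) (v : List Bool) :
    gen ω s (false :: v) = false :: gen (sh ω) 0 v := by
  simp only [gen, hs, if_false, if_true]
  cases v with
  | nil => simp
  | cons x v => simp [hk]

lemma gen_false_cons_dead (ω : ℕ → Fin 3) (s : Fin 4) (hs : s ≠ 0)
    (hk : (ω 0).val = 3 - s.val) (v : List Bool) :
    gen ω s (false :: v) = false :: v := by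
  simp only [gen, hs, if_false]
  simp [hk]


/-! ### Involutions -/

lemma gen_inv (s : Fin 4) : ∀ (v : List Bool) (ω : ℕ → Fin 3), gen ω s (gen ω s v) = v := by
  by_cases hs : s = 0
  · subst hs
    intro v ω
    cases v with
    | nil => simp [gen_nil]
    | cons x v => simp [gen_zero_cons]
  · intro v
    induction v with
    | nil => intro ω; simp [gen_nil]
    | cons x v ih =>
      intro ω
      cases x with
      | true => rw [gen_true_cons ω s hs, gen_true_cons ω s hs, ih]
      | false =>
        by_cases hk : (ω 0).val = 3 - s.val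
        · rw [gen_false_cons_dead ω s hs hk, gen_false_cons_dead ω s hs hk]
        · rw [gen_false_cons_live ω s hs hk, gen_false_cons_live ω s hs hk]
          cases v with
          | nil => simp [gen_nil]
          | cons y v => simp [gen_zero_cons]

lemma gen_comp_self (ω : ℕ → Fin 3) (s : Fin 4) : gen ω s ∘ gen ω s = id := by
  funext v; exact gen_inv s v ω

lemma gen_comm (s t : Fin 4) (hs : s ≠ 0) (ht : t ≠ 0) : ∀ (v : List Bool) (ω : ℕ → Fin 3),
    gen ω s (gen ω t v) = gen ω t (gen ω s v) := by
  intro v
  induction v with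
  | nil => intro ω; simp [gen_nil]
  | cons x v ih =>
    intro ω
    cases x with
    | true => rw [gen_true_cons ω t ht, gen_true_cons ω s hs, gen_true_cons ω s hs,
        gen_true_cons ω t ht, ih]
    | false =>
      by_cases hks : (ω 0).val = 3 - s.val
      · by_cases hkt : (ω 0).val = 3 - t.val
        · simp only [gen_false_cons_dead ω s hs hks, gen_false_cons_dead ω t ht hkt]
        · simp only [gen_false_cons_dead ω s hs hks, gen_false_cons_live ω t ht hkt]
      · by_cases hkt : (ω 0).val = 3 - t.val
        · simp only [gen_false_cons_live ω s hs hks, gen_false_cons_dead ω t ht hkt]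
        · simp only [gen_false_cons_live ω s hs hks, gen_false_cons_live ω t ht hkt]

/-! ### The order of a x -/

/-- The symbol that kills the letter `s`. -/
def Kills (k : Fin 3) (s : Fin 4) : Prop := k.val = 3 - s.val

instance (k : Fin 3) (s : Fin 4) : Decidable (Kills k s) := by unfold Kills; infer_instance

lemma rot_sq_false_live (ω : ℕ → Fin 3) (s : Fin 4) (hs : s ≠ 0) (hk : ¬ Kills (ω 0) s)
    (v : List Bool) :
    (gen ω 0 ∘ gen ω s) ((gen ω 0 ∘ gen ω s) (false :: v)) =
      false :: (gen (sh ω) s ∘ gen (sh ω) 0) v := by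
  simp only [Function.comp_apply]
  rw [gen_false_cons_live ω s hs hk, gen_zero_cons, Bool.not_false, gen_true_cons ω s hs,
    gen_zero_cons, Bool.not_true]

lemma rot_sq_true_live (ω : ℕ → Fin 3) (s : Fin 4) (hs : s ≠ 0) (hk : ¬ Kills (ω 0) s)
    (v : List Bool) :
    (gen ω 0 ∘ gen ω s) ((gen ω 0 ∘ gen ω s) (true :: v)) =
      true :: (gen (sh ω) 0 ∘ gen (sh ω) s) v := by
  simp only [Function.comp_apply]
  rw [gen_true_cons ω s hs, gen_zero_cons, Bool.not_true, gen_false_cons_live ω s hs hk,
    gen_zero_cons, Bool.not_false]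

lemma rot_sq_false_dead (ω : ℕ → Fin 3) (s : Fin 4) (hs : s ≠ 0) (hk : Kills (ω 0) s)
    (v : List Bool) :
    (gen ω 0 ∘ gen ω s) ((gen ω 0 ∘ gen ω s) (false :: v)) =
      false :: gen (sh ω) s v := by
  simp only [Function.comp_apply]
  rw [gen_false_cons_dead ω s hs hk, gen_zero_cons, Bool.not_false, gen_true_cons ω s hs,
    gen_zero_cons, Bool.not_true]

lemma rot_sq_true_dead (ω : ℕ → Fin 3) (s : Fin 4) (hs : s ≠ 0) (hk : Kills (ω 0) s)
    (v : List Bool) :
    (gen ω 0 ∘ gen ω s) ((gen ω 0 ∘ gen ω s) (true :: v)) =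
      true :: gen (sh ω) s v := by
  simp only [Function.comp_apply]
  rw [gen_true_cons ω s hs, gen_zero_cons, Bool.not_true, gen_false_cons_dead ω s hs hk,
    gen_zero_cons, Bool.not_false]

/-- `R ω s n` : the n-th power of a x. -/
def R (ω : ℕ → Fin 3) (s : Fin 4) (n : ℕ) : List Bool → List Bool := (gen ω 0 ∘ gen ω s)^[n]

lemma R_two_mul (ω : ℕ → Fin 3) (s : Fin 4) (n : ℕ) :
    R ω s (2 * n) = ((gen ω 0 ∘ gen ω s) ∘ (gen ω 0 ∘ gen ω s))^[n] := by
  unfold R
  rw [Function.iterate_mul]
  rfl

lemma R_live_false (ω : ℕ → Fin 3) (s : Fin 4) (hs : s ≠ 0) (hk : ¬ Kills (ω 0) s) (n : ℕ)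
    (v : List Bool) :
    R ω s (2 * n) (false :: v) = false :: (gen (sh ω) s ∘ gen (sh ω) 0)^[n] v := by
  rw [R_two_mul]
  induction n generalizing v with
  | zero => rfl
  | succ n ih =>
    rw [Function.iterate_succ_apply, Function.iterate_succ_apply, ← ih]
    congr 1
    exact rot_sq_false_live ω s hs hk v

lemma R_live_true (ω : ℕ → Fin 3) (s : Fin 4) (hs : s ≠ 0) (hk : ¬ Kills (ω 0) s) (n : ℕ)
    (v : List Bool) :
    R ω s (2 * n) (true :: v) = true :: R (sh ω) s n v := by
  rw [R_two_mul]
  unfold R
  induction n generalizing v with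
  | zero => rfl
  | succ n ih =>
    rw [Function.iterate_succ_apply, Function.iterate_succ_apply, ← ih]
    congr 1
    exact rot_sq_true_live ω s hs hk v

lemma R_dead_false (ω : ℕ → Fin 3) (s : Fin 4) (hs : s ≠ 0) (hk : Kills (ω 0) s) (n : ℕ)
    (v : List Bool) :
    R ω s (2 * n) (false :: v) = false :: (gen (sh ω) s)^[n] v := by
  rw [R_two_mul]
  induction n generalizing v with
  | zero => rfl
  | succ n ih =>
    rw [Function.iterate_succ_apply, Function.iterate_succ_apply, ← ih]
    congr 1
    exact rot_sq_false_dead ω s hs hk v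

lemma R_dead_true (ω : ℕ → Fin 3) (s : Fin 4) (hs : s ≠ 0) (hk : Kills (ω 0) s) (n : ℕ)
    (v : List Bool) :
    R ω s (2 * n) (true :: v) = true :: (gen (sh ω) s)^[n] v := by
  rw [R_two_mul]
  induction n generalizing v with
  | zero => rfl
  | succ n ih =>
    rw [Function.iterate_succ_apply, Function.iterate_succ_apply, ← ih]
    congr 1
    exact rot_sq_true_dead ω s hs hk v

lemma R_nil (ω : ℕ → Fin 3) (s : Fin 4) (n : ℕ) : R ω s n [] = [] := by
  unfold R
  induction n with
  | zero => rfl
  | succ n ih =>
    rw [Function.iterate_succ_apply]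
    simp only [Function.comp_apply, gen_nil]
    exact ih

/-- Inverse of a product: `(x a)^n` is the identity iff `(a x)^n` is. -/
lemma swap_iter (f g : List Bool → List Bool) (hf : f ∘ f = id) (hg : g ∘ g = id) (n : ℕ) :
    (f ∘ g)^[n] = id → (g ∘ f)^[n] = id := by
  intro h
  -- g ∘ f is the inverse of f ∘ g
  have hinv : (g ∘ f) ∘ (f ∘ g) = id := by
    calc (g ∘ f) ∘ (f ∘ g) = g ∘ (f ∘ f) ∘ g := rfl
      _ = id := by rw [hf]; exact hg
  have hinv2 : (f ∘ g) ∘ (g ∘ f) = id := by
    calc (f ∘ g) ∘ (g ∘ f) = f ∘ (g ∘ g) ∘ f := rfl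
      _ = id := by rw [hg]; exact hf
  have hcomm : Function.Commute (g ∘ f) (f ∘ g) := by
    intro x
    have h1 := congrFun hinv x
    have h2 := congrFun hinv2 x
    simp only [Function.comp_apply, id] at h1 h2 ⊢
    rw [h1, h2]
  have h1 : ((g ∘ f) ∘ (f ∘ g))^[n] = (g ∘ f)^[n] ∘ (f ∘ g)^[n] := hcomm.comp_iterate n
  rw [hinv, h, Function.iterate_id] at h1
  exact h1.symm

lemma gen_eq_id_imp (s : Fin 4) (hs : s ≠ 0) (ω : ℕ → Fin 3) (h : gen ω s = id) :
    ∀ n, Kills (ω n) s := by
  intro n
  induction n generalizing ω with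
  | zero =>
    by_contra hk
    have h1 := congrFun h [false, false]
    rw [gen_false_cons_live ω s hs hk, gen_zero_cons] at h1
    simp at h1
  | succ n ih =>
    have h1 : gen (sh ω) s = id := by
      funext v
      have h2 := congrFun h (true :: v)
      rw [gen_true_cons ω s hs] at h2
      simpa using h2
    exact ih (sh ω) h1

lemma R_one_ne (ω : ℕ → Fin 3) (s : Fin 4) (hs : s ≠ 0) : R ω s 1 ≠ id := by
  intro h
  have h1 := congrFun h [true]
  unfold R at h1
  rw [Function.iterate_one, Function.comp_apply, gen_true_cons ω s hs, gen_zero_cons] at h1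
  simp at h1

lemma R_two (ω : ℕ → Fin 3) (s : Fin 4) (hs : s ≠ 0) (h : R ω s 2 = id) :
    ∀ n, Kills (ω n) s := by
  by_cases hk : Kills (ω 0) s
  · have h1 : gen (sh ω) s = id := by
      funext v
      have h2 := congrFun h (true :: v)
      rw [show (2 : ℕ) = 2 * 1 from rfl, R_dead_true ω s hs hk] at h2
      simpa using h2
    intro n
    cases n with
    | zero => exact hk
    | succ n => exact gen_eq_id_imp s hs (sh ω) h1 n
  · exfalso
    apply R_one_ne (sh ω) s hs
    funext v
    have h2 := congrFun h (true :: v)
    rw [show (2 : ℕ) = 2 * 1 from rfl, R_live_true ω s hs hk] at h2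
    simpa using h2

lemma iter_even_gen (ω : ℕ → Fin 3) (s : Fin 4) (n : ℕ) : (gen ω s)^[2 * n] = id := by
  rw [Function.iterate_mul]
  have : (gen ω s)^[2] = id := by
    rw [show (2 : ℕ) = 1 + 1 from rfl, Function.iterate_succ, Function.iterate_one]
    exact gen_comp_self ω s
  rw [this, Function.iterate_id]

/-- Main order computation. -/
lemma R_pow (s : Fin 4) (hs : s ≠ 0) : ∀ (j : ℕ) (ω : ℕ → Fin 3),
    (R ω s (2 ^ (j + 1)) = id ↔ (∃ i < j, Kills (ω i) s) ∨ ∀ n, Kills (ω (n + j)) s) := by
  intro j
  induction j with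
  | zero =>
    intro ω
    constructor
    · intro h
      right
      intro n
      exact R_two ω s hs (by simpa using h) _
    · rintro (⟨i, hi, _⟩ | h)
      · omega
      · have hg : ∀ v : List Bool, ∀ ω : ℕ → Fin 3, (∀ n, Kills (ω n) s) → gen ω s v = v := by
          intro v
          induction v with
          | nil => intro ω _; exact gen_nil ω s
          | cons x v ih =>
            intro ω h
            cases x with
            | true => rw [gen_true_cons ω s hs, ih (sh ω) (fun n => h (n + 1))]
            | false => exact gen_false_cons_dead ω s hs (h 0) v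
        have h' : ∀ n, Kills (ω n) s := fun n => h n
        funext v
        rw [show (2 : ℕ) ^ (0 + 1) = 2 * 1 from rfl]
        cases v with
        | nil => exact R_nil ω s _
        | cons x v =>
          cases x with
          | true =>
            rw [R_dead_true ω s hs (h' 0), Function.iterate_one,
              hg v (sh ω) (fun n => h' (n + 1))]
            rfl
          | false =>
            rw [R_dead_false ω s hs (h' 0), Function.iterate_one,
              hg v (sh ω) (fun n => h' (n + 1))]
            rfl
  | succ j ih =>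
    intro ω
    by_cases hk : Kills (ω 0) s
    · constructor
      · intro _
        left
        exact ⟨0, by omega, hk⟩
      · intro _
        funext v
        rw [show (2 : ℕ) ^ (j + 1 + 1) = 2 * (2 * 2 ^ j) by ring]
        cases v with
        | nil => exact R_nil ω s _
        | cons x v =>
          cases x with
          | true => rw [R_dead_true ω s hs hk, iter_even_gen]; rfl
          | false => rw [R_dead_false ω s hs hk, iter_even_gen]; rfl
    · have h1 : R ω s (2 ^ (j + 1 + 1)) = id ↔ R (sh ω) s (2 ^ (j + 1)) = id := by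
        rw [show (2 : ℕ) ^ (j + 1 + 1) = 2 * 2 ^ (j + 1) by ring]
        constructor
        · intro h
          funext v
          have h2 := congrFun h (true :: v)
          rw [R_live_true ω s hs hk] at h2
          simpa using h2
        · intro h
          have h' : (gen (sh ω) s ∘ gen (sh ω) 0)^[2 ^ (j + 1)] = id :=
            swap_iter _ _ (gen_comp_self _ _) (gen_comp_self _ _) _ h
          funext v
          cases v with
          | nil => exact R_nil ω s _
          | cons x v =>
            cases x with
            | true => rw [R_live_true ω s hs hk, h]; rfl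
            | false => rw [R_live_false ω s hs hk, h']; rfl
      rw [h1, ih (sh ω)]
      constructor
      · rintro (⟨i, hi, h⟩ | h)
        · exact Or.inl ⟨i + 1, by omega, h⟩
        · exact Or.inr (fun n => h n)
      · rintro (⟨i, hi, h⟩ | h)
        · cases i with
          | zero => exact absurd h hk
          | succ i => exact Or.inl ⟨i, by omega, h⟩
        · exact Or.inr (fun n => h n)


end Pool.Agent.SM2e
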