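import Pool.Agent.SM2e.Gens

set_option autoImplicit false

namespace Pool.Agent.SM2e

abbrev PP := Equiv.Perm (List Bool)

/-- the generator as a permutation -/
def gp (ω : ℕ → Fin 3) (s : Fin 4) : PP :=
  Function.Involutive.toPerm (gen ω s) (fun v => gen_inv s v ω)

@[simp] lemma gp_apply (ω : ℕ → Fin 3) (s : Fin 4) (v : List Bool) : gp ω s v = gen ω s v := rfl

def A : PP := gp (fun _ => 0) 0

lemma gp_zero (ω : ℕ → Fin 3) : gp ω 0 = A := by
  ext1 v
  simp [A, gen]

@[simp] lemma A_nil : A [] = [] := by simp [A, gen_nil]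
@[simp] lemma A_cons (b : Bool) (v : List Bool) : A (b :: v) = (!b) :: v := by
  simp [A, gen_zero_cons]

@[simp] lemma A_mul_A : A * A = 1 := by
  ext1 v; cases v <;> simp

@[simp] lemma A_mul_A_mul (g : PP) : A * (A * g) = g := by rw [← mul_assoc, A_mul_A, one_mul]

def V (ω : ℕ → Fin 3) (s : Fin 4) : PP := if s = 0 then 1 else gp ω s

@[simp] lemma V_zero (ω : ℕ → Fin 3) : V ω 0 = 1 := by simp [V]

/-- The pair action. -/
def Φfun (p : PP × PP) : List Bool → List Bool
  | [] => []
  | false :: v => false :: p.1 v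
  | true :: v => true :: p.2 v

def Φ : PP × PP →* PP where
  toFun p :=
    { toFun := Φfun p
      invFun := Φfun p⁻¹
      left_inv := by
        intro v; rcases v with _ | ⟨b, v⟩
        · rfl
        · cases b <;> simp [Φfun]
      right_inv := by
        intro v; rcases v with _ | ⟨b, v⟩
        · rfl
        · cases b <;> simp [Φfun] }
  map_one' := by
    ext1 v; rcases v with _ | ⟨b, v⟩
    · rfl
    · cases b <;> simp [Φfun]
  map_mul' p q := by
    ext1 v; rcases v with _ | ⟨b, v⟩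
    · rfl
    · cases b <;> simp [Φfun]

@[simp] lemma Φ_nil (p : PP × PP) : Φ p [] = [] := rfl
@[simp] lemma Φ_false (p : PP × PP) (v : List Bool) : Φ p (false :: v) = false :: p.1 v := rfl
@[simp] lemma Φ_true (p : PP × PP) (v : List Bool) : Φ p (true :: v) = true :: p.2 v := rfl

lemma Φ_eq_one (p q : PP) : Φ (p, q) = 1 ↔ p = 1 ∧ q = 1 := by
  constructor
  · intro h
    constructor
    · ext1 v
      have := congrArg (fun g : PP => g (false :: v)) h
      simpa using this
    · ext1 v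
      have := congrArg (fun g : PP => g (true :: v)) h
      simpa using this
  · rintro ⟨rfl, rfl⟩; exact map_one Φ

lemma Φ_inj : Function.Injective Φ := by
  rw [injective_iff_map_eq_one]
  rintro ⟨p, q⟩ h
  obtain ⟨h1, h2⟩ := (Φ_eq_one p q).1 h
  rw [h1, h2]; rfl

lemma A_Φ_A (p q : PP) : A * Φ (p, q) * A = Φ (q, p) := by
  ext1 v; rcases v with _ | ⟨b, v⟩
  · simp
  · cases b <;> simp

/-- The letter `s` acts nontrivially (as a) below `0`. -/
def live (k : Fin 3) (s : Fin 4) : Bool := decide (s ≠ 0 ∧ ¬ Kills k s)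

def al (k : Fin 3) (s : Fin 4) : PP := if live k s then A else 1

@[simp] lemma live_zero (k : Fin 3) : live k 0 = false := by simp [live]
@[simp] lemma al_zero (k : Fin 3) : al k 0 = 1 := by simp [al]

lemma V_eq (ω : ℕ → Fin 3) (s : Fin 4) : V ω s = Φ (al (ω 0) s, V (sh ω) s) := by
  by_cases hs : s = 0
  · subst hs; simp only [V_zero, al_zero]; symm; exact map_one Φ
  · ext1 v
    simp only [V, if_neg hs]
    rcases v with _ | ⟨b, v⟩
    · simp [gen_nil]
    · cases b with
      | true => simp [gen_true_cons ω s hs]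
      | false =>
        by_cases hk : Kills (ω 0) s
        · simp [gen_false_cons_dead ω s hs hk, al, live, hk, hs]
        · simp only [gp_apply, gen_false_cons_live ω s hs hk, Φ_false, al, live, hk]
          have : gen (sh ω) 0 v = A v := by rw [← gp_zero (sh ω)]; rfl
          simp [this, hs]

lemma al_mul_self (k : Fin 3) (s : Fin 4) : al k s * al k s = 1 := by
  unfold al; split_ifs <;> simp

lemma V_mul_self (ω : ℕ → Fin 3) (s : Fin 4) : V ω s * V ω s = 1 := by
  by_cases hs : s = 0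
  · subst hs; simp
  · ext1 v
    simp only [V, if_neg hs, Equiv.Perm.mul_apply, gp_apply, Equiv.Perm.one_apply]
    exact gen_inv s v ω

/-- Addition in the Klein four group. -/
def kl (s t : Fin 4) : Fin 4 :=
  (![![0, 1, 2, 3], ![1, 0, 3, 2], ![2, 3, 0, 1], ![3, 2, 1, 0]] : Fin 4 → Fin 4 → Fin 4) s t

lemma kl_comm (s t : Fin 4) : kl s t = kl t s := by revert s t; decide
lemma kl_self (s : Fin 4) : kl s s = 0 := by revert s; decide
lemma kl_kl (s t : Fin 4) : kl s (kl s t) = t := by revert s t; decide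
lemma kl_zero (s : Fin 4) : kl s 0 = s := by revert s; decide
lemma zero_kl (s : Fin 4) : kl 0 s = s := by revert s; decide

lemma al_mul (k : Fin 3) (s t : Fin 4) : al k s * al k t = al k (kl s t) := by
  have h : ∀ (k : Fin 3) (s t : Fin 4), live k (kl s t) = (live k s ^^ live k t) := by decide
  unfold al
  rw [h]
  cases live k s <;> cases live k t <;> simp

lemma V_mul (s t : Fin 4) : ∀ ω : ℕ → Fin 3, V ω s * V ω t = V ω (kl s t) := by
  have h : ∀ (v : List Bool) (ω : ℕ → Fin 3), (V ω s * V ω t) v = V ω (kl s t) v := by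
    intro v
    induction v with
    | nil => intro ω; rw [V_eq, V_eq ω t, V_eq ω (kl s t)]; simp
    | cons b v ih =>
      intro ω
      rw [V_eq, V_eq ω t, V_eq ω (kl s t), ← map_mul]
      cases b with
      | false => simp only [Prod.mk_mul_mk, Φ_false]; rw [al_mul]
      | true => simp only [Prod.mk_mul_mk, Φ_true]; rw [ih]
  intro ω; ext1 v; exact h v ω

lemma V_comm (ω : ℕ → Fin 3) (s t : Fin 4) : V ω s * V ω t = V ω t * V ω s := by
  rw [V_mul, V_mul, kl_comm]

/-! ### words -/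

/-- The product of the `a v`. -/
def Pw (ω : ℕ → Fin 3) (l : List (Fin 4)) : PP := (l.map (fun s => A * V ω s)).prod

@[simp] lemma Pw_nil (ω : ℕ → Fin 3) : Pw ω [] = 1 := rfl
lemma Pw_cons (ω : ℕ → Fin 3) (s : Fin 4) (l : List (Fin 4)) :
    Pw ω (s :: l) = A * V ω s * Pw ω l := by simp [Pw]
lemma Pw_append (ω : ℕ → Fin 3) (l r : List (Fin 4)) : Pw ω (l ++ r) = Pw ω l * Pw ω r := by
  simp [Pw]

/-- Interleaving. -/
def zipL {α : Type} : List α → List α → List α
  | a :: l, b :: r => a :: b :: zipL l r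
  | _, _ => []

@[simp] lemma zipL_nil {α : Type} : zipL ([] : List α) [] = [] := rfl
@[simp] lemma zipL_cons {α : Type} (a b : α) (l r : List α) :
    zipL (a :: l) (b :: r) = a :: b :: zipL l r := rfl

lemma zipL_length {α : Type} : ∀ (l r : List α), l.length = r.length →
    (zipL l r).length = 2 * l.length
  | [], [], _ => rfl
  | a :: l, b :: r, h => by
    have := zipL_length l r (by simpa using h)
    simp [this]; ring
  | [], b :: r, h => by simp at h
  | a :: l, [], h => by simp at h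

lemma zipL_map {α β : Type} (f : α → β) : ∀ (l r : List α),
    (zipL l r).map f = zipL (l.map f) (r.map f)
  | [], [] => rfl
  | a :: l, b :: r => by simp [zipL_map f l r]
  | [], b :: r => rfl
  | a :: l, [] => rfl

lemma exists_zipL {α : Type} : ∀ (k : ℕ) (u : List α), u.length = 2 * k →
    ∃ l r : List α, l.length = k ∧ r.length = k ∧ u = zipL l r
  | 0, [], _ => ⟨[], [], rfl, rfl, rfl⟩
  | 0, _ :: _, h => by simp at h
  | k + 1, [], h => by simp at h
  | k + 1, [_], h => by simp at h; omega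
  | k + 1, a :: b :: u, h => by
    obtain ⟨l, r, hl, hr, hu⟩ := exists_zipL k u (by simp at h; omega)
    exact ⟨a :: l, b :: r, by simp [hl], by simp [hr], by simp [hu]⟩

lemma zipL_inj {α : Type} : ∀ (l r l' r' : List α), l.length = r.length → l'.length = r'.length →
    zipL l r = zipL l' r' → l = l' ∧ r = r'
  | [], [], [], [], _, _, _ => ⟨rfl, rfl⟩
  | a :: l, b :: r, a' :: l', b' :: r', h1, h2, h => by
    simp only [zipL_cons, List.cons.injEq] at h
    obtain ⟨rfl, rfl, h⟩ := h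
    obtain ⟨rfl, rfl⟩ := zipL_inj l r l' r' (by simpa using h1) (by simpa using h2) h
    exact ⟨rfl, rfl⟩
  | [], [], a :: l', b :: r', _, _, h => by simp at h
  | a :: l, b :: r, [], [], _, _, h => by simp at h
  | [], b :: r, _, _, h1, _, _ => by simp at h1
  | a :: l, [], _, _, h1, _, _ => by simp at h1
  | [], [], [], b :: r', _, h2, _ => by simp at h2
  | [], [], a :: l', [], _, h2, _ => by simp at h2
  | a :: l, b :: r, [], b' :: r', _, h2, _ => by simp at h2
  | a :: l, b :: r, a' :: l', [], _, h2, _ => by simp at h2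

/-- sections of a word -/
def S0 (ω : ℕ → Fin 3) (l r : List (Fin 4)) : PP :=
  (List.zipWith (fun s t => V (sh ω) s * al (ω 0) t) l r).prod
def S1 (ω : ℕ → Fin 3) (l r : List (Fin 4)) : PP :=
  (List.zipWith (fun s t => al (ω 0) s * V (sh ω) t) l r).prod

lemma Pw_zipL (ω : ℕ → Fin 3) : ∀ (l r : List (Fin 4)), l.length = r.length →
    Pw ω (zipL l r) = Φ (S0 ω l r, S1 ω l r)
  | [], [], _ => by
    simp only [zipL_nil, Pw_nil, S0, S1, List.zipWith_nil_left, List.prod_nil]
    exact (map_one Φ).symm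
  | s :: l, t :: r, h => by
    have ih := Pw_zipL ω l r (by simpa using h)
    rw [zipL_cons, Pw_cons, Pw_cons, ih]
    have h1 : A * V ω s * (A * V ω t * Φ (S0 ω l r, S1 ω l r)) =
        (A * V ω s * A) * V ω t * Φ (S0 ω l r, S1 ω l r) := by group
    rw [h1, V_eq ω s, V_eq ω t, A_Φ_A, ← map_mul, ← map_mul]
    simp [S0, S1]
  | [], b :: r, h => by simp at h
  | a :: l, [], h => by simp at h

lemma Pw_zipL_one (ω : ℕ → Fin 3) (l r : List (Fin 4)) (h : l.length = r.length) :
    Pw ω (zipL l r) = 1 ↔ S0 ω l r = 1 ∧ S1 ω l r = 1 := by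
  rw [Pw_zipL ω l r h, Φ_eq_one]

/-! ### parity -/

def Par (g : PP) (e : Bool) : Prop := ∀ (b : Bool) (v : List Bool), ∃ v', g (b :: v) = (b ^^ e) :: v'

lemma Par.mul {g h : PP} {e f : Bool} (hg : Par g e) (hh : Par h f) : Par (g * h) (e ^^ f) := by
  intro b v
  obtain ⟨v1, h1⟩ := hh b v
  obtain ⟨v2, h2⟩ := hg (b ^^ f) v1
  refine ⟨v2, ?_⟩
  rw [Equiv.Perm.mul_apply, h1, h2]
  congr 1
  cases b <;> cases e <;> cases f <;> rfl

lemma Par_A : Par A true := by
  intro b v; exact ⟨v, by cases b <;> simp⟩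

lemma Par_one : Par 1 false := by
  intro b v; exact ⟨v, by cases b <;> simp⟩

lemma Par_Φ (p : PP × PP) : Par (Φ p) false := by
  intro b v; cases b
  · exact ⟨p.1 v, by simp⟩
  · exact ⟨p.2 v, by simp⟩

lemma Par_V (ω : ℕ → Fin 3) (s : Fin 4) : Par (V ω s) false := by
  rw [V_eq]; exact Par_Φ _

lemma Par_ne_one {g : PP} (h : Par g true) : g ≠ 1 := by
  rintro rfl
  obtain ⟨v', hv⟩ := h false []
  simp at hv

/-! ### not eventually constant sequences -/

def ND (ω : ℕ → Fin 3) : Prop := ∀ n, ∃ i, n ≤ i ∧ ω i ≠ ω n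

lemma ND.sh {ω : ℕ → Fin 3} (h : ND ω) : ND (sh ω) := by
  intro n
  obtain ⟨i, hi, hne⟩ := h (n + 1)
  exact ⟨i - 1, by omega, by unfold SM2e.sh; rwa [show i - 1 + 1 = i by omega]⟩

lemma V_ne_one {ω : ℕ → Fin 3} (h : ND ω) {s : Fin 4} (hs : s ≠ 0) : V ω s ≠ 1 := by
  intro h1
  have h2 : gen ω s = id := by
    funext v
    have := congrArg (fun g : PP => g v) h1
    simpa [V, hs] using this
  have h3 := gen_eq_id_imp s hs ω h2
  obtain ⟨i, _, hne⟩ := h 0
  apply hne
  have h4 := h3 i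
  have h5 := h3 0
  unfold Kills at h4 h5
  exact Fin.ext (by rw [h4, h5])

lemma V_eq_one {ω : ℕ → Fin 3} (h : ND ω) (s : Fin 4) : V ω s = 1 ↔ s = 0 := by
  constructor
  · intro h1; by_contra hs; exact V_ne_one h hs h1
  · rintro rfl; simp

/-! ### pairs of elements of bounded size -/

inductive NS (ω ω' : ℕ → Fin 3) : ℕ → PP → PP → Prop
  | base (s : Fin 4) : NS ω ω' 0 (V ω s) (V ω' s)
  | step (n : ℕ) (g g' : PP) (s : Fin 4) : NS ω ω' n g g' →
      NS ω ω' (n + 1) (g * (A * V ω s)) (g' * (A * V ω' s))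

lemma NS.mulV {ω ω' : ℕ → Fin 3} {n : ℕ} {g g' : PP} (h : NS ω ω' n g g') (s : Fin 4) :
    NS ω ω' n (g * V ω s) (g' * V ω' s) := by
  cases h with
  | base t => rw [V_mul, V_mul]; exact NS.base _
  | step n g g' t h =>
    rw [mul_assoc, mul_assoc A, V_mul, mul_assoc g', mul_assoc A, V_mul]
    exact NS.step _ _ _ _ h

lemma NS.mul {ω ω' : ℕ → Fin 3} {n k : ℕ} {g g' h h' : PP} (hg : NS ω ω' n g g')
    (hh : NS ω ω' k h h') : NS ω ω' (n + k) (g * h) (g' * h') := by
  induction hh with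
  | base s => exact hg.mulV s
  | step k h h' s _ ih =>
    rw [← mul_assoc, ← mul_assoc g', ← add_assoc]
    exact NS.step _ _ _ _ ih

lemma NS.one (ω ω' : ℕ → Fin 3) : NS ω ω' 0 1 1 := by
  have := NS.base (ω := ω) (ω' := ω') 0
  simpa using this

lemma NS.a (ω ω' : ℕ → Fin 3) : NS ω ω' 1 A A := by
  have := NS.step _ _ _ 0 (NS.one ω ω')
  simpa using this

lemma NS.al (ω ω' : ℕ → Fin 3) (k : Fin 3) (s : Fin 4) :
    NS ω ω' (if live k s then 1 else 0) (al k s) (al k s) := by
  unfold SM2e.al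
  split_ifs
  · exact NS.a ω ω'
  · exact NS.one ω ω'

lemma NS_S0 {ω ω' : ℕ → Fin 3} (h0 : ω 0 = ω' 0) : ∀ (l r : List (Fin 4)), l.length = r.length →
    NS (sh ω) (sh ω') (r.countP (live (ω 0))) (S0 ω l r) (S0 ω' l r)
  | [], [], _ => by simpa [S0] using NS.one _ _
  | s :: l, t :: r, h => by
    have ih := NS_S0 h0 l r (by simpa using h)
    have h1 : S0 ω (s :: l) (t :: r) = V (sh ω) s * al (ω 0) t * S0 ω l r := by simp [S0]
    have h2 : S0 ω' (s :: l) (t :: r) = V (sh ω') s * al (ω 0) t * S0 ω' l r := by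
      simp [S0, h0]
    rw [h1, h2, List.countP_cons, add_comm]
    have h3 := ((NS.base (ω := sh ω) (ω' := sh ω') s).mul (NS.al _ _ (ω 0) t)).mul ih
    rwa [Nat.zero_add] at h3
  | [], b :: r, h => by simp at h
  | a :: l, [], h => by simp at h

lemma NS_S1 {ω ω' : ℕ → Fin 3} (h0 : ω 0 = ω' 0) : ∀ (l r : List (Fin 4)), l.length = r.length →
    NS (sh ω) (sh ω') (l.countP (live (ω 0))) (S1 ω l r) (S1 ω' l r)
  | [], [], _ => by simpa [S1] using NS.one _ _
  | s :: l, t :: r, h => by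
    have ih := NS_S1 h0 l r (by simpa using h)
    have h1 : S1 ω (s :: l) (t :: r) = al (ω 0) s * V (sh ω) t * S1 ω l r := by simp [S1]
    have h2 : S1 ω' (s :: l) (t :: r) = al (ω 0) s * V (sh ω') t * S1 ω' l r := by
      simp [S1, h0]
    rw [h1, h2, List.countP_cons, add_comm]
    have h3 := ((NS.al _ _ (ω 0) s).mul (NS.base (ω := sh ω) (ω' := sh ω') t)).mul ih
    rwa [Nat.add_zero] at h3
  | [], b :: r, h => by simp at h
  | a :: l, [], h => by simp at h

lemma NS.exists_list {ω ω' : ℕ → Fin 3} {n : ℕ} {g g' : PP} (h : NS ω ω' n g g') :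
    ∃ (s : Fin 4) (l : List (Fin 4)), l.length = n ∧ g = V ω s * Pw ω l ∧ g' = V ω' s * Pw ω' l := by
  induction h with
  | base s => exact ⟨s, [], rfl, by simp, by simp⟩
  | step n g g' t _ ih =>
    obtain ⟨s, l, hl, h1, h2⟩ := ih
    refine ⟨s, l ++ [t], by simp [hl], ?_, ?_⟩
    · rw [h1, Pw_append]; simp [Pw, mul_assoc]
    · rw [h2, Pw_append]; simp [Pw, mul_assoc]

lemma conj_one {v : PP} (hv : v * v = 1) (x : PP) : v * x * v = 1 ↔ x = 1 := by
  have hi : v⁻¹ = v := inv_eq_of_mul_eq_one_left hv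
  constructor
  · intro h
    have h1 : x = v⁻¹ * (v * x * v) * v⁻¹ := by group
    rw [h1, h, mul_one, hi, hv]
  · rintro rfl; rw [mul_one, hv]

/-- Cyclic reduction: being trivial is the same as a list of the same length being trivial. -/
lemma NS.exists_cyc {ω ω' : ℕ → Fin 3} {n : ℕ} {g g' : PP} (h : NS ω ω' n g g') (hn : n ≠ 0) :
    ∃ (l : List (Fin 4)), l.length = n ∧ (g = 1 ↔ Pw ω l = 1) ∧ (g' = 1 ↔ Pw ω' l = 1) := by
  obtain ⟨s, l, hl, h1, h2⟩ := h.exists_list
  have hl0 : l ≠ [] := by rintro rfl; simp at hl; omega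
  obtain ⟨l', t, rfl⟩ : ∃ l' t, l = l' ++ [t] :=
    ⟨l.dropLast, l.getLast hl0, (List.dropLast_append_getLast hl0).symm⟩
  have key : ∀ ρ : ℕ → Fin 3, V ρ s * Pw ρ (l' ++ [t]) = 1 ↔ Pw ρ (l' ++ [kl t s]) = 1 := by
    intro ρ
    have h3 : Pw ρ (l' ++ [kl t s]) = V ρ s * (V ρ s * Pw ρ (l' ++ [t])) * V ρ s := by
      rw [← mul_assoc (V ρ s), V_mul_self, one_mul, Pw_append, Pw_append]
      simp only [Pw, List.map_cons, List.map_nil, List.prod_cons, List.prod_nil, mul_one]
      rw [← V_mul, mul_assoc, mul_assoc]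
    rw [h3]
    exact (conj_one (V_mul_self ρ s) _).symm
  exact ⟨l' ++ [kl t s], by simpa using hl, by rw [h1]; exact key ω, by rw [h2]; exact key ω'⟩

lemma Par_Pw (ω : ℕ → Fin 3) (l : List (Fin 4)) : Par (Pw ω l) (l.length.bodd) := by
  induction l with
  | nil => exact Par_one
  | cons s l ih =>
    rw [Pw_cons]
    have := (Par_A.mul (Par_V ω s)).mul ih
    simpa [Nat.bodd_succ] using this

lemma Pw_odd_ne_one (ω : ℕ → Fin 3) (l : List (Fin 4)) (h : Odd l.length) : Pw ω l ≠ 1 := by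
  apply Par_ne_one
  have := Par_Pw ω l
  rwa [show l.length.bodd = true from ?_] at this
  obtain ⟨k, hk⟩ := h
  rw [hk]
  simp [Nat.bodd_add, Nat.bodd_mul, Nat.bodd_two]

lemma Par_al (k : Fin 3) (s : Fin 4) : Par (al k s) (live k s) := by
  unfold al
  cases live k s
  · exact Par_one
  · exact Par_A

lemma VA_ne_one {ω : ℕ → Fin 3} (hω : ND ω) (s t : Fin 4) (k : Fin 3)
    (h : V ω s * al k t = 1) : s = 0 ∧ live k t = false := by
  have hp := (Par_V ω s).mul (Par_al k t)
  cases hl : live k t with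
  | true => rw [hl] at hp; exact absurd h (Par_ne_one hp)
  | false =>
    have : al k t = 1 := by simp [al, hl]
    rw [this, mul_one] at h
    exact ⟨(V_eq_one hω s).1 h, rfl⟩

lemma two_word {ω : ℕ → Fin 3} (hω : ND ω) (s t : Fin 4) : Pw ω [s, t] = 1 ↔ s = 0 ∧ t = 0 := by
  have h := Pw_zipL_one ω [s] [t] rfl
  simp only [zipL_cons, zipL_nil, S0, S1, List.zipWith_cons_cons, List.zipWith_nil_left,
    List.prod_cons, List.prod_nil, mul_one] at h
  rw [h]
  constructor
  · rintro ⟨h1, h2⟩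
    obtain ⟨rfl, h3⟩ := VA_ne_one hω.sh s t (ω 0) h1
    rw [al_zero, one_mul] at h2
    exact ⟨rfl, (V_eq_one hω.sh t).1 h2⟩
  · rintro ⟨rfl, rfl⟩
    simp

/-- Words with fewer than `2^(m+2)` letters a are trivial independently of what follows the
first `m` symbols. -/
lemma NS_indep : ∀ (m : ℕ) (ω ω' : ℕ → Fin 3) (n : ℕ) (g g' : PP), (∀ i < m, ω i = ω' i) →
    ND ω → ND ω' → NS ω ω' n g g' → n < 2 ^ (m + 2) → (g = 1 ↔ g' = 1) := by
  intro m
  induction m with
  | zero =>
    intro ω ω' n g g' _ hω hω' h hn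
    rcases Nat.eq_zero_or_pos n with rfl | hpos
    · cases h with
      | base s => rw [V_eq_one hω, V_eq_one hω']
    · obtain ⟨l, hl, h1, h2⟩ := h.exists_cyc (by omega)
      rw [h1, h2]
      have hn' : n = 1 ∨ n = 2 ∨ n = 3 := by norm_num at hn; omega
      rcases hn' with rfl | rfl | rfl
      · exact iff_of_false (Pw_odd_ne_one ω l (by rw [hl]; decide))
          (Pw_odd_ne_one ω' l (by rw [hl]; decide))
      · match l, hl with
        | [s, t], _ => rw [two_word hω, two_word hω']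
      · exact iff_of_false (Pw_odd_ne_one ω l (by rw [hl]; decide))
          (Pw_odd_ne_one ω' l (by rw [hl]; decide))
  | succ m ih =>
    intro ω ω' n g g' hpre hω hω' h hn
    rcases Nat.eq_zero_or_pos n with rfl | hpos
    · cases h with
      | base s => rw [V_eq_one hω, V_eq_one hω']
    · obtain ⟨l, hl, h1, h2⟩ := h.exists_cyc (by omega)
      rw [h1, h2]
      rcases Nat.even_or_odd n with he | ho
      · obtain ⟨k, hk⟩ := he
        obtain ⟨u, r, hu, hr, rfl⟩ := exists_zipL k l (by omega)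
        rw [Pw_zipL_one ω u r (by omega), Pw_zipL_one ω' u r (by omega)]
        have h0 := hpre 0 (by omega)
        have hk2 : k < 2 ^ (m + 2) := by
          have : 2 ^ (m + 1 + 2) = 2 * 2 ^ (m + 2) := by ring
          omega
        have e0 := ih (sh ω) (sh ω') _ _ _ (fun i hi => hpre (i + 1) (by omega)) hω.sh hω'.sh
          (NS_S0 h0 u r (by omega)) (lt_of_le_of_lt List.countP_le_length (by rw [hr]; exact hk2))
        have e1 := ih (sh ω) (sh ω') _ _ _ (fun i hi => hpre (i + 1) (by omega)) hω.sh hω'.sh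
          (NS_S1 h0 u r (by omega)) (lt_of_le_of_lt List.countP_le_length (by rw [hu]; exact hk2))
        rw [e0, e1]
      · exact iff_of_false (Pw_odd_ne_one ω l (by rw [hl]; exact ho))
          (Pw_odd_ne_one ω' l (by rw [hl]; exact ho))

end Pool.Agent.SM2e
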