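import Pool.Agent.SM2e.Ring

set_option autoImplicit false

namespace Pool.Agent.SM2e

open Finset

noncomputable section

/-- the span of the three elements `b + c`, `1 + d`, `d - 1` -/
def Cp (ω : ℕ → Fin 3) (c : RG) : Prop :=
  ∃ m n k : ℤ, c = m • (vv ω 1 + vv ω 2) + n • (1 + vv ω 3) + k • (vv ω 3 - 1)

lemma Cp_cc (ω : ℕ → Fin 3) (e : Bool) : Cp ω (cc ω e) := by
  cases e with
  | false => exact ⟨1, 0, 0, by simp [cc]⟩
  | true => exact ⟨0, 0, 1, by simp [cc]⟩

lemma Cp_mul (ω : ℕ → Fin 3) {c c' : RG} (h : Cp ω c) (h' : Cp ω c') :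
    ∃ c'', Cp ω c'' ∧ c * c' = 2 * c'' := by
  obtain ⟨m, n, k, rfl⟩ := h
  obtain ⟨m', n', k', rfl⟩ := h'
  refine ⟨_, ⟨m * n' + n * m', m * m' + n * n', - (k * k'), rfl⟩, ?_⟩
  have h11 : vv ω 1 * vv ω 1 = 1 := by rw [vv_mul]; exact vv_zero ω
  have h12 : vv ω 1 * vv ω 2 = vv ω 3 := by rw [vv_mul]; rfl
  have h13 : vv ω 1 * vv ω 3 = vv ω 2 := by rw [vv_mul]; rfl
  have h21 : vv ω 2 * vv ω 1 = vv ω 3 := by rw [vv_mul]; rfl
  have h22 : vv ω 2 * vv ω 2 = 1 := by rw [vv_mul]; exact vv_zero ω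
  have h23 : vv ω 2 * vv ω 3 = vv ω 1 := by rw [vv_mul]; rfl
  have h31 : vv ω 3 * vv ω 1 = vv ω 2 := by rw [vv_mul]; rfl
  have h32 : vv ω 3 * vv ω 2 = vv ω 1 := by rw [vv_mul]; rfl
  have h33 : vv ω 3 * vv ω 3 = 1 := by rw [vv_mul]; exact vv_zero ω
  generalize vv ω 1 = b at *
  generalize vv ω 2 = c at *
  generalize vv ω 3 = d at *
  have e1 : (b + c) * (b + c) = 2 * (1 + d) := by
    calc (b + c) * (b + c) = b * b + b * c + c * b + c * c := by noncomm_ring
      _ = 2 * (1 + d) := by rw [h11, h12, h21, h22]; noncomm_ring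
  have e2 : (b + c) * (1 + d) = 2 * (b + c) := by
    calc (b + c) * (1 + d) = b + c + b * d + c * d := by noncomm_ring
      _ = 2 * (b + c) := by rw [h13, h23]; noncomm_ring
  have e3 : (1 + d) * (b + c) = 2 * (b + c) := by
    calc (1 + d) * (b + c) = b + c + d * b + d * c := by noncomm_ring
      _ = 2 * (b + c) := by rw [h31, h32]; noncomm_ring
  have e4 : (1 + d) * (1 + d) = 2 * (1 + d) := by
    calc (1 + d) * (1 + d) = 1 + 2 * d + d * d := by noncomm_ring
      _ = 2 * (1 + d) := by rw [h33]; noncomm_ring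
  have e5 : (b + c) * (d - 1) = 0 := by
    calc (b + c) * (d - 1) = b * d + c * d - b - c := by noncomm_ring
      _ = 0 := by rw [h13, h23]; noncomm_ring
  have e6 : (d - 1) * (b + c) = 0 := by
    calc (d - 1) * (b + c) = d * b + d * c - b - c := by noncomm_ring
      _ = 0 := by rw [h31, h32]; noncomm_ring
  have e7 : (1 + d) * (d - 1) = 0 := by
    calc (1 + d) * (d - 1) = d * d - 1 := by noncomm_ring
      _ = 0 := by rw [h33]; noncomm_ring
  have e8 : (d - 1) * (1 + d) = 0 := by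
    calc (d - 1) * (1 + d) = d * d - 1 := by noncomm_ring
      _ = 0 := by rw [h33]; noncomm_ring
  have e9 : (d - 1) * (d - 1) = - (2 * (d - 1)) := by
    calc (d - 1) * (d - 1) = d * d - 2 * d + 1 := by noncomm_ring
      _ = - (2 * (d - 1)) := by rw [h33]; noncomm_ring
  generalize b + c = K at *
  generalize 1 + d = P at *
  generalize d - 1 = D at *
  simp only [mul_add, add_mul, smul_mul_assoc, mul_smul_comm, e1, e2, e3, e4, e5, e6, e7, e8, e9,
    smul_zero, add_zero, zero_add]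
  have h2 : ∀ x : RG, 2 * x = (2 : ℤ) • x := by
    intro x; rw [zsmul_eq_mul]; norm_num
  simp only [h2]
  module

lemma cYY (ω : ℕ → Fin 3) : ∀ (l r : List Bool) (c : RG), l.length = r.length → Cp ω c →
    ∃ z : RG, c * YY ω l r = 2 ^ (l.count true) * z
  | [], [], c, _, _ => ⟨c, by simp [YY]⟩
  | true :: l, t :: r, c, h, hc => by
    obtain ⟨c'', hc'', h2⟩ := Cp_mul ω hc (Cp_cc ω t)
    obtain ⟨z, hz⟩ := cYY ω l r c'' (by simpa using h) hc''
    refine ⟨z, ?_⟩
    have h3 : YY ω (true :: l) (t :: r) = cc ω t * YY ω l r := by simp [YY, ee]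
    rw [h3, ← mul_assoc, h2, mul_assoc, hz, List.count_cons_self, pow_succ', mul_assoc]
  | false :: l, t :: r, c, h, hc => by
    obtain ⟨z, hz⟩ := cYY ω l r (cc ω t) (by simpa using h) (Cp_cc ω t)
    refine ⟨c * a * z, ?_⟩
    have h3 : YY ω (false :: l) (t :: r) = a * cc ω t * YY ω l r := by simp [YY, ee]
    have h4 : (false :: l).count true = l.count true := by simp
    rw [h3, h4, mul_assoc a, hz, ← mul_assoc c]
    have h5 : ∀ (n : ℕ) (x : RG), x * (2 ^ n) = 2 ^ n * x := by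
      intro n x
      exact ((Commute.ofNat_right x 2).pow_right n).eq
    rw [← mul_assoc, h5, mul_assoc]
  | [], b :: r, _, h, _ => by simp at h
  | a :: l, [], _, h, _ => by simp at h

lemma XX_shift (ω : ℕ → Fin 3) : ∀ (l r : List Bool) (z h : Bool) (t : List Bool),
    l.length = r.length → l ++ [z] = h :: t → XX ω l r * cc ω z = cc ω h * YY ω r t
  | [], [], z, h, t, _, h2 => by
    simp only [List.nil_append, List.cons.injEq] at h2
    obtain ⟨rfl, rfl⟩ := h2
    simp [XX, YY]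
  | s :: l, u :: r, z, h, t, h1, h2 => by
    simp only [List.cons_append, List.cons.injEq] at h2
    obtain ⟨rfl, rfl⟩ := h2
    obtain ⟨h', t', ht⟩ : ∃ h' t', l ++ [z] = h' :: t' := by
      cases l with
      | nil => exact ⟨z, [], rfl⟩
      | cons x l => exact ⟨x, l ++ [z], rfl⟩
    have ih := XX_shift ω l r z h' t' (by simpa using h1) ht
    have h3 : XX ω (s :: l) (u :: r) = cc ω s * ee u * XX ω l r := by simp [XX]
    have h4 : YY ω (u :: r) (h' :: t') = ee u * cc ω h' * YY ω r t' := by simp [YY]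
    rw [ht, h3, h4, mul_assoc, ih]; simp only [mul_assoc]
  | [], b :: r, _, _, _, h, _ => by simp at h
  | a :: l, [], _, _, _, h, _ => by simp at h

lemma XX_append (ω : ℕ → Fin 3) (l1 l2 r1 r2 : List Bool) (h : l1.length = r1.length) :
    XX ω (l1 ++ l2) (r1 ++ r2) = XX ω l1 r1 * XX ω l2 r2 := by
  unfold XX
  rw [List.zipWith_append h, List.prod_append]

lemma YY_append (ω : ℕ → Fin 3) (l1 l2 r1 r2 : List Bool) (h : l1.length = r1.length) :
    YY ω (l1 ++ l2) (r1 ++ r2) = YY ω l1 r1 * YY ω l2 r2 := by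
  unfold YY
  rw [List.zipWith_append h, List.prod_append]

lemma two_pow_comm (n : ℕ) (x : RG) : x * (2 ^ n) = 2 ^ n * x :=
  ((Commute.ofNat_right x 2).pow_right n).eq

lemma τ_two_pow (n : ℕ) (x : RG) : τ (2 ^ n * x) = 2 ^ n * τ x := by
  have h : (2 ^ n * x : RG) = (2 ^ n : ℕ) • x := by
    rw [nsmul_eq_mul]; push_cast; rfl
  rw [h, map_nsmul, nsmul_eq_mul]; push_cast; rfl

/-- split two lists of equal length at an occurrence. -/
lemma split_at {b : Bool} (r l : List Bool) (h : l.length = r.length) (hb : b ∈ r) :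
    ∃ r1 r2 l1 z l2, r = r1 ++ b :: r2 ∧ l = l1 ++ z :: l2 ∧ l1.length = r1.length ∧
      l2.length = r2.length := by
  obtain ⟨r1, r2, rfl⟩ := List.append_of_mem hb
  have h1 : r1.length < l.length := by rw [h]; simp
  refine ⟨r1, r2, l.take r1.length, l[r1.length], l.drop (r1.length + 1), rfl, ?_, ?_, ?_⟩
  · rw [← List.drop_eq_getElem_cons h1, List.take_append_drop]
  · simp; omega
  · simp at h ⊢; omega

lemma τ_XX_dvd (ω : ℕ → Fin 3) (l r : List Bool) (h : l.length = r.length) (hf : false ∈ r) :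
    (2 : ℤ) ^ (r.count true) ∣ τ (XX ω l r) := by
  obtain ⟨r1, r2, l1, z, l2, rfl, rfl, h1, h2⟩ := split_at r l h hf
  rw [XX_append ω _ _ _ _ h1, τ_comm]
  have h3 : XX ω (z :: l2) (false :: r2) = cc ω z * (a * XX ω l2 r2) := by
    simp [XX, ee, mul_assoc]
  rw [h3, mul_assoc, τ_comm, mul_assoc a, ← XX_append ω _ _ _ _ h2]
  obtain ⟨h', t', ht⟩ : ∃ h' t', (l2 ++ l1) ++ [z] = h' :: t' := by
    cases hl : l2 ++ l1 with
    | nil => exact ⟨z, [], rfl⟩
    | cons x l => exact ⟨x, l ++ [z], rfl⟩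
  rw [mul_assoc, XX_shift ω _ _ z h' t' (by simp; omega) ht]
  have h4 : (r2 ++ r1).length = t'.length := by
    have := congrArg List.length ht
    simp at this ⊢; omega
  obtain ⟨y, hy⟩ := cYY ω (r2 ++ r1) t' (cc ω h') h4 (Cp_cc ω h')
  rw [hy, ← mul_assoc, two_pow_comm, mul_assoc, τ_two_pow]
  have h5 : (r1 ++ false :: r2).count true = (r2 ++ r1).count true := by
    simp [List.count_append, add_comm]
  rw [h5]
  exact Dvd.intro _ rfl

lemma τ_YY_dvd (ω : ℕ → Fin 3) (l r : List Bool) (h : l.length = r.length) (hf : false ∈ l) :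
    (2 : ℤ) ^ (l.count true) ∣ τ (YY ω l r) := by
  obtain ⟨l1, l2, r1, z, r2, rfl, rfl, h1, h2⟩ := split_at l r h.symm hf
  rw [YY_append ω _ _ _ _ h1.symm, τ_comm]
  have h3 : YY ω (false :: l2) (z :: r2) = a * (cc ω z * YY ω l2 r2) := by
    simp [YY, ee, mul_assoc]
  rw [h3, mul_assoc, mul_assoc, ← YY_append ω _ _ _ _ h2.symm]
  obtain ⟨y, hy⟩ := cYY ω (l2 ++ l1) (r2 ++ r1) (cc ω z) (by simp; omega) (Cp_cc ω z)
  rw [hy, ← mul_assoc, two_pow_comm, mul_assoc, τ_two_pow]
  have h5 : (l1 ++ false :: l2).count true = (l2 ++ l1).count true := by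
    simp [List.count_append, add_comm]
  rw [h5]
  exact Dvd.intro _ rfl

lemma YY_all (ω : ℕ → Fin 3) (l r : List Bool) (h : l.length = r.length) (hf : false ∉ l) :
    (2 : ℤ) ^ (l.length - 1) ∣ τ (YY ω l r) := by
  match l, r, h, hf with
  | [], [], _, _ => simp
  | false :: l, _, _, hf => simp at hf
  | true :: l, t :: r, h, hf =>
    have hf' : false ∉ l := by simpa using hf
    obtain ⟨y, hy⟩ := cYY ω l r (cc ω t) (by simpa using h) (Cp_cc ω t)
    have h3 : YY ω (true :: l) (t :: r) = cc ω t * YY ω l r := by simp [YY, ee]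
    rw [h3, hy, τ_two_pow]
    have h4 : l.count true = l.length := by
      apply List.count_eq_length.2
      intro b hb
      cases b
      · exact absurd hb hf'
      · rfl
    rw [h4]
    simp

lemma XX_eq_YY (ω : ℕ → Fin 3) : ∀ (l r : List Bool), l.length = r.length → false ∉ r →
    XX ω l r = YY ω r l
  | [], [], _, _ => rfl
  | s :: l, false :: r, _, hf => by simp at hf
  | s :: l, true :: r, h, hf => by
    have ih := XX_eq_YY ω l r (by simpa using h) (by simpa using hf)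
    have h3 : XX ω (s :: l) (true :: r) = cc ω s * XX ω l r := by simp [XX, ee]
    have h4 : YY ω (true :: r) (s :: l) = cc ω s * YY ω r l := by simp [YY, ee]
    rw [h3, h4, ih]
  | [], b :: r, h, _ => by simp at h
  | a :: l, [], h, _ => by simp at h

lemma XX_all (ω : ℕ → Fin 3) (l r : List Bool) (h : l.length = r.length) (hf : false ∉ r) :
    (2 : ℤ) ^ (r.length - 1) ∣ τ (XX ω l r) := by
  rw [XX_eq_YY ω l r h hf]
  exact YY_all ω r l h.symm hf

end

end Pool.Agent.SM2e
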