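import Pool.Agent.SM2e.Level

set_option autoImplicit false

namespace Pool.Agent.SM2e

open Finset

noncomputable section

/-- trace of the powers of `a (b + c + d - 1)` -/
def PPn (ω : ℕ → Fin 3) (n : ℕ) : ℤ := τ ((a * (cc ω false + cc ω true)) ^ n)

/-- number of trivial products of `n` factors `ab`, `ac` -/
def BB (ω : ℕ → Fin 3) (n : ℕ) : ℤ := τ ((a * cc ω false) ^ n)

lemma WW_cons (ω : ℕ → Fin 3) (e : Bool) (l : List Bool) :
    WW ω (e :: l) = a * cc ω e * WW ω l := by simp [WW]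

lemma WW_append (ω : ℕ → Fin 3) (l r : List Bool) : WW ω (l ++ r) = WW ω l * WW ω r := by
  simp [WW]

lemma WW_rep (ω : ℕ → Fin 3) (n : ℕ) (q : List Bool) : WW ω (rep n q) = WW ω q ^ n := by
  induction n with
  | zero => simp [WW]
  | succ n ih => rw [rep_succ, WW_append, ih, pow_succ']

lemma WW_rot (ω : ℕ → Fin 3) (e : Bool) (l : List Bool) : τ (WW ω (e :: l)) = τ (WW ω (l ++ [e])) := by
  rw [WW_append, WW_cons, τ_comm]
  simp [WW]

lemma PPn_expand (ω : ℕ → Fin 3) (n : ℕ) : PPn ω n = ∑ l ∈ LL n, τ (WW ω l) := by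
  have h := pow_expand (fun e => a * cc ω e) n
  rw [PPn, mul_add, h, map_sum]
  rfl

lemma count_zipL (b : Bool) : ∀ (l r : List Bool), l.length = r.length →
    (zipL l r).count b = l.count b + r.count b
  | [], [], _ => rfl
  | s :: l, t :: r, h => by
    have ih := count_zipL b l r (by simpa using h)
    rw [zipL_cons, List.count_cons, List.count_cons, ih, List.count_cons, List.count_cons]; ring
  | [], b :: r, h => by simp at h
  | a :: l, [], h => by simp at h

lemma lt_two_pow_succ (i : ℕ) : i + 1 ≤ 2 ^ i := Nat.lt_two_pow_self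

/-- the words which are not constant contribute zero -/
lemma mixed_dvd (ω : ℕ → Fin 3) (h0 : ω 0 = 0) (k : ℕ) (hk : 2 ≤ k) (j : ℕ) (hj1 : 1 ≤ j)
    (hj2 : j ≤ k + 1) (q : List Bool) (hq : q.length = 2 ^ j) (ht : true ∈ q) :
    (2 : ℤ) ^ (k + 2 - j) ∣ τ (WW ω (rep (2 ^ (k + 1 - j)) q)) ∨ false ∉ q := by
  left
  set u := rep (2 ^ (k + 1 - j)) q with hu
  have hlen : u.length = 2 * 2 ^ k := by
    rw [hu, rep_length, hq, ← pow_add, show k + 1 - j + j = k + 1 by omega]; ring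
  obtain ⟨l, r, hl, hr, hlr⟩ := exists_zipL (2 ^ k) u hlen
  have hcount : u.count true = 2 ^ (k + 1 - j) * q.count true := rep_count true _ q
  have hqc : 1 ≤ q.count true := List.count_pos_iff.2 ht
  rw [hlr, τ_WW_zipL ω h0 l r (by omega)]
  have hk4 : k + 2 ≤ 2 ^ k := by
    obtain ⟨t, rfl⟩ : ∃ t, k = t + 2 := ⟨k - 2, by omega⟩
    have := lt_two_pow_succ t
    rw [pow_add]; omega
  by_cases hfr : false ∈ r
  · by_cases hfl : false ∈ l
    · have h1 := τ_XX_dvd (sh ω) l r (by omega) hfr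
      have h2 := τ_YY_dvd (sh ω) l r (by omega) hfl
      have h3 := mul_dvd_mul h1 h2
      rw [← pow_add] at h3
      refine dvd_trans (pow_dvd_pow 2 ?_) h3
      have h4 : r.count true + l.count true = 2 ^ (k + 1 - j) * q.count true := by
        rw [← hcount, hlr, count_zipL true l r (by omega)]; ring
      rw [h4]
      have h5 := lt_two_pow_succ (k + 1 - j)
      calc k + 2 - j ≤ k + 1 - j + 1 := by omega
        _ ≤ 2 ^ (k + 1 - j) := h5
        _ ≤ 2 ^ (k + 1 - j) * q.count true := Nat.le_mul_of_pos_right _ hqc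
    · have h2 := YY_all (sh ω) l r (by omega) hfl
      apply Dvd.dvd.mul_left
      refine dvd_trans (pow_dvd_pow 2 ?_) h2
      omega
  · have h1 := XX_all (sh ω) l r (by omega) hfr
    apply Dvd.dvd.mul_right
    refine dvd_trans (pow_dvd_pow 2 ?_) h1
    omega

lemma rep_zipL (n : ℕ) (b : Bool) : rep (2 * n) [b] = zipL (rep n [b]) (rep n [b]) := by
  induction n with
  | zero => rfl
  | succ n ih =>
    rw [show 2 * (n + 1) = 2 * n + 1 + 1 by ring, rep_succ, rep_succ, ih, rep_succ]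
    rfl

lemma XX_rep (ω : ℕ → Fin 3) (n : ℕ) (b : Bool) :
    XX ω (rep n [b]) (rep n [b]) = (cc ω b * ee b) ^ n := by
  induction n with
  | zero => simp [XX]
  | succ n ih =>
    rw [rep_succ, XX_append ω _ _ _ _ rfl, ih, pow_succ']
    simp [XX]

lemma YY_rep (ω : ℕ → Fin 3) (n : ℕ) (b : Bool) :
    YY ω (rep n [b]) (rep n [b]) = (ee b * cc ω b) ^ n := by
  induction n with
  | zero => simp [YY]
  | succ n ih =>
    rw [rep_succ, YY_append ω _ _ _ _ rfl, ih, pow_succ']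
    simp [YY]

lemma dm1_pow (ω : ℕ → Fin 3) (n : ℕ) : cc ω true ^ (n + 1) = (-2 : ℤ) ^ n • cc ω true := by
  have h9 : cc ω true * cc ω true = (-2 : ℤ) • cc ω true := by
    have h33 : vv ω 3 * vv ω 3 = 1 := by rw [vv_mul]; exact vv_zero ω
    simp only [cc, if_true]
    generalize vv ω 3 = d at *
    calc (d - 1) * (d - 1) = d * d - 2 * d + 1 := by noncomm_ring
      _ = (-2 : ℤ) • (d - 1) := by rw [h33]; noncomm_ring
  induction n with
  | zero => simp
  | succ n ih => rw [pow_succ, ih, smul_mul_assoc, h9, smul_smul, pow_succ (-2 : ℤ)]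

/-- **One level.** -/
theorem one_level (ω : ℕ → Fin 3) (hω : ND ω) (h0 : ω 0 = 0) (k : ℕ) (hk : 2 ≤ k) :
    (2 : ℤ) ^ (k + 2) ∣ PPn ω (2 ^ (k + 1)) - (BB (sh ω) (2 ^ k) ^ 2 + 4 ^ (2 ^ k - 1)) := by
  have h := reduce (k + 1) (k + 2) (fun l => τ (WW ω l)) (WW_rot ω) (by
    intro j hj1 hj2 q hq hf ht
    have := mixed_dvd ω h0 k hk j hj1 hj2 q hq ht
    rcases this with h | h
    · exact h
    · exact absurd hf h)
  rw [← PPn_expand] at h
  have hN : 2 ^ (k + 1) = 2 * 2 ^ k := by ring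
  have e1 : τ (WW ω (rep (2 ^ (k + 1)) [false])) = BB (sh ω) (2 ^ k) ^ 2 := by
    rw [hN, rep_zipL, τ_WW_zipL ω h0 _ _ rfl, XX_rep, YY_rep, τ_pow_comm]
    simp only [ee, Bool.false_eq_true, if_false, BB]
    ring
  have e2 : τ (WW ω (rep (2 ^ (k + 1)) [true])) = 4 ^ (2 ^ k - 1) := by
    rw [hN, rep_zipL, τ_WW_zipL ω h0 _ _ rfl, XX_rep, YY_rep]
    simp only [ee, if_true, mul_one, one_mul]
    obtain ⟨n, hn⟩ : ∃ n, 2 ^ k = n + 1 := ⟨2 ^ k - 1, by have := Nat.pow_pos (n := k) (show 0 < 2 by norm_num); omega⟩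
    rw [hn, dm1_pow, map_zsmul]
    have h3 : τ (cc (sh ω) true) = -1 := by
      simp only [cc, if_true, map_sub, τ_one, vv]
      rw [τ_og, if_neg (V_ne_one hω.sh (by decide))]; norm_num
    rw [h3, Nat.add_sub_cancel]
    simp only [smul_eq_mul]
    have : ((-2 : ℤ) ^ n * -1) * ((-2) ^ n * -1) = ((-2) * (-2)) ^ n := by rw [mul_pow]; ring
    rw [this]; norm_num
  rw [e1, e2] at h
  exact h

end

end Pool.Agent.SM2e
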