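import Pool.Agent.SM2e.Fin

set_option autoImplicit false

namespace Pool.Agent.SM2e

open Finset

noncomputable section

lemma Pre_getD : ∀ (η : List Bool) (k : Fin 3) (ω : ℕ → Fin 3), Pre η k ω →
    ∀ i (h : i < η.length), ω i = sy (η[i])
  | [], _, _, _, i, hi => by simp at hi
  | s :: η, k, ω, h, i, hi => by
    cases i with
    | zero => exact h.1
    | succ i => exact Pre_getD η k (sh ω) h.2 i (by simpa using hi)

lemma sy_ne (b : Bool) : sy b ≠ 0 := by cases b <;> decide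

lemma PB_replicate (ω : ℕ → Fin 3) (n : ℕ) (b : Bool) :
    PB ω (rep n [b]) = (A * V ω (β b)) ^ n := by
  rw [PB_rep]; simp [PB, Pw]

lemma kills_of_mem (b : Bool) (η : List Bool) (k : Fin 3) (ω : ℕ → Fin 3) (h : Pre η k ω)
    (hb : b ∈ η) : ∃ i < η.length, live (ω i) (β b) = false := by
  obtain ⟨i, hi, rfl⟩ := List.getElem_of_mem hb
  refine ⟨i, hi, ?_⟩
  rw [Pre_getD η k ω h i hi, live_sy]; simp

/-! ### constant prefixes -/

lemma not_kills_const (y : Bool) (m : ℕ) (ρ : ℕ → Fin 3) (h : Pre (List.replicate m y) 0 ρ) :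
    ¬ ∃ i < m + 1, live (ρ i) (β (!y)) = false := by
  rintro ⟨i, hi, hl⟩
  rcases Nat.lt_or_ge i m with h1 | h1
  · rw [Pre_getD _ _ _ h i (by simpa using h1)] at hl
    simp only [List.getElem_replicate, live_sy] at hl
    revert hl; cases y <;> decide
  · have : i = m := by omega
    subst this
    have h2 : ρ i = 0 := by
      clear hi hl h1
      induction i generalizing ρ with
      | zero => exact h
      | succ i ih => exact ih (sh ρ) h.2
    rw [h2, live_z] at hl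
    exact absurd hl (by decide)

lemma BB_const_odd (y : Bool) (m : ℕ) (ρ : ℕ → Fin 3) (hρ : ND ρ)
    (h : Pre (List.replicate (m + 1) y) 0 ρ) : ∃ c : ℤ, BB ρ (2 ^ (m + 1 + 2)) = 2 * c + 1 := by
  have h1 := redj 0 (m + 3) (FF ρ) (FF_rot ρ)
  rw [BB_count]
  have e1 : FF ρ (rep (2 ^ (m + 3)) [y]) = 1 := by
    apply FF_one
    rw [PB_replicate, ord_iff (β y) (β_ne y) (m + 2) ρ hρ]
    exact ⟨0, by omega, by rw [h.1, live_sy]; simp⟩
  have e2 : FF ρ (rep (2 ^ (m + 3)) [!y]) = 0 := by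
    apply FF_zero
    rw [PB_replicate, Ne, ord_iff (β (!y)) (β_ne _) (m + 2) ρ hρ]
    exact not_kills_const y (m + 1) ρ h
  have h2 : ∑ q ∈ LL (2 ^ 0), FF ρ (rep (2 ^ (m + 3)) q) = 1 := by
    rw [pow_zero, show (1 : ℕ) = 0 + 1 from rfl, sum_LL_succ, sum_LL_zero, sum_LL_zero]
    cases y
    · rw [e1]; simp only [Bool.not_false] at e2; rw [e2]; rfl
    · simp only [Bool.not_true] at e2; rw [e2, e1]; rfl
  rw [h2] at h1
  obtain ⟨c, hc⟩ := h1
  refine ⟨c, ?_⟩
  rw [add_zero] at hc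
  norm_num at hc
  linarith

lemma PB_pair (ρ : ℕ → Fin 3) (p q : Bool) :
    PB ρ [p, q] = Φ (V (sh ρ) (β p) * al (ρ 0) (β q), al (ρ 0) (β p) * V (sh ρ) (β q)) := by
  have h := Pw_zipL ρ [β p] [β q] rfl
  simp only [zipL_cons, zipL_nil, S0, S1, List.zipWith_cons_cons, List.zipWith_nil_left,
    List.prod_cons, List.prod_nil, mul_one] at h
  rw [← h]; rfl

lemma PB_quad (ρ : ℕ → Fin 3) (p q r s : Bool) :
    PB ρ [p, q, r, s] = Φ (V (sh ρ) (β p) * al (ρ 0) (β q) * (V (sh ρ) (β r) * al (ρ 0) (β s)),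
      al (ρ 0) (β p) * V (sh ρ) (β q) * (al (ρ 0) (β r) * V (sh ρ) (β s))) := by
  have h := Pw_zipL ρ [β p, β r] [β q, β s] rfl
  simp only [zipL_cons, zipL_nil, S0, S1, List.zipWith_cons_cons, List.zipWith_nil_left,
    List.prod_cons, List.prod_nil, mul_one] at h
  rw [← h]; rfl

lemma al_dead (y : Bool) : al (sy y) (β y) = 1 := by rw [al, live_sy]; simp
lemma al_live (y : Bool) : al (sy y) (β (!y)) = A := by rw [al, live_sy]; simp

lemma Φ_pow_one (p q : PP) (n : ℕ) : Φ (p, q) ^ n = 1 ↔ p ^ n = 1 ∧ q ^ n = 1 := by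
  rw [← map_pow, Prod.pow_mk, Φ_eq_one]

lemma sq_pow {g : PP} (h : g * g = 1) (n : ℕ) : g ^ (2 ^ (n + 1)) = 1 := by
  rw [pow_succ', pow_mul, pow_two, h, one_pow]

lemma BB_one_mod4 (y : Bool) (ρ : ℕ → Fin 3) (hρ : ND ρ) (h : Pre [y] 0 ρ) :
    ∃ c : ℤ, BB ρ (2 ^ 3) = 4 * c + 1 := by
  have h1 := redj 1 2 (FF ρ) (FF_rot ρ)
  rw [BB_count]
  have hrot : ∀ p q : Bool, FF ρ (rep (2 ^ 2) [p, q]) = FF ρ (rep (2 ^ 2) [q, p]) := by
    intro p q
    apply FF_congr
    rw [PB_rep, PB_rep]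
    have : ∀ p q : Bool, PB ρ [p, q] = (A * V ρ (β p)) * (A * V ρ (β q)) := by
      intro p q; simp [PB, Pw]
    rw [this, this]
    exact pow_comm_one _ _ _
  have e1 : FF ρ (rep (2 ^ 2) [y, y]) = 1 := by
    apply FF_one
    rw [PB_rep, PB_pair, h.1, al_dead, mul_one, one_mul, Φ_pow_one, and_self]
    exact sq_pow (V_mul_self _ _) 1
  have e2 : FF ρ (rep (2 ^ 2) [!y, !y]) = 0 := by
    apply FF_zero
    have : rep (2 ^ 2) [!y, !y] = rep (2 ^ 3) [!y] := rfl
    rw [this, PB_replicate, Ne, ord_iff (β (!y)) (β_ne _) 2 ρ hρ]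
    exact not_kills_const y 1 ρ h
  have e3 : FF ρ (rep (2 ^ 2) [y, !y]) = 0 := by
    apply FF_zero
    rw [PB_rep, PB_pair, h.1, al_live, Ne, Φ_pow_one]
    rintro ⟨h2, _⟩
    rw [pow_comm_one, show 2 ^ 2 = 2 ^ (1 + 1) from rfl, ord_iff (β y) (β_ne _) 1 _ hρ.sh] at h2
    obtain ⟨i, hi, hl⟩ := h2
    have : i = 0 := by omega
    subst this
    have h4 : sh ρ 0 = 0 := h.2
    rw [h4, live_z] at hl
    exact absurd hl (by decide)
  have h2 : ∑ q ∈ LL (2 ^ 1), FF ρ (rep (2 ^ 2) q) = 1 := by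
    rw [show 2 ^ 1 = 0 + 1 + 1 from rfl]
    simp only [sum_LL_succ, sum_LL_zero]
    cases y
    · simp only [Bool.not_false] at e2 e3
      rw [e1, e3, hrot true false, e3, e2]; norm_num
    · simp only [Bool.not_true] at e2 e3
      rw [e1, e3, hrot false true, e3, e2]; norm_num
  rw [h2] at h1
  obtain ⟨c, hc⟩ := h1
  refine ⟨c, ?_⟩
  norm_num at hc
  norm_num
  linarith

/-! ### nonconstant prefixes -/

lemma BB_mod8 (y : Bool) (η : List Bool) (hy : (!y) ∈ η) (ρ : ℕ → Fin 3) (hρ : ND ρ)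
    (h : Pre (y :: y :: y :: y :: η) 0 ρ) :
    ∃ c : ℤ, BB ρ (2 ^ ((y :: y :: y :: y :: η).length + 2)) = 8 * c + 4 := by
  set m := (y :: y :: y :: y :: η).length with hm
  have hm4 : m = η.length + 4 := by simp [hm]
  have h1 := redj 2 m (FF ρ) (FF_rot ρ)
  rw [BB_count]
  set G : List Bool → ℤ := fun q => FF ρ (rep (2 ^ m) q) with hG
  have hrot : ∀ p q r s : Bool, G [p, q, r, s] = G [q, r, s, p] := by
    intro p q r s
    apply FF_congr
    rw [PB_rep, PB_rep]
    have e1 : PB ρ [p, q, r, s] = (A * V ρ (β p)) * PB ρ [q, r, s] := by rw [PB_cons]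
    have e2 : PB ρ [q, r, s, p] = PB ρ [q, r, s] * (A * V ρ (β p)) := by
      have : ([q, r, s, p] : List Bool) = [q, r, s] ++ [p] := rfl
      rw [this, PB_append]; simp [PB, Pw]
    rw [e1, e2]
    exact pow_comm_one _ _ _
  have hsum : ∑ q ∈ LL (2 ^ 2), G q = G [y, y, y, y] + G [!y, !y, !y, !y] + 2 * G [y, !y, y, !y] +
      4 * G [y, y, y, !y] + 4 * G [!y, !y, !y, y] + 4 * G [y, y, !y, !y] := by
    rw [show 2 ^ 2 = 0 + 1 + 1 + 1 + 1 from rfl]
    simp only [sum_LL_succ, sum_LL_zero]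
    have r0 := hrot false false false true
    have r1 := hrot false false true false
    have r2 := hrot false false true true
    have r3 := hrot false true false false
    have r4 := hrot false true false true
    have r5 := hrot false true true false
    have r6 := hrot false true true true
    have r7 := hrot true false false false
    have r8 := hrot true false false true
    have r9 := hrot true false true false
    have r10 := hrot true false true true
    have r11 := hrot true true false false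
    have r12 := hrot true true false true
    have r13 := hrot true true true false
    cases y
    · simp only [Bool.not_false]
      linarith
    · simp only [Bool.not_true]
      linarith
  have hρ0 : ρ 0 = sy y := h.1
  have hρ1 : sh ρ 0 = sy y := h.2.1
  have hρ2 : sh (sh ρ) 0 = sy y := h.2.2.1
  obtain ⟨i0, hi0, hk⟩ := kills_of_mem (!y) _ _ ρ h (by simp [hy])
  have hm' : m = (m - 1) + 1 := by omega
  have g1 : G [y, y, y, y] = 1 := by
    apply FF_one
    have : rep (2 ^ m) [y, y, y, y] = rep (2 ^ (m + 2)) [y] := by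
      have : ([y, y, y, y] : List Bool) = rep 4 [y] := rfl
      rw [this, rep_rep]; congr 1; ring
    rw [this, PB_replicate, show m + 2 = (m + 1) + 1 from rfl, ord_iff (β y) (β_ne y) (m + 1) ρ hρ]
    exact ⟨0, by omega, by rw [hρ0, live_sy]; simp⟩
  have g2 : G [!y, !y, !y, !y] = 1 := by
    apply FF_one
    have : rep (2 ^ m) [!y, !y, !y, !y] = rep (2 ^ (m + 2)) [!y] := by
      have : ([!y, !y, !y, !y] : List Bool) = rep 4 [!y] := rfl
      rw [this, rep_rep]; congr 1; ring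
    rw [this, PB_replicate, show m + 2 = (m + 1) + 1 from rfl,
      ord_iff (β (!y)) (β_ne _) (m + 1) ρ hρ]
    exact ⟨i0, by omega, hk⟩
  have g3 : G [y, !y, y, !y] = 1 := by
    apply FF_one
    have : rep (2 ^ m) [y, !y, y, !y] = rep (2 ^ (m + 1)) [y, !y] := by
      have : ([y, !y, y, !y] : List Bool) = rep 2 [y, !y] := rfl
      rw [this, rep_rep]; congr 1
    rw [this, PB_rep, PB_pair, hρ0, al_live, al_dead, one_mul, Φ_pow_one]
    refine ⟨?_, sq_pow (V_mul_self _ _) m⟩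
    rw [pow_comm_one, ord_iff (β y) (β_ne y) m _ hρ.sh]
    exact ⟨0, by omega, by rw [hρ1, live_sy]; simp⟩
  have g4 : G [y, y, y, !y] = 1 := by
    apply FF_one
    rw [PB_rep, PB_quad, hρ0, al_live, al_dead, mul_one, one_mul, one_mul, Φ_pow_one]
    rw [← mul_assoc, V_mul_self, one_mul, V_mul, hm']
    exact ⟨sq_pow A_mul_A _, sq_pow (V_mul_self _ _) _⟩
  have g5 : G [!y, !y, !y, y] = 1 := by
    apply FF_one
    rw [PB_rep, PB_quad, hρ0, al_live, al_dead, mul_one, Φ_pow_one]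
    constructor
    · rw [hm']
      apply sq_pow
      have hv := V_mul_self (sh ρ) (β (!y))
      generalize V (sh ρ) (β (!y)) = v at *
      calc (v * A * v) * (v * A * v) = v * A * (v * v) * A * v := by group
        _ = 1 := by rw [hv, mul_one, mul_assoc v A A, A_mul_A, mul_one, hv]
    · have e1 : A * V (sh ρ) (β (!y)) * (A * V (sh ρ) (β y)) = PB (sh ρ) [!y, y] := by
        simp [PB, Pw]
      rw [e1, PB_pair, hρ1, al_live, al_dead, mul_one, Φ_pow_one, hm']
      refine ⟨sq_pow (V_mul_self _ _) _, ?_⟩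
      rw [ord_iff (β y) (β_ne y) (m - 1) _ hρ.sh.sh]
      exact ⟨0, by omega, by rw [hρ2, live_sy]; simp⟩
  have g6 : G [y, y, !y, !y] = 0 := by
    apply FF_zero
    rw [PB_rep, PB_quad, hρ0, al_live, al_dead, mul_one, Ne, Φ_pow_one]
    rintro ⟨h2, _⟩
    have e1 : V (sh ρ) (β y) * (V (sh ρ) (β (!y)) * A) = V (sh ρ) 3 * A := by
      rw [← mul_assoc, V_mul]
      congr 2
      cases y <;> rfl
    rw [e1, pow_comm_one, hm', ord_iff 3 (by decide) (m - 1) _ hρ.sh] at h2
    obtain ⟨i, hi, hl⟩ := h2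
    have h3 := Pre_getD _ _ _ h (i + 1) (by omega)
    have h4 : sh ρ i = ρ (i + 1) := rfl
    rw [h4, h3] at hl
    revert hl
    generalize (y :: y :: y :: y :: η)[i + 1] = b
    cases b <;> decide
  rw [show (∑ l ∈ LL (2 ^ (m + 2)), FF ρ l) = ∑ l ∈ LL (2 ^ (m + 2)), FF ρ l from rfl] at h1
  obtain ⟨c, hc⟩ := h1
  have hsum' : ∑ q ∈ LL (2 ^ 2), FF ρ (rep (2 ^ m) q) = 12 := by
    have : ∑ q ∈ LL (2 ^ 2), FF ρ (rep (2 ^ m) q) = ∑ q ∈ LL (2 ^ 2), G q := rfl
    rw [this, hsum, g1, g2, g3, g4, g5, g6]; norm_num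
  rw [hsum'] at hc
  refine ⟨c + 1, ?_⟩
  norm_num at hc
  linarith

end

end Pool.Agent.SM2e
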