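import Pool.Agent.SM2e.Main1

set_option autoImplicit false

namespace Pool.Agent.SM2e

open Finset

noncomputable section

/-! ### Return numbers determine the traces `PPn`. -/

/-- the sum of the four generators -/
def TT (ω : ℕ → Fin 3) : RG := a + (vv ω 1 + vv ω 2 + vv ω 3)

/-- all lists of length `n` over the four letters -/
def L4 : ℕ → Finset (List (Fin 4))
  | 0 => {[]}
  | n + 1 => (Finset.univ ×ˢ L4 n).image (fun p => p.1 :: p.2)

lemma mem_L4 : ∀ (n : ℕ) (l : List (Fin 4)), l ∈ L4 n ↔ l.length = n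
  | 0, l => by simp [L4]
  | n + 1, l => by
    simp only [L4, mem_image, mem_product, mem_univ, true_and, Prod.exists, mem_L4 n]
    constructor
    · rintro ⟨s, l', h, rfl⟩; simp [h]
    · intro h
      match l, h with
      | s :: l, h => exact ⟨s, l, by simpa using h, rfl⟩

lemma pow_expand4 (c : Fin 4 → RG) (n : ℕ) :
    (∑ s, c s) ^ n = ∑ l ∈ L4 n, (l.map c).prod := by
  induction n with
  | zero => simp [L4]
  | succ n ih =>
    rw [L4, sum_image, sum_product, pow_succ', ih, sum_mul]
    · apply sum_congr rfl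
      intro s _
      rw [mul_sum]
      simp
    · rintro ⟨s, l⟩ _ ⟨t, r⟩ _ h
      simp only [List.cons.injEq] at h
      exact Prod.ext h.1 h.2

lemma act_eq (ω : ℕ → Fin 3) (u : List (Fin 4)) : act ω u = ⇑((u.map (gp ω)).prod) := by
  induction u with
  | nil => rfl
  | cons s u ih =>
    have h1 : act ω (s :: u) = gen ω s ∘ act ω u := rfl
    rw [h1, ih]
    rfl

lemma returns_eq (ω : ℕ → Fin 3) (n : ℕ) : (returns ω n : ℤ) = τ (TT ω ^ n) := by
  classical
  have h1 : TT ω = ∑ s, og (gp ω s) := by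
    rw [Fin.sum_univ_four, gp_zero, TT, a]
    simp only [vv, V]
    rw [if_neg (by decide), if_neg (by decide), if_neg (by decide)]
    abel
  rw [h1, pow_expand4, map_sum]
  have h2 : ∀ l : List (Fin 4), τ ((l.map (fun s => og (gp ω s))).prod) =
      if act ω l = id then 1 else 0 := by
    intro l
    have h3 : (l.map (fun s => og (gp ω s))).prod = og ((l.map (gp ω)).prod) := by
      rw [map_list_prod, List.map_map]; rfl
    rw [h3, τ_og, act_eq]
    have h4 : (l.map (gp ω)).prod = 1 ↔ ⇑((l.map (gp ω)).prod) = id := by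
      constructor
      · intro h; rw [h]; rfl
      · intro h; ext1 v; rw [h]; rfl
    by_cases h5 : (l.map (gp ω)).prod = 1
    · rw [if_pos h5, if_pos (h4.1 h5)]
    · rw [if_neg h5, if_neg (fun h6 => h5 (h4.2 h6))]
  simp only [h2]
  rw [sum_boole]
  unfold returns
  norm_cast
  apply Nat.subtype_card
  intro u
  rw [mem_filter, mem_L4]

open Polynomial in
lemma τ_poly (ω ω' : ℕ → Fin 3) (h : ∀ k, returns ω k = returns ω' k) (p : ℤ[X]) :
    τ (aeval (TT ω) p) = τ (aeval (TT ω') p) := by
  induction p using Polynomial.induction_on' with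
  | add p q hp hq => rw [map_add, map_add, map_add, map_add, hp, hq]
  | monomial n c =>
    rw [aeval_monomial, aeval_monomial]
    have h1 : ∀ x : RG, algebraMap ℤ RG c * x = c • x := by
      intro x; rw [Algebra.smul_def]
    rw [h1, h1, map_zsmul, map_zsmul, ← returns_eq, ← returns_eq, h]

open Polynomial in
/-- Chebyshev-like polynomials. -/
def Dp : ℕ → ℤ[X]
  | 0 => 2
  | 1 => (X - 1) ^ 2 - 5
  | n + 2 => ((X - 1) ^ 2 - 5) * Dp (n + 1) - 4 * Dp n

lemma S_sq (ω : ℕ → Fin 3) :
    (cc ω false + cc ω true) * (cc ω false + cc ω true) = 4 := by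
  have h11 : vv ω 1 * vv ω 1 = 1 := by rw [vv_mul]; exact vv_zero ω
  have h12 : vv ω 1 * vv ω 2 = vv ω 3 := by rw [vv_mul]; rfl
  have h13 : vv ω 1 * vv ω 3 = vv ω 2 := by rw [vv_mul]; rfl
  have h21 : vv ω 2 * vv ω 1 = vv ω 3 := by rw [vv_mul]; rfl
  have h22 : vv ω 2 * vv ω 2 = 1 := by rw [vv_mul]; exact vv_zero ω
  have h23 : vv ω 2 * vv ω 3 = vv ω 1 := by rw [vv_mul]; rfl
  have h31 : vv ω 3 * vv ω 1 = vv ω 2 := by rw [vv_mul]; rfl
  have h32 : vv ω 3 * vv ω 2 = vv ω 1 := by rw [vv_mul]; rfl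
  have h33 : vv ω 3 * vv ω 3 = 1 := by rw [vv_mul]; exact vv_zero ω
  simp only [cc, Bool.false_eq_true, if_false, if_true]
  generalize vv ω 1 = b at *
  generalize vv ω 2 = c at *
  generalize vv ω 3 = d at *
  calc (b + c + (d - 1)) * (b + c + (d - 1)) = b * b + b * c + b * d + c * b + c * c + c * d +
        d * b + d * c + d * d - 2 * b - 2 * c - 2 * d + 1 := by noncomm_ring
    _ = 4 := by
      rw [h11, h12, h13, h21, h22, h23, h31, h32, h33]; noncomm_ring
      norm_num

open Polynomial in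
lemma aeval_Dp (ω : ℕ → Fin 3) : ∀ n : ℕ, aeval (TT ω) (Dp n) =
    (a * (cc ω false + cc ω true)) ^ n + ((cc ω false + cc ω true) * a) ^ n := by
  have hS := S_sq ω
  have hT : TT ω - 1 = a + (cc ω false + cc ω true) := by
    simp only [TT, cc, Bool.false_eq_true, if_false, if_true]; abel
  generalize cc ω false + cc ω true = S at *
  have ha := a_mul_a
  have hY : (TT ω - 1) ^ 2 - 5 = a * S + S * a := by
    rw [hT]
    calc (a + S) ^ 2 - 5 = a * a + S * S + (a * S + S * a) - 5 := by noncomm_ring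
      _ = a * S + S * a := by
        have h5 : (1 : RG) + 4 = 5 := by norm_num
        rw [ha, hS, h5]; abel
  have hgh : (a * S) * (S * a) = 4 := by
    calc (a * S) * (S * a) = a * (S * S) * a := by noncomm_ring
      _ = 4 * (a * a) := by rw [hS]; noncomm_ring
      _ = 4 := by rw [ha, mul_one]
  have hhg : (S * a) * (a * S) = 4 := by
    calc (S * a) * (a * S) = S * (a * a) * S := by noncomm_ring
      _ = 4 := by rw [ha, mul_one, hS]
  have hD : aeval (TT ω) (((X : ℤ[X]) - 1) ^ 2 - 5) = a * S + S * a := by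
    rw [← hY, map_sub, map_pow, map_sub, aeval_X, map_one, map_ofNat]
  have key : ∀ n : ℕ, aeval (TT ω) (Dp n) = (a * S) ^ n + (S * a) ^ n ∧
      aeval (TT ω) (Dp (n + 1)) = (a * S) ^ (n + 1) + (S * a) ^ (n + 1) := by
    intro n
    induction n with
    | zero =>
      constructor
      · rw [Dp, map_ofNat, pow_zero, pow_zero]; norm_num
      · simp only [zero_add, pow_one]
        rw [Dp]
        exact hD
    | succ n ih =>
      refine ⟨ih.2, ?_⟩
      rw [Dp, map_sub, map_mul, map_mul, hD, ih.1, ih.2]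
      have h4 : aeval (TT ω) (4 : ℤ[X]) = 4 := map_ofNat _ 4
      rw [h4]
      generalize a * S = g at *
      generalize S * a = h at *
      have e1 : g * h ^ (n + 1) = 4 * h ^ n := by rw [pow_succ', ← mul_assoc, hgh]
      have e2 : h * g ^ (n + 1) = 4 * g ^ n := by rw [pow_succ', ← mul_assoc, hhg]
      calc (g + h) * (g ^ (n + 1) + h ^ (n + 1)) - 4 * (g ^ n + h ^ n)
          = g * g ^ (n + 1) + h * h ^ (n + 1) + (g * h ^ (n + 1) + h * g ^ (n + 1)) -
            4 * (g ^ n + h ^ n) := by noncomm_ring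
        _ = g ^ (n + 1 + 1) + h ^ (n + 1 + 1) := by
          rw [e1, e2, ← pow_succ', ← pow_succ']; noncomm_ring
  exact fun n => (key n).1

lemma PPn_eq (ω ω' : ℕ → Fin 3) (h : ∀ k, returns ω k = returns ω' k) (n : ℕ) :
    PPn ω n = PPn ω' n := by
  have h1 := τ_poly ω ω' h (Dp n)
  rw [aeval_Dp, aeval_Dp, map_add, map_add, τ_pow_comm (cc ω false + cc ω true) a,
    τ_pow_comm (cc ω' false + cc ω' true) a] at h1
  unfold PPn
  linarith

/-! ### permutations of the symbols -/

/-- the letter killed by the image of the symbol killing `s` -/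
def pl (π : Equiv.Perm (Fin 3)) (s : Fin 4) : Fin 4 :=
  if h : s = 0 then 0
  else ⟨3 - (π ⟨3 - s.val, by have := Fin.pos_of_ne_zero h; have : 0 < s.val := this; omega⟩).val,
    by omega⟩

lemma pl_val (π : Equiv.Perm (Fin 3)) (s : Fin 4) (hs : s ≠ 0) (k : Fin 3) (hk : k.val = 3 - s.val) :
    (pl π s).val = 3 - (π k).val := by
  unfold pl
  rw [dif_neg hs]
  have : (⟨3 - s.val, by have := Fin.pos_of_ne_zero hs; have : 0 < s.val := this; omega⟩ : Fin 3)
    = k := Fin.ext hk.symm
  change 3 - (π ⟨3 - s.val, _⟩).val = 3 - (π k).val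
  rw [this]

lemma exists_sym (s : Fin 4) (hs : s ≠ 0) : ∃ k : Fin 3, k.val = 3 - s.val := by
  have : 0 < s.val := Fin.pos_of_ne_zero hs
  exact ⟨⟨3 - s.val, by omega⟩, rfl⟩

lemma pl_ne (π : Equiv.Perm (Fin 3)) (s : Fin 4) (hs : s ≠ 0) : pl π s ≠ 0 := by
  obtain ⟨k, hk⟩ := exists_sym s hs
  have h := pl_val π s hs k hk
  intro h0
  rw [h0] at h
  have := (π k).isLt
  simp at h
  omega

lemma pl_inj (π : Equiv.Perm (Fin 3)) : Function.Injective (pl π) := by
  intro s t h
  by_cases hs : s = 0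
  · by_cases ht : t = 0
    · rw [hs, ht]
    · exfalso; apply pl_ne π t ht; rw [← h, hs]; simp [pl]
  · by_cases ht : t = 0
    · exfalso; apply pl_ne π s hs; rw [h, ht]; simp [pl]
    · obtain ⟨k, hk⟩ := exists_sym s hs
      obtain ⟨k', hk'⟩ := exists_sym t ht
      have h1 := pl_val π s hs k hk
      have h2 := pl_val π t ht k' hk'
      rw [h] at h1
      have h3 := (π k).isLt
      have h4 := (π k').isLt
      have h5 : π k = π k' := Fin.ext (by omega)
      have h6 := π.injective h5
      rw [h6] at hk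
      have h7 := s.isLt
      have h8 := t.isLt
      have h9 : 0 < s.val := Fin.pos_of_ne_zero hs
      have h10 : 0 < t.val := Fin.pos_of_ne_zero ht
      exact Fin.ext (by omega)

def plE (π : Equiv.Perm (Fin 3)) : Equiv.Perm (Fin 4) :=
  Equiv.ofBijective (pl π) (Finite.injective_iff_bijective.1 (pl_inj π))

lemma gen_pl (π : Equiv.Perm (Fin 3)) (ω : ℕ → Fin 3) (s : Fin 4) :
    gen (fun n => π (ω n)) (pl π s) = gen ω s := by
  by_cases hs : s = 0
  · subst hs
    have : pl π 0 = 0 := by simp [pl]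
    rw [this]; rfl
  · funext v
    obtain ⟨k, hk⟩ := exists_sym s hs
    have h1 := pl_val π s hs k hk
    unfold gen
    rw [if_neg hs, if_neg (pl_ne π s hs)]
    have h2 : ∀ n, (π (ω n)).val ≠ 3 - (pl π s).val ↔ (ω n).val ≠ 3 - s.val := by
      intro n
      rw [h1]
      have h3 := (π k).isLt
      have h4 : 3 - (3 - (π k).val) = (π k).val := by omega
      rw [h4, ← hk]
      rw [not_iff_not, ← Fin.ext_iff, ← Fin.ext_iff, π.injective.eq_iff]
    simp only [h2]

lemma returns_perm (π : Equiv.Perm (Fin 3)) (ω : ℕ → Fin 3) (n : ℕ) :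
    returns (fun n => π (ω n)) n = returns ω n := by
  symm
  unfold returns
  have hact : ∀ u : List (Fin 4), act (fun n => π (ω n)) (u.map (pl π)) = act ω u := by
    intro u
    unfold act
    rw [List.map_map]
    congr 2
    funext s
    exact gen_pl π ω s
  let E : List (Fin 4) ≃ List (Fin 4) := Equiv.listEquivOfEquiv (plE π)
  apply Nat.card_congr
  refine E.subtypeEquiv ?_
  intro u
  have h1 : E u = u.map (pl π) := rfl
  rw [h1, hact, List.length_map]

end

end Pool.Agent.SM2e
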