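import Pool.Agent.SM2e.Grp
import Pool.Agent.SM2e.Orb

set_option autoImplicit false

namespace Pool.Agent.SM2e

open Finset

abbrev RG := MonoidAlgebra ℤ PP

noncomputable section

def τ : RG →+ ℤ where
  toFun x := x.coeff 1
  map_zero' := by simp
  map_add' x y := by simp

def og : PP →* RG := MonoidAlgebra.of ℤ PP

open Classical in
lemma τ_og (g : PP) : τ (og g) = if g = 1 then 1 else 0 := by
  change (MonoidAlgebra.single g (1 : ℤ)).coeff 1 = _
  rw [MonoidAlgebra.coeff_single, Finsupp.single_apply]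

lemma τ_one : τ 1 = 1 := by
  have := τ_og 1
  rw [map_one] at this
  simpa using this

lemma rg_ind (p : RG → Prop) (h0 : ∀ g, p (og g)) (hadd : ∀ x y, p x → p y → p (x + y))
    (hz : ∀ (r : ℤ) x, p x → p (r • x)) (x : RG) : p x :=
  MonoidAlgebra.induction_on x h0 hadd hz

lemma τ_comm (x y : RG) : τ (x * y) = τ (y * x) := by
  induction x using rg_ind with
  | h0 g =>
    induction y using rg_ind with
    | h0 h =>
      rw [← map_mul, ← map_mul, τ_og, τ_og]
      have : g * h = 1 ↔ h * g = 1 := mul_eq_one_comm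
      by_cases h1 : g * h = 1
      · rw [if_pos h1, if_pos (this.1 h1)]
      · rw [if_neg h1, if_neg (fun h2 => h1 (this.2 h2))]
    | hadd x y hx hy => rw [mul_add, add_mul, map_add, map_add, hx, hy]
    | hz r x hx => rw [mul_smul_comm, smul_mul_assoc, map_zsmul, map_zsmul, hx]
  | hadd x y hx hy => rw [add_mul, mul_add, map_add, map_add, hx, hy]
  | hz r x hx => rw [mul_smul_comm, smul_mul_assoc, map_zsmul, map_zsmul, hx]

lemma τ_pow_comm (x y : RG) (n : ℕ) : τ ((x * y) ^ n) = τ ((y * x) ^ n) := by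
  cases n with
  | zero => simp
  | succ n =>
    have h : (x * y) ^ (n + 1) = x * (y * x) ^ n * y := by
      induction n with
      | zero => simp
      | succ n ih => rw [pow_succ, ih, pow_succ (y * x) n]; simp only [mul_assoc]
    rw [h, τ_comm, ← mul_assoc, ← pow_succ']

def ι0 : RG →+* RG := MonoidAlgebra.mapDomainRingHom ℤ (Φ.comp (MonoidHom.inl PP PP))
def ι1 : RG →+* RG := MonoidAlgebra.mapDomainRingHom ℤ (Φ.comp (MonoidHom.inr PP PP))

lemma ι0_og (g : PP) : ι0 (og g) = og (Φ (g, 1)) := by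
  simp [ι0, og]
lemma ι1_og (g : PP) : ι1 (og g) = og (Φ (1, g)) := by
  simp [ι1, og]

lemma ι_comm (x y : RG) : ι1 y * ι0 x = ι0 x * ι1 y := by
  induction x using rg_ind with
  | h0 g =>
    induction y using rg_ind with
    | h0 h =>
      rw [ι0_og, ι1_og, ← map_mul, ← map_mul, ← map_mul, ← map_mul]
      simp
    | hadd x y hx hy => rw [map_add, mul_add, add_mul, hx, hy]
    | hz r x hx => rw [map_zsmul, mul_smul_comm, smul_mul_assoc, hx]
  | hadd x y hx hy => rw [map_add, add_mul, mul_add, hx, hy]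
  | hz r x hx => rw [map_zsmul, mul_smul_comm, smul_mul_assoc, hx]

lemma τ_ι (x y : RG) : τ (ι0 x * ι1 y) = τ x * τ y := by
  induction x using rg_ind with
  | h0 g =>
    induction y using rg_ind with
    | h0 h =>
      rw [ι0_og, ι1_og, ← map_mul, ← map_mul, τ_og, τ_og, τ_og]
      have : Φ ((g, 1) * (1, h)) = 1 ↔ g = 1 ∧ h = 1 := by
        rw [show (((g, 1) : PP × PP) * (1, h)) = (g, h) by simp]
        exact Φ_eq_one g h
      by_cases h1 : g = 1
      · by_cases h2 : h = 1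
        · rw [if_pos (this.2 ⟨h1, h2⟩), if_pos h1, if_pos h2]; rfl
        · rw [if_neg (fun h3 => h2 (this.1 h3).2), if_neg h2, mul_zero]
      · rw [if_neg (fun h3 => h1 (this.1 h3).1), if_neg h1, zero_mul]
    | hadd x y hx hy => rw [map_add, mul_add, map_add, map_add, mul_add, hx, hy]
    | hz r x hx => rw [map_zsmul, mul_smul_comm, map_zsmul, map_zsmul, mul_smul_comm, hx]
  | hadd x y hx hy => rw [map_add, add_mul, map_add, map_add, add_mul, hx, hy]
  | hz r x hx => rw [map_zsmul, smul_mul_assoc, map_zsmul, map_zsmul, smul_mul_assoc, hx]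

def a : RG := og A

lemma a_mul_a : a * a = 1 := by rw [a, ← map_mul, A_mul_A, map_one]

lemma a_ι_a (x y : RG) : a * (ι0 x * ι1 y) * a = ι0 y * ι1 x := by
  induction x using rg_ind with
  | h0 g =>
    induction y using rg_ind with
    | h0 h =>
      rw [ι0_og, ι1_og, ι0_og, ι1_og, a, ← map_mul, ← map_mul, ← map_mul, ← map_mul, ← map_mul,
        ← map_mul]
      congr 1
      simp only [Prod.mk_mul_mk, mul_one, one_mul]
      exact A_Φ_A g h
    | hadd x y hx hy =>
      rw [map_add, mul_add, mul_add, add_mul, map_add, add_mul, hx, hy]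
    | hz r x hx => rw [map_zsmul, mul_smul_comm, mul_smul_comm, smul_mul_assoc, hx, map_zsmul,
        smul_mul_assoc]
  | hadd x y hx hy => rw [map_add, add_mul, mul_add, add_mul, map_add, mul_add, hx, hy]
  | hz r x hx => rw [map_zsmul, smul_mul_assoc, mul_smul_comm, smul_mul_assoc, hx, map_zsmul,
        mul_smul_comm]

/-- group ring letters -/
def vv (ω : ℕ → Fin 3) (s : Fin 4) : RG := og (V ω s)

lemma vv_mul (ω : ℕ → Fin 3) (s t : Fin 4) : vv ω s * vv ω t = vv ω (kl s t) := by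
  rw [vv, vv, ← map_mul, V_mul]; rfl

lemma vv_zero (ω : ℕ → Fin 3) : vv ω 0 = 1 := by rw [vv, V_zero, map_one]

lemma vv_eq (ω : ℕ → Fin 3) (s : Fin 4) :
    vv ω s = ι0 (og (al (ω 0) s)) * ι1 (vv (sh ω) s) := by
  rw [vv, vv, ι0_og, ι1_og, ← map_mul, ← map_mul, V_eq]; simp

/-- the two letters: `false ↦ b + c`, `true ↦ d - 1`. -/
def cc (ω : ℕ → Fin 3) (e : Bool) : RG := if e then vv ω 3 - 1 else vv ω 1 + vv ω 2

def ee (e : Bool) : RG := if e then 1 else a

lemma cc_eq (ω : ℕ → Fin 3) (h0 : ω 0 = 0) (e : Bool) :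
    cc ω e = ι0 (ee e) * ι1 (cc (sh ω) e) := by
  have h1 : al (ω 0) 1 = A := by rw [h0]; rfl
  have h2 : al (ω 0) 2 = A := by rw [h0]; rfl
  have h3 : al (ω 0) 3 = 1 := by rw [h0]; rfl
  cases e with
  | false =>
    simp only [cc, ee, Bool.false_eq_true, if_false]
    rw [vv_eq ω 1, vv_eq ω 2, h1, h2, map_add, mul_add]; rfl
  | true =>
    simp only [cc, ee, if_true]
    rw [vv_eq ω 3, h3, map_one, map_one, map_sub, map_one, one_mul, one_mul]

lemma a_cc_a (ω : ℕ → Fin 3) (h0 : ω 0 = 0) (e : Bool) :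
    a * cc ω e * a = ι0 (cc (sh ω) e) * ι1 (ee e) := by
  rw [cc_eq ω h0, a_ι_a]

/-- first coordinate words -/
def XX (ω : ℕ → Fin 3) (l r : List Bool) : RG := (List.zipWith (fun s t => cc ω s * ee t) l r).prod
/-- second coordinate words -/
def YY (ω : ℕ → Fin 3) (l r : List Bool) : RG := (List.zipWith (fun s t => ee s * cc ω t) l r).prod

/-- words -/
def WW (ω : ℕ → Fin 3) (l : List Bool) : RG := (l.map (fun e => a * cc ω e)).prod

lemma WW_zipL (ω : ℕ → Fin 3) (h0 : ω 0 = 0) : ∀ (l r : List Bool), l.length = r.length →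
    WW ω (zipL l r) = ι0 (XX (sh ω) l r) * ι1 (YY (sh ω) l r)
  | [], [], _ => by simp [WW, XX, YY]
  | s :: l, t :: r, h => by
    have ih := WW_zipL ω h0 l r (by simpa using h)
    have h1 : WW ω (zipL (s :: l) (t :: r)) = (a * cc ω s * a) * cc ω t * WW ω (zipL l r) := by
      simp [WW, mul_assoc]
    have h2 : XX (sh ω) (s :: l) (t :: r) = cc (sh ω) s * ee t * XX (sh ω) l r := by simp [XX]
    have h3 : YY (sh ω) (s :: l) (t :: r) = ee s * cc (sh ω) t * YY (sh ω) l r := by simp [YY]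
    rw [h1, h2, h3, ih, a_cc_a ω h0, cc_eq ω h0 t]
    simp only [map_mul]
    have e1 := ι_comm (ee t) (ee s)
    have e2 := ι_comm (XX (sh ω) l r) (ee s * cc (sh ω) t)
    simp only [map_mul] at e2
    calc ι0 (cc (sh ω) s) * ι1 (ee s) * (ι0 (ee t) * ι1 (cc (sh ω) t)) *
        (ι0 (XX (sh ω) l r) * ι1 (YY (sh ω) l r))
        = ι0 (cc (sh ω) s) * (ι1 (ee s) * ι0 (ee t)) * ι1 (cc (sh ω) t) *
        (ι0 (XX (sh ω) l r) * ι1 (YY (sh ω) l r)) := by simp only [mul_assoc]
      _ = ι0 (cc (sh ω) s) * ι0 (ee t) * (ι1 (ee s) * ι1 (cc (sh ω) t) *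
        ι0 (XX (sh ω) l r)) * ι1 (YY (sh ω) l r) := by rw [e1]; simp only [mul_assoc]
      _ = _ := by rw [e2]; simp only [mul_assoc]
  | [], b :: r, h => by simp at h
  | a :: l, [], h => by simp at h

lemma τ_WW_zipL (ω : ℕ → Fin 3) (h0 : ω 0 = 0) (l r : List Bool) (h : l.length = r.length) :
    τ (WW ω (zipL l r)) = τ (XX (sh ω) l r) * τ (YY (sh ω) l r) := by
  rw [WW_zipL ω h0 l r h, τ_ι]

end

end Pool.Agent.SM2e
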